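import Mathlib

/-!
# Determining families of arcs, and their lifts by translations

`Det μ S`: a bounded Borel function with compact support is determined up to `μ`-null sets by its
integrals along the arcs of the family `S`. If every arc of a determining family in `Y` is lifted
to `ℝ × Y`, then all the translates of the lifts form a determining family in `ℝ × Y`.
-/

set_option autoImplicit false

namespace Pool.Agent.XTower

open MeasureTheory Set Filter Topology

/-- The family `S` of arcs determines the bounded Borel functions with compact support. (The arcs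
which meet a given null set in a set of times of positive measure are not needed.) -/
def Det {Y : Type*} [TopologicalSpace Y] [MeasurableSpace Y] (μ : Measure Y)
    (S : ℝ → ℝ → (ℝ → Y) → Prop) : Prop :=
  ∀ (F : Y → ℝ) (K Z : Set Y), Measurable F → (∃ C, ∀ z, |F z| ≤ C) → IsCompact K →
    (∀ z ∉ K, F z = 0) → MeasurableSet Z → μ Z = 0 →
    (∀ a b c, S a b c → c a ∉ K → c b ∉ K → (∀ᵐ t ∂(volume.restrict (Ioc a b)), c t ∉ Z) →
      ∫ t in a..b, F (c t) = 0) → ∀ᵐ z ∂μ, F z = 0

theorem bdd_int (R c : ℝ) : Integrable ((Icc (-R) R).indicator (fun _ : ℝ => c)) := by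
  apply IntegrableOn.integrable_indicator _ measurableSet_Icc
  rw [integrableOn_const_iff]
  right
  exact measure_Icc_lt_top

theorem pow_mul_bound {u : ℝ → ℝ} {C R : ℝ} (hb : ∀ x, |u x| ≤ C)
    (hs : ∀ x, R < |x| → u x = 0) (d : ℕ) (x : ℝ) :
    ‖x ^ d * u x‖ ≤ (Icc (-R) R).indicator (fun _ : ℝ => |R| ^ d * |C|) x := by
  by_cases hx : x ∈ Icc (-R) R
  · rw [indicator_of_mem hx, norm_mul, norm_pow, Real.norm_eq_abs, Real.norm_eq_abs]
    have h1 : |x| ≤ |R| := (abs_le.2 hx).trans (le_abs_self _)
    have h2 : |u x| ≤ |C| := (hb x).trans (le_abs_self _)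
    gcongr
  · have h1 : R < |x| := by
      by_contra h
      push Not at h
      exact hx (abs_le.1 h)
    rw [hs x h1, mul_zero, norm_zero]
    apply indicator_nonneg
    intro _ _; positivity

theorem pow_mul_int {u : ℝ → ℝ} (hm : Measurable u) {C R : ℝ} (hb : ∀ x, |u x| ≤ C)
    (hs : ∀ x, R < |x| → u x = 0) (d : ℕ) : Integrable (fun x => x ^ d * u x) :=
  (bdd_int R (|R| ^ d * |C|)).mono' ((measurable_id.pow_const d).mul hm).aestronglyMeasurable
    (Eventually.of_forall fun x => pow_mul_bound hb hs d x)

/-- a bounded function with bounded support all of whose moments vanish is zero -/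
theorem ae_zero_of_moments {u : ℝ → ℝ} (hm : Measurable u) {C R : ℝ} (hb : ∀ x, |u x| ≤ C)
    (hs : ∀ x, R < |x| → u x = 0) (h : ∀ d : ℕ, ∫ x, x ^ d * u x = 0) : ∀ᵐ x, u x = 0 := by
  have hui : Integrable u := by
    have := pow_mul_int hm hb hs 0
    simpa using this
  apply ae_eq_zero_of_integral_contDiff_smul_eq_zero hui.locallyIntegrable
  intro g hg _
  have hgc : Continuous g := hg.continuous
  have key : ∀ ε > 0, |∫ x, g x • u x| ≤ ε * ∫ x, |u x| := by
    intro ε hε
    obtain ⟨p, hp⟩ := exists_polynomial_near_of_continuousOn (-R) R g hgc.continuousOn ε hε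
    have h1 : ∫ x, p.eval x * u x = 0 := by
      have e1 : ∀ x, p.eval x * u x =
          ∑ i ∈ Finset.range (p.natDegree + 1), p.coeff i * (x ^ i * u x) := by
        intro x
        rw [Polynomial.eval_eq_sum_range, Finset.sum_mul]
        exact Finset.sum_congr rfl fun i _ => by ring
      simp only [e1]
      rw [integral_finsetSum _ fun i _ => (pow_mul_int hm hb hs i).const_mul _]
      apply Finset.sum_eq_zero
      intro i _
      rw [integral_const_mul, h i, mul_zero]
    have hpi : Integrable (fun x => p.eval x * u x) := by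
      have e1 : (fun x => p.eval x * u x) = fun x =>
          ∑ i ∈ Finset.range (p.natDegree + 1), p.coeff i * (x ^ i * u x) := by
        funext x
        rw [Polynomial.eval_eq_sum_range, Finset.sum_mul]
        exact Finset.sum_congr rfl fun i _ => by ring
      rw [e1]
      exact integrable_finsetSum _ fun i _ => (pow_mul_int hm hb hs i).const_mul _
    have hbd : ∀ x, ‖g x * u x - p.eval x * u x‖ ≤ ε * |u x| := by
      intro x
      by_cases hx : x ∈ Icc (-R) R
      · rw [← sub_mul, norm_mul, Real.norm_eq_abs, Real.norm_eq_abs]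
        have := hp x hx
        rw [abs_sub_comm] at this
        gcongr
      · have h2 : R < |x| := by
          by_contra h
          push Not at h
          exact hx (abs_le.1 h)
        rw [hs x h2]
        simp
    have hgi : Integrable (fun x => g x * u x) := by
      have h3 : Integrable (fun x => g x * u x - p.eval x * u x) :=
        (hui.abs.const_mul ε).mono'
          ((hgc.measurable.mul hm).sub (p.continuous.measurable.mul hm)).aestronglyMeasurable
          (Eventually.of_forall hbd)
      have h4 := h3.add hpi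
      refine h4.congr (Eventually.of_forall fun x => ?_)
      simp
    have h5 : ∫ x, g x • u x = ∫ x, (g x * u x - p.eval x * u x) := by
      rw [integral_sub hgi hpi, h1, sub_zero]
      rfl
    rw [h5, ← Real.norm_eq_abs, ← integral_const_mul]
    exact norm_integral_le_of_norm_le (hui.abs.const_mul ε) (Eventually.of_forall hbd)
  have h6 : |∫ x, g x • u x| ≤ 0 := by
    apply le_of_forall_pos_le_add
    intro ε hε
    have hI : 0 ≤ ∫ x, |u x| := integral_nonneg fun _ => abs_nonneg _
    have h7 := key (ε / ((∫ x, |u x|) + 1)) (by positivity)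
    have h8 : ε / ((∫ x, |u x|) + 1) * ∫ x, |u x| ≤ ε := by
      rw [div_mul_eq_mul_div, div_le_iff₀ (by positivity)]
      nlinarith
    linarith
  exact abs_nonpos_iff.1 h6

section lift

variable {Y : Type*} [TopologicalSpace Y] [MeasurableSpace Y]

/-- the moments along the first coordinate -/
noncomputable def mom (F : ℝ × Y → ℝ) (d : ℕ) (y : Y) : ℝ := ∫ x : ℝ, x ^ d * F (x, y)

omit [TopologicalSpace Y] in
theorem mom_measurable {F : ℝ × Y → ℝ} (hF : Measurable F) (d : ℕ) : Measurable (mom F d) := by
  have h : StronglyMeasurable (fun z : ℝ × Y => z.1 ^ d * F z) :=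
    ((measurable_fst.pow_const d).mul hF).stronglyMeasurable
  exact (StronglyMeasurable.integral_prod_left' (μ := (volume : Measure ℝ)) h).measurable

omit [TopologicalSpace Y] [MeasurableSpace Y] in
theorem mom_bound {F : ℝ × Y → ℝ} {C R : ℝ} (hb : ∀ z, |F z| ≤ C)
    (hs : ∀ x y, R < |x| → F (x, y) = 0) (d : ℕ) (y : Y) :
    |mom F d y| ≤ ∫ x, (Icc (-R) R).indicator (fun _ : ℝ => |R| ^ d * |C|) x := by
  rw [← Real.norm_eq_abs, mom]
  exact norm_integral_le_of_norm_le (bdd_int R (|R| ^ d * |C|))
    (Eventually.of_forall fun x => pow_mul_bound (u := fun x => F (x, y))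
      (fun x => hb _) (fun x hx => hs x y hx) d x)

/-- the Fubini step -/
theorem mom_step [BorelSpace Y] {F : ℝ × Y → ℝ} (hF : Measurable F)
    {C R : ℝ} (hb : ∀ z, |F z| ≤ C) (hs : ∀ x y, R < |x| → F (x, y) = 0) {a b : ℝ} (hab : a ≤ b)
    {c : ℝ → Y} (hc : Continuous c) {X : ℝ → ℝ} (hX : Continuous X) (d : ℕ)
    (h0 : ∀ᵐ x₀ : ℝ, ∫ t in a..b, F (x₀ + X t, c t) = 0)
    (hlow : ∀ᵐ t ∂(volume.restrict (Ioc a b)), ∀ j < d, mom F j (c t) = 0) :
    ∫ t in a..b, mom F d (c t) = 0 := by
  have h1 : ∀ t : ℝ, ∫ x : ℝ, x ^ d * F (x + X t, c t) =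
      ∑ j ∈ Finset.range (d + 1), (-X t) ^ (d - j) * (d.choose j) * mom F j (c t) := by
    intro t
    have hu : Measurable fun x : ℝ => F (x, c t) := hF.comp measurable_prodMk_right
    rw [← integral_add_right_eq_self (fun x : ℝ => x ^ d * F (x + X t, c t)) (-X t)]
    have e1 : ∀ x : ℝ, (x + -X t) ^ d * F (x + -X t + X t, c t) =
        ∑ j ∈ Finset.range (d + 1), (-X t) ^ (d - j) * (d.choose j) * (x ^ j * F (x, c t)) := by
      intro x
      rw [neg_add_cancel_right, add_pow, Finset.sum_mul]
      exact Finset.sum_congr rfl fun i _ => by ring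
    simp only [e1]
    rw [integral_finsetSum _ fun j _ => (pow_mul_int hu (fun x => hb _)
      (fun x hx => hs x _ hx) j).const_mul _]
    exact Finset.sum_congr rfl fun j _ => by rw [integral_const_mul, mom]
  have h2 : ∀ᵐ t ∂(volume.restrict (Ioc a b)), mom F d (c t) =
      ∫ x : ℝ, x ^ d * F (x + X t, c t) := by
    filter_upwards [hlow] with t ht
    rw [h1, Finset.sum_range_succ, Finset.sum_eq_zero, zero_add]
    · simp
    · intro j hj
      rw [ht j (Finset.mem_range.1 hj), mul_zero]
  rw [intervalIntegral.integral_of_le hab, integral_congr_ae h2]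
  -- integrability
  obtain ⟨B, hB⟩ := isCompact_Icc.exists_bound_of_continuousOn (s := Icc a b) hX.continuousOn
  set ρ := R + |B| with hρ
  have hmeas : Measurable (fun z : ℝ × ℝ => z.2 ^ d * F (z.2 + X z.1, c z.1)) := by
    have e1 : Measurable (fun z : ℝ × ℝ => (z.2 + X z.1, c z.1)) := by
      have := hX.measurable
      have := hc.measurable
      fun_prop
    exact (measurable_snd.pow_const d).mul (hF.comp e1)
  have hint : Integrable (fun z : ℝ × ℝ => z.2 ^ d * F (z.2 + X z.1, c z.1))
      ((volume.restrict (Ioc a b)).prod volume) := by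
    have hfin : Integrable (fun z : ℝ × ℝ => (univ ×ˢ Icc (-ρ) ρ).indicator
        (fun _ => |ρ| ^ d * |C|) z) ((volume.restrict (Ioc a b)).prod volume) := by
      apply IntegrableOn.integrable_indicator
      · rw [integrableOn_const_iff]
        right
        rw [Measure.prod_prod, Measure.restrict_apply_univ]
        exact ENNReal.mul_lt_top measure_Ioc_lt_top measure_Icc_lt_top
      · exact MeasurableSet.univ.prod measurableSet_Icc
    apply hfin.mono' hmeas.aestronglyMeasurable
    have hae : ∀ᵐ z ∂((volume.restrict (Ioc a b)).prod (volume : Measure ℝ)), z.1 ∈ Ioc a b := by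
      have : ∀ᵐ y ∂(volume.restrict (Ioc a b)), y ∈ Ioc a b := ae_restrict_mem measurableSet_Ioc
      exact Measure.quasiMeasurePreserving_fst.ae this
    filter_upwards [hae] with z hz
    have hz' : z.1 ∈ Icc a b := Ioc_subset_Icc_self hz
    by_cases hzb : z.2 ∈ Icc (-ρ) ρ
    · have hmem : z ∈ (univ ×ˢ Icc (-ρ) ρ : Set (ℝ × ℝ)) := ⟨mem_univ _, hzb⟩
      rw [indicator_of_mem hmem, norm_mul, norm_pow, Real.norm_eq_abs, Real.norm_eq_abs]
      have b1 : |F (z.2 + X z.1, c z.1)| ≤ |C| := (hb _).trans (le_abs_self _)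
      have b2 : |z.2| ≤ |ρ| := (abs_le.2 hzb).trans (le_abs_self _)
      gcongr
    · have hzero : F (z.2 + X z.1, c z.1) = 0 := by
        apply hs
        have h3 : ρ < |z.2| := by
          by_contra h
          push Not at h
          exact hzb (abs_le.1 h)
        have h4 : |X z.1| ≤ |B| := by
          have := hB _ hz'
          rw [Real.norm_eq_abs] at this
          exact this.trans (le_abs_self _)
        have h5 : |z.2| ≤ |z.2 + X z.1| + |X z.1| := by
          have := abs_sub (z.2 + X z.1) (X z.1)
          rwa [add_sub_cancel_right] at this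
        linarith
      rw [hzero, mul_zero, norm_zero]
      apply indicator_nonneg
      intro _ _; positivity
  rw [integral_integral_swap hint]
  have h3 : ∀ᵐ x : ℝ, ∫ t in Ioc a b, x ^ d * F (x + X t, c t) = 0 := by
    filter_upwards [h0] with x hx
    rw [intervalIntegral.integral_of_le hab] at hx
    rw [integral_const_mul, hx, mul_zero]
  rw [integral_congr_ae (g := fun _ => (0 : ℝ)) h3, integral_zero]

/-- **Lifting of determining families.** -/
theorem Det.lift [BorelSpace Y] {μ : Measure Y} [SFinite μ] {S : ℝ → ℝ → (ℝ → Y) → Prop}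
    {S' : ℝ → ℝ → (ℝ → ℝ × Y) → Prop} (hS : Det μ S)
    (hSc : ∀ a b c, S a b c → a ≤ b ∧ Continuous c)
    (hl : ∀ a b c, S a b c → ∃ X : ℝ → ℝ, Continuous X ∧
      ∀ x₀ : ℝ, S' a b (fun t => (x₀ + X t, c t))) :
    Det (volume.prod μ) S' := by
  intro F K Z hF hFb hK hFK hZ hZ0 h
  obtain ⟨C, hC⟩ := hFb
  obtain ⟨R, hR⟩ := hK.exists_bound_of_continuousOn (f := Prod.fst) continuous_fst.continuousOn
  have hs : ∀ x y, R < |x| → F (x, y) = 0 := by
    intro x y hx
    apply hFK
    intro hm
    have := hR _ hm
    rw [Real.norm_eq_abs] at this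
    simp only at this
    linarith
  have hK' : IsCompact (Prod.snd '' K) := hK.image continuous_snd
  have hK'' : ∀ x y, y ∉ Prod.snd '' K → (x, y) ∉ K := by
    intro x y hy hm
    exact hy ⟨_, hm, rfl⟩
  -- the null set of the base
  set Z' : Set Y := {y | volume ((fun x : ℝ => (x, y)) ⁻¹' Z) ≠ 0} with hZ'
  have hZ'm : MeasurableSet Z' := by
    have h1 : Measurable fun y : Y => volume ((fun x : ℝ => (x, y)) ⁻¹' Z) :=
      measurable_measure_prodMk_right hZ
    exact (h1 (measurableSet_singleton 0)).compl
  have hZ'0 : μ Z' = 0 := by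
    rw [Measure.prod_apply_symm hZ, lintegral_eq_zero_iff (measurable_measure_prodMk_right hZ)]
      at hZ0
    exact hZ0
  -- all moments vanish
  have hmom : ∀ d, ∀ᵐ y ∂μ, mom F d y = 0 := by
    intro d
    induction d using Nat.strong_induction_on with
    | _ d ih =>
      refine hS (mom F d) (Prod.snd '' K) (Z' ∪ ⋃ j ∈ Finset.range d, {y | mom F j y ≠ 0})
        (mom_measurable hF d) ⟨_, mom_bound hC hs d⟩ hK' ?_ ?_ ?_ ?_
      · intro y hy
        rw [mom]
        have : ∀ x : ℝ, x ^ d * F (x, y) = 0 := by
          intro x; rw [hFK _ (hK'' x y hy), mul_zero]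
        simp [this]
      · apply hZ'm.union
        apply Finset.measurableSet_biUnion
        intro j _
        exact (mom_measurable hF j (measurableSet_singleton 0)).compl
      · rw [measure_union_null_iff]
        refine ⟨hZ'0, (measure_biUnion_null_iff (Finset.countable_toSet (Finset.range d))).2 ?_⟩
        intro j hj
        exact ih j (Finset.mem_range.1 hj)
      · intro a b c hc hca hcb hcZ
        obtain ⟨hab, hcc⟩ := hSc a b c hc
        obtain ⟨X, hX, hXS⟩ := hl a b c hc
        apply mom_step hF hC hs hab hcc hX d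
        · -- almost every lift is admissible
          have hm : MeasurableSet {z : ℝ × ℝ | (z.1 + X z.2, c z.2) ∉ Z} := by
            have : Measurable (fun z : ℝ × ℝ => (z.1 + X z.2, c z.2)) := by
              have := hX.measurable
              have := hcc.measurable
              fun_prop
            exact (this hZ).compl
          have h1 : ∀ᵐ x₀ : ℝ, ∀ᵐ t ∂(volume.restrict (Ioc a b)), (x₀ + X t, c t) ∉ Z := by
            rw [Measure.ae_ae_comm hm]
            filter_upwards [hcZ] with t ht
            have h2 : volume ((fun x : ℝ => (x, c t)) ⁻¹' Z) = 0 := by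
              by_contra h3
              exact ht (Or.inl h3)
            have h4 : ∀ᵐ x : ℝ, (x, c t) ∉ Z := by
              rw [ae_iff]
              simp only [not_not]
              exact h2
            exact (measurePreserving_add_right (volume : Measure ℝ)
              (X t)).quasiMeasurePreserving.ae h4
          filter_upwards [h1] with x₀ hx₀
          exact h a b _ (hXS x₀) (hK'' _ _ hca) (hK'' _ _ hcb) hx₀
        · filter_upwards [hcZ] with t ht j hj
          by_contra hne
          apply ht
          right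
          rw [mem_iUnion₂]
          exact ⟨j, Finset.mem_range.2 hj, hne⟩
  have hall : ∀ᵐ y ∂μ, ∀ᵐ x : ℝ, F (x, y) = 0 := by
    filter_upwards [ae_all_iff.2 hmom] with y hy
    exact ae_zero_of_moments (u := fun x => F (x, y)) (hF.comp measurable_prodMk_right)
      (fun x => hC _) (fun x hx => hs x y hx) hy
  have hmF : MeasurableSet {z : ℝ × Y | F z = 0} := hF (measurableSet_singleton 0)
  rw [← Measure.ae_ae_comm (p := fun x y => F (x, y) = 0) hmF] at hall
  exact (Measure.ae_prod_iff_ae_ae hmF).2 hall

end lift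

/-- transport of a determining family by a homeomorphism -/
theorem Det.transfer {Y Y' : Type*} [TopologicalSpace Y] [MeasurableSpace Y] [BorelSpace Y]
    [TopologicalSpace Y'] [MeasurableSpace Y'] [BorelSpace Y'] {μ : Measure Y} {μ' : Measure Y'}
    {S : ℝ → ℝ → (ℝ → Y) → Prop} {S' : ℝ → ℝ → (ℝ → Y') → Prop} (e : Y' ≃ₜ Y)
    (h1 : Measure.QuasiMeasurePreserving e μ' μ) (h2 : Measure.QuasiMeasurePreserving e.symm μ μ')
    (hS : Det μ S) (hl : ∀ a b c, S a b c → S' a b (fun t => e.symm (c t))) : Det μ' S' := by
  intro F K Z hF hFb hK hFK hZ hZ0 h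
  obtain ⟨C, hC⟩ := hFb
  have h3 : ∀ᵐ z ∂μ, F (e.symm z) = 0 := by
    refine hS (fun z => F (e.symm z)) (e '' K) (e.symm ⁻¹' Z) (hF.comp e.symm.measurable)
      ⟨C, fun z => hC _⟩ (hK.image e.continuous) ?_ (e.symm.measurable hZ) (h2.preimage_null hZ0) ?_
    · intro z hz
      apply hFK
      intro hm
      exact hz ⟨_, hm, e.apply_symm_apply z⟩
    · intro a b c hc hca hcb hcZ
      apply h a b _ (hl a b c hc)
      · intro hm; exact hca ⟨_, hm, e.apply_symm_apply _⟩
      · intro hm; exact hcb ⟨_, hm, e.apply_symm_apply _⟩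
      · exact hcZ
  have h4 := h1.ae h3
  filter_upwards [h4] with z hz
  rwa [e.symm_apply_apply] at hz

end Pool.Agent.XTower
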