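import Mathlib

/-!
# An integrable function whose Fourier transform vanishes is zero
-/

set_option autoImplicit false

namespace Pool.Agent.XTower

open MeasureTheory Set Filter Topology FourierTransform Complex SchwartzMap
open scoped ContDiff

variable {E : Type*} [NormedAddCommGroup E] [InnerProductSpace ℝ E] [FiniteDimensional ℝ E]
  [MeasurableSpace E] [BorelSpace E]

theorem ae_zero_of_fourier {ψ : E → ℂ} (hi : Integrable ψ) (h : ∀ w, 𝓕 ψ w = 0) :
    ∀ᵐ x, ψ x = 0 := by
  apply ae_eq_zero_of_integral_contDiff_smul_eq_zero hi.locallyIntegrable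
  intro g hg hgc
  have hg₁ : HasCompactSupport (Complex.ofRealCLM ∘ g) := hgc.comp_left rfl
  have hg₂ : ContDiff ℝ ∞ (Complex.ofRealCLM ∘ g) := by fun_prop
  set S : 𝓢(E, ℂ) := hg₁.toSchwartzMap hg₂ with hS
  set T : 𝓢(E, ℂ) := 𝓕⁻ S with hT
  have hTS : 𝓕 T = S := FourierTransform.fourier_fourierInv_eq S
  have h1 : ∫ ξ, (𝓕 (T : E → ℂ)) ξ • ψ ξ = ∫ x, T x • 𝓕 ψ x := by
    simpa using! (VectorFourier.integral_fourierIntegral_smul_eq_flip (L := innerₗ E)
      Real.continuous_fourierChar continuous_inner T.integrable hi)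
  simp only [h, smul_zero, integral_zero] at h1
  rw [← h1]
  congr 1
  ext x
  rw [← SchwartzMap.fourier_coe, hTS]
  change g x • ψ x = ((g x : ℝ) : ℂ) • ψ x
  rw [Complex.coe_smul]

end Pool.Agent.XTower
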