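import Pool.Agent.Lib_helper92.XRay.Uniq
import Pool.Agent.Lib_helper30.Tower.Det
import Pool.Agent.Lib_helper30.Tower.Fou

/-!
# The steep geodesics of a two-dimensional metric which depends on one coordinate only determine
the bounded Borel functions with compact support

This is a measurable version of the one dimensional argument of `Pool.Agent.Lib_helper92.XRay`.
-/

set_option autoImplicit false

namespace Pool.Agent.XTower

open Complex Set Topology MeasureTheory Filter FourierTransform Pool.Agent.XRay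
open Pool.Agent.XRay.Frame (toData b0 b0_cont csq_cont gam_cont g_pos ev_cont Bv_cont rt_real
  inner_X exists_steep)

section general

variable {V : Type*} [NormedAddCommGroup V] [NormedSpace ℝ V]
variable {E : Type*} [NormedAddCommGroup E] [InnerProductSpace ℝ E] [FiniteDimensional ℝ E]
  [MeasurableSpace E] [BorelSpace E]
variable {F : Frame V E} {G : V → Form V}

/-- the one dimensional transform vanishes if almost all the integrals along the translates of a
steep curve vanish -/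
theorem u_zero (hG : IsMetric G)
    {ω : E} (hω : ω ≠ 0) {φ : E × ℝ → ℝ}
    (hφm : Measurable φ) {C R Y₀ : ℝ} (hφb : ∀ z, |φ z| ≤ C)
    (hφs : ∀ x y, R < ‖x‖ → φ (x, y) = 0) (hφy : ∀ x y, Y₀ < |y| → φ (x, y) = 0)
    {a b : ℝ} (hab : a < b) {B₀ : ℝ} (hB₀ : ∀ y ∈ Icc (-Y₀) Y₀, ‖F.b0 G ω a y‖ ≤ B₀)
    {a' b' p : ℝ} (haa : a' ≤ a) (hbb : b ≤ b')
    (S : F.Steep G ω p a' b') (hW : Continuous S.W)
    (hX : ∀ y, S.X y = ∫ r in a..y, ((p * S.W r) • F.ev ω (G (r • F.e)) - F.Bv (G (r • F.e))))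
    (h1 : ∀ᵐ x₀ : E, ∫ y in a..b, φ (x₀ + S.X y, y) * S.W y = 0) (ξ : ℂ) :
    (toData hG hω hφm hφb hφs hφy hab hB₀).u p ξ a = 0 := by
  have hpc := S.p_lt
  have hXc : Continuous S.X := by
    rw [continuous_iff_continuousAt]; exact fun y => (S.hX y).continuousAt
  have h2 := fubini_zero hφm hφb hφs hab.le hXc hW ω ξ h1
  rw [Data.u, U, ← h2]
  change ∫ s in a..b, _ = _
  apply intervalIntegral.integral_congr
  intro s hs
  rw [uIcc_of_le hab.le] at hs
  -- the weight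
  have hrt : ∀ r ∈ Icc a b, rt (p : ℂ) (√(F.csq ω (G (r • F.e)))) =
      ((√(1 - p ^ 2 * F.csq ω (G (r • F.e))) : ℝ) : ℂ) := by
    intro r hr
    exact rt_real (hpc r ⟨haa.trans hr.1, hr.2.trans hbb⟩) (F.csq_pos (g_pos hG r) hω)
  have hWe : ∀ r ∈ Icc a b, S.W r = √(F.gam (G (r • F.e))) /
      √(1 - p ^ 2 * F.csq ω (G (r • F.e))) := by
    intro r hr
    exact S.W_eq r ⟨haa.trans hr.1, hr.2.trans hbb⟩
  have hom : (toData hG hω hφm hφb hφs hφy hab hB₀).om p s = (S.W s : ℂ) := by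
    change ((√(F.gam (G (s • F.e))) : ℝ) : ℂ) / rt (p : ℂ) (√(F.csq ω (G (s • F.e)))) = _
    rw [hrt s hs, hWe s hs]
    push_cast
    rfl
  have hph : ∫ r in a..s, I * ξ * (toData hG hω hφm hφb hφs hφy hab hB₀).ph p r =
      I * ξ * ((inner ℝ ω (S.X s) + F.b0 G ω a s : ℝ) : ℂ) := by
    rw [inner_X hG S hW hX s, ← intervalIntegral.integral_ofReal,
      ← intervalIntegral.integral_const_mul]
    apply intervalIntegral.integral_congr
    intro r hr
    rw [uIcc_of_le hs.1] at hr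
    have hr' : r ∈ Icc a b := ⟨hr.1, hr.2.trans hs.2⟩
    change I * ξ * ((p : ℂ) * ((F.csq ω (G (r • F.e)) * √(F.gam (G (r • F.e))) : ℝ) : ℂ) /
      rt (p : ℂ) (√(F.csq ω (G (r • F.e))))) = _
    simp only []
    rw [hrt r hr', hWe r hr']
    push_cast
    ring
  have hhh : (toData hG hω hφm hφb hφs hφy hab hB₀).h ξ s =
      exp (-(I * ξ * ((F.b0 G ω a s : ℝ) : ℂ))) * sl φ ω ξ s := rfl
  simp only []
  rw [hom, hph, hhh]
  have h3 : exp (I * ξ * ((inner ℝ ω (S.X s) + F.b0 G ω a s : ℝ) : ℂ)) =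
      exp (I * ξ * ((inner ℝ ω (S.X s) : ℝ) : ℂ)) * exp (I * ξ * ((F.b0 G ω a s : ℝ) : ℂ)) := by
    rw [← exp_add]
    congr 1
    push_cast
    ring
  have h4 : exp (-(I * ξ * ((F.b0 G ω a s : ℝ) : ℂ))) * exp (I * ξ * ((F.b0 G ω a s : ℝ) : ℂ)) =
      1 := by
    rw [← exp_add, neg_add_cancel, exp_zero]
  rw [h3, sl]
  linear_combination (S.W s * exp (I * ξ * ((inner ℝ ω (S.X s) : ℝ) : ℂ)) *
    ∫ x : E, (φ (x, s) : ℂ) * exp (-(I * ξ * ((inner ℝ ω x : ℝ) : ℂ)))) * h4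

/-- the Fourier transforms of almost all slices vanish at `ω` -/
theorem slice_zero (hG : IsMetric G)
    {ω : E} (hω : ω ≠ 0) {φ : E × ℝ → ℝ}
    (hφm : Measurable φ) {C R Y₀ : ℝ} (hφb : ∀ z, |φ z| ≤ C)
    (hφs : ∀ x y, R < ‖x‖ → φ (x, y) = 0) (hφy : ∀ x y, Y₀ < |y| → φ (x, y) = 0)
    {a b : ℝ} (hab : a < b) {p₀ : ℝ} (hp₀ : 0 < p₀)
    (h : ∀ p : ℝ, |p| < p₀ → ∃ (a' b' : ℝ) (S : F.Steep G ω p a' b'), a' ≤ a ∧ b ≤ b' ∧
      Continuous S.W ∧
      (∀ y, S.X y = ∫ r in a..y, ((p * S.W r) • F.ev ω (G (r • F.e)) - F.Bv (G (r • F.e)))) ∧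
      ∀ᵐ x₀ : E, ∫ y in a..b, φ (x₀ + S.X y, y) * S.W y = 0) :
    ∀ᵐ y ∂(volume.restrict (Ioc a b)), sl φ ω 1 y = 0 := by
  obtain ⟨B₀, hB₀⟩ := (isCompact_Icc (a := -Y₀) (b := Y₀)).exists_bound_of_continuousOn
    (b0_cont (F := F) hG ω a).continuousOn
  have hu := (toData hG hω hφm hφb hφs hφy hab hB₀).uniqueness hp₀ (by
    intro p hp ξ
    obtain ⟨a', b', S, haa, hbb, hW, hX, h1⟩ := h p hp
    exact u_zero hG hω hφm hφb hφs hφy hab hB₀ haa hbb S hW hX h1 ξ) one_pos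
  filter_upwards [hu] with y hy
  have hh : (toData hG hω hφm hφb hφs hφy hab hB₀).h ((1 : ℝ) : ℂ) y =
      exp (-(I * ((1 : ℝ) : ℂ) * ((F.b0 G ω a y : ℝ) : ℂ))) * sl φ ω ((1 : ℝ) : ℂ) y := rfl
  rw [hh] at hy
  rcases mul_eq_zero.1 hy with h | h
  · exact absurd h (exp_ne_zero _)
  · rwa [ofReal_one] at h

end general

/-! ### The plane -/

/-- the frame of the plane -/
noncomputable def pf : Frame (ℝ × ℝ) ℝ where
  ι := ContinuousLinearMap.inl ℝ ℝ ℝ
  e := (0, 1)
  π := ContinuousLinearMap.fst ℝ ℝ ℝ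
  ℓ := ContinuousLinearMap.snd ℝ ℝ ℝ
  πι := fun x => rfl
  ℓι := fun x => rfl
  πe := rfl
  ℓe := rfl
  eq := by
    intro v
    ext <;> simp

theorem pf_eq (x y : ℝ) : pf.ι x + y • pf.e = (x, y) := by
  ext <;> simp [pf]

/-- Arcs `[a, b]` of the unit speed geodesics `c` of the metric `h` of the plane, defined near
`[a, b]`, whose momentum in the direction of the first coordinate is at most `δ`. -/
def GeoArc (h : ℝ × ℝ → Form (ℝ × ℝ)) (δ a b : ℝ) (c : ℝ → ℝ × ℝ) : Prop :=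
  a ≤ b ∧ ContDiff ℝ 1 c ∧ ∃ u v, u < a ∧ b < v ∧ UnitGeodesicOn h c (Ioo u v) ∧
    ∀ t ∈ Ioo u v, |h (c t) (deriv c t) (1, 0)| ≤ δ

section plane

variable {h : ℝ × ℝ → Form (ℝ × ℝ)} {δ : ℝ}

/-- one steep curve -/
theorem steep_zero (hh : IsMetric h) (hinv : ∀ (x : ℝ) (z : ℝ × ℝ), h (z + pf.ι x) = h z)
    {φ : ℝ × ℝ → ℝ} {K Z : Set (ℝ × ℝ)} (hZ : MeasurableSet Z) (hZ0 : volume Z = 0)
    (H : ∀ a b c, GeoArc h δ a b c → c a ∉ K → c b ∉ K →
      (∀ᵐ t ∂(volume.restrict (Ioc a b)), c t ∉ Z) → ∫ t in a..b, φ (c t) = 0)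
    {ω p a' b' a b : ℝ} (haa : a' < a) (hab : a ≤ b) (hbb : b < b')
    (hKa : ∀ x, (x, a) ∉ K) (hKb : ∀ x, (x, b) ∉ K) (hp : |p * ω| ≤ δ)
    (S : pf.Steep h ω p a' b') (hW : Continuous S.W) {T : ℝ → ℝ} (hT : StrictMono T)
    (hTd : ∀ y, HasDerivAt T (S.W y) y) (hYT : ∀ y, S.Y (T y) = y) (hTY : ∀ t, T (S.Y t) = t) :
    ∀ᵐ x₀ : ℝ, ∫ y in a..b, φ (x₀ + S.X y, y) * S.W y = 0 := by
  have hXc : Continuous S.X := by
    rw [continuous_iff_continuousAt]; exact fun y => (S.hX y).continuousAt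
  filter_upwards [ae_graph hZ hZ0 hXc a b] with x₀ hx₀
  have hγT : ∀ y, S.γ x₀ (T y) = (x₀ + S.X y, y) := by
    intro y; rw [Frame.Steep.γ, hYT, pf_eq]
  have hYc : Continuous S.Y := by
    rw [continuous_iff_continuousAt]; exact fun y => (S.hY y).continuousAt
  have hcd : ContDiff ℝ 1 (S.γ x₀) := by
    rw [contDiff_one_iff_deriv]
    refine ⟨fun t => (S.hγ x₀ t).differentiableAt, ?_⟩
    rw [S.deriv_γ]
    have h1 : Continuous (pf.Vf (fun y => h (y • pf.e)) ω p S.W) := by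
      unfold Frame.Vf
      have e1 := ev_cont (F := pf) hh ω
      have e2 := Bv_cont (F := pf) hh
      have e3 : Continuous (fun y => (S.W y)⁻¹) := hW.inv₀ (fun y => (S.W_pos y).ne')
      exact (pf.ι.continuous.comp ((e1.const_smul p).sub (e3.smul e2))).add
        (e3.smul continuous_const)
    exact h1.comp hYc
  have hgeo : UnitGeodesicOn h (S.γ x₀) (Ioo (T a') (T b')) := by
    apply S.geodesic hh hinv
    intro t ht
    rw [← hTY t] at ht
    exact ⟨hT.lt_iff_lt.1 ht.1, hT.lt_iff_lt.1 ht.2⟩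
  have hmom : ∀ t ∈ Ioo (T a') (T b'), |h (S.γ x₀ t) (deriv (S.γ x₀) t) (1, 0)| ≤ δ := by
    intro t _
    have h1 := S.mom hh hinv x₀ t 1
    have h2 : pf.ι 1 = ((1, 0) : ℝ × ℝ) := rfl
    rw [h2] at h1
    rw [h1]
    have h3 : inner ℝ ω (1 : ℝ) = ω := by simp
    rw [h3]
    exact hp
  have himg : T '' Ioc a b = Ioc (T a) (T b) := by
    ext t
    constructor
    · rintro ⟨y, hy, rfl⟩
      exact ⟨hT hy.1, hT.monotone hy.2⟩
    · intro ht
      refine ⟨S.Y t, ?_, hTY t⟩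
      rw [← hTY t] at ht
      exact ⟨hT.lt_iff_lt.1 ht.1, hT.le_iff_le.1 ht.2⟩
  have hcZ : ∀ᵐ t ∂(volume.restrict (Ioc (T a) (T b))), S.γ x₀ t ∉ Z := by
    rw [ae_restrict_iff' measurableSet_Ioc] at hx₀ ⊢
    rw [ae_iff] at hx₀ ⊢
    have h1 : volume (T '' {y | ¬ (y ∈ Ioc a b → (x₀ + S.X y, y) ∉ Z)}) = 0 := by
      apply MeasureTheory.addHaar_image_eq_zero_of_differentiableOn_of_addHaar_eq_zero
      · exact fun y _ => (hTd y).differentiableAt.differentiableWithinAt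
      · exact hx₀
    apply measure_mono_null _ h1
    intro t ht
    simp only [mem_setOf_eq, Classical.not_imp, not_not] at ht
    refine ⟨S.Y t, ?_, hTY t⟩
    simp only [mem_setOf_eq, Classical.not_imp, not_not]
    constructor
    · obtain ⟨h2, _⟩ := ht
      rw [← hTY t] at h2
      exact ⟨hT.lt_iff_lt.1 h2.1, hT.le_iff_le.1 h2.2⟩
    · rw [← hγT, hTY]
      exact ht.2
  have hz := H (T a) (T b) (S.γ x₀) ⟨hT.monotone hab, hcd, T a', T b', hT haa, hT hbb, hgeo, hmom⟩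
    (by rw [hγT]; exact hKa _) (by rw [hγT]; exact hKb _) hcZ
  rw [intervalIntegral.integral_of_le (hT.monotone hab), ← himg,
    integral_image_eq_integral_abs_deriv_smul measurableSet_Ioc
      (fun y _ => (hTd y).hasDerivWithinAt) hT.injective.injOn] at hz
  rw [intervalIntegral.integral_of_le hab, ← hz]
  apply integral_congr_ae
  filter_upwards with y
  rw [hγT, abs_of_pos (S.W_pos y), smul_eq_mul, mul_comm]

/-- **The base.** The geodesics with small first momentum of a metric of the plane which only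
depends on the second coordinate form a determining family. -/
theorem base_det (hh : IsMetric h) (hinv : ∀ (x : ℝ) (z : ℝ × ℝ), h (z + (x, 0)) = h z)
    (hδ : 0 < δ) : Det (volume : Measure (ℝ × ℝ)) (GeoArc h δ) := by
  intro φ K Z hφm hφb hK hφK hZ hZ0 H
  have hinv' : ∀ (x : ℝ) (z : ℝ × ℝ), h (z + pf.ι x) = h z := hinv
  obtain ⟨C, hC⟩ := hφb
  obtain ⟨R, hR⟩ := hK.exists_bound_of_continuousOn (f := Prod.fst) continuous_fst.continuousOn
  obtain ⟨Y₀, hY₀⟩ := hK.exists_bound_of_continuousOn (f := Prod.snd) continuous_snd.continuousOn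
  have hφs : ∀ x y : ℝ, R < ‖x‖ → φ (x, y) = 0 := by
    intro x y hx
    apply hφK
    intro hm
    have := hR _ hm
    simp only at this
    linarith
  have hKy : ∀ x y : ℝ, Y₀ < |y| → (x, y) ∉ K := by
    intro x y hy hm
    have := hY₀ _ hm
    rw [Real.norm_eq_abs] at this
    simp only at this
    linarith
  have hφy : ∀ x y : ℝ, Y₀ < |y| → φ (x, y) = 0 := fun x y hy => hφK _ (hKy x y hy)
  set b := |Y₀| + 1 with hb
  have hb0 : 0 < b := by positivity
  have hYb : Y₀ < |b| := by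
    rw [abs_of_pos hb0]
    linarith [le_abs_self Y₀]
  have hYb' : Y₀ < |-b| := by rwa [abs_neg]
  -- almost every slice has zero Fourier transform
  have hall : ∀ᵐ y ∂(volume.restrict (Ioc (-b) b)), ∀ ω : ℝ, sl φ ω 1 y = 0 := by
    obtain ⟨s, hsc, hsd⟩ := TopologicalSpace.exists_countable_dense ℝ
    have : (𝓝[≠] (0 : ℝ)).NeBot := inferInstance
    have hsd' : Dense (s \ {0}) := hsd.sdiff_singleton 0
    have h1 : ∀ᵐ y ∂(volume.restrict (Ioc (-b) b)), ∀ ω ∈ s \ {0}, sl φ ω 1 y = 0 := by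
      rw [ae_ball_iff (hsc.mono sdiff_subset)]
      intro ω hω
      have hω0 : ω ≠ 0 := hω.2
      obtain ⟨K₁, hK₁⟩ := (isCompact_Icc (a := -b - 1) (b := b + 1)).exists_bound_of_continuousOn
        (csq_cont (F := pf) hh ω).continuousOn
      have hωn : 0 < |ω| := abs_pos.2 hω0
      have hK1 : 0 < |K₁| + 1 := by positivity
      refine slice_zero (F := pf) hh hω0 hφm hC hφs hφy (by linarith)
        (p₀ := min (δ / |ω|) (√(|K₁| + 1))⁻¹)
        (lt_min (div_pos hδ hωn) (inv_pos.2 (Real.sqrt_pos.2 hK1))) ?_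
      intro p hp
      have hpc : ∀ y ∈ Icc (-b - 1) (b + 1), p ^ 2 * pf.csq ω (h (y • pf.e)) < 1 := by
        intro y hy
        have h1 : |p| < (√(|K₁| + 1))⁻¹ := lt_of_lt_of_le hp (min_le_right _ _)
        have h2 : p ^ 2 < (|K₁| + 1)⁻¹ := by
          have h3 : |p| ^ 2 < ((√(|K₁| + 1))⁻¹) ^ 2 :=
            pow_lt_pow_left₀ h1 (abs_nonneg _) two_ne_zero
          rwa [sq_abs, inv_pow, Real.sq_sqrt hK1.le] at h3
        have h4 : pf.csq ω (h (y • pf.e)) ≤ |K₁| := by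
          have := hK₁ y hy
          rw [Real.norm_eq_abs] at this
          exact (le_abs_self _).trans (this.trans (le_abs_self _))
        have h5 : p ^ 2 * (|K₁| + 1) < 1 := (lt_div_iff₀ hK1).1 (by rwa [one_div])
        have h6 := sq_nonneg p
        nlinarith
      have hpω : |p * ω| ≤ δ := by
        rw [abs_mul]
        have := hp.le.trans (min_le_left _ _)
        rwa [le_div_iff₀ hωn] at this
      obtain ⟨S, T, hW, hX, hT, hTd, hYT, hTY⟩ := exists_steep (F := pf) hh ω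
        (by linarith : -b - 1 ≤ b + 1) hpc (-b)
      exact ⟨-b - 1, b + 1, S, by linarith, by linarith, hW, hX,
        steep_zero hh hinv' hZ hZ0 H (by linarith) (by linarith) (by linarith)
          (fun x => hKy x _ hYb') (fun x => hKy x _ hYb) hpω S hW hT hTd hYT hTY⟩
    filter_upwards [h1] with y hy
    have h2 := Continuous.ext_on hsd' (sl_continuous hφm hC hφs y) continuous_const hy
    exact fun ω => congrFun h2 ω
  have hae : ∀ᵐ y : ℝ, ∀ᵐ x : ℝ, φ (x, y) = 0 := by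
    rw [ae_restrict_iff' measurableSet_Ioc] at hall
    filter_upwards [hall] with y hy
    by_cases hyI : y ∈ Ioc (-b) b
    · have hi : Integrable (fun x : ℝ => (φ (x, y) : ℂ)) :=
        (sl_integrable (E := ℝ) hφm hC hφs y).ofReal
      have h1 := ae_zero_of_fourier hi (by
        intro w
        rw [Real.fourier_eq', ← hy hyI ((2 * Real.pi) • w), sl]
        apply integral_congr_ae
        filter_upwards with x
        rw [smul_eq_mul, mul_comm, inner_smul_left, real_inner_comm]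
        congr 2
        simp
        ring)
      filter_upwards [h1] with x hx
      exact_mod_cast hx
    · have h1 : Y₀ < |y| := by
        by_contra hcon
        push Not at hcon
        have h2 := abs_le.1 hcon
        apply hyI
        have := le_abs_self Y₀
        exact ⟨by linarith [h2.1], by linarith [h2.2]⟩
      filter_upwards with x
      exact hφy x y h1
  have hmF : MeasurableSet {z : ℝ × ℝ | φ z = 0} := hφm (measurableSet_singleton 0)
  rw [← Measure.ae_ae_comm (p := fun x y => φ (x, y) = 0) hmF] at hae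
  exact (Measure.ae_prod_iff_ae_ae hmF).2 hae

end plane

end Pool.Agent.XTower
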