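import Pool.Agent.Lib_helper92.XRay.GeoDefs

/-!
# Metrics on `ℝ^N`, `N = n + 2`, whose last two coordinates have triangular gradients
-/

set_option autoImplicit false

namespace Pool.Agent.XTower

open Pool.Agent.XRay

/-- `ℝ^(n+2)`. -/
abbrev V (n : ℕ) : Type := EuclideanSpace ℝ (Fin (n + 2))

/-- Fields of bilinear forms on `ℝ^(n+2)`. -/
abbrev Forms (n : ℕ) : Type := V n → V n →L[ℝ] V n →L[ℝ] ℝ

/-- The index of the last but one coordinate. -/
abbrev i₁ (n : ℕ) : Fin (n + 2) := (Fin.last n).castSucc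

/-- The index of the last coordinate. -/
abbrev i₂ (n : ℕ) : Fin (n + 2) := Fin.last (n + 1)

/-- `A` and `B` are the gradients of the last two coordinates `z (i₁ n)`, `z (i₂ n)` for the metric
`G` (the last two rows of the inverse matrix of `G`), and they are triangular: their coordinates
with index `i` only depend on the coordinates `z k` with `k > min i (i₁ n)`. So the coordinate of
index `i ≤ i₁ n` only depends on the following coordinates, the last one only on `z (i₂ n)`. -/
structure TriGrad {n : ℕ} (G : Forms n) (A B : V n → V n) : Prop where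
  gradA : ∀ z w, G z (A z) w = w (i₁ n)
  gradB : ∀ z w, G z (B z) w = w (i₂ n)
  tri : ∀ (i : Fin (n + 2)) (z z' : V n), (∀ k, min i (i₁ n) < k → z k = z' k) →
    A z i = A z' i ∧ B z i = B z' i

/-- For every coordinate `k` except the last one and every real `r` there is an isometry `Ψ` of the
metric `G` with `Ψ(z)_k = z_k + r` and `Ψ(z)_i = z_i` for `i > k` (there is no condition on the
coordinates `Ψ(z)_i` with `i < k`). -/
def TriIso {n : ℕ} (G : Forms n) : Prop :=
  ∀ (k : Fin (n + 2)) (r : ℝ), k < i₂ n → ∃ Ψ : V n → V n, Differentiable ℝ Ψ ∧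
    (∀ z v w, G (Ψ z) (fderiv ℝ Ψ z v) (fderiv ℝ Ψ z w) = G z v w) ∧
    (∀ z, Ψ z k = z k + r) ∧ ∀ z i, k < i → Ψ z i = z i

/-- `∫_s^t f(γ(τ)) dτ = 0` for every unit speed geodesic `γ : (u, v) → ℝ^N` of the metric `G` whose
momentum `G(γ', ·)` vanishes on the vectors with last two coordinates zero and is at most `δ` in
absolute value on the last but one basis vector, and for every maximal segment `[s, t] ⊆ (u, v)`
of `γ` in `M`. -/
def HorZero {n : ℕ} (G : Forms n) (M : Set (V n)) (f : V n → ℝ) (δ : ℝ) : Prop :=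
  ∀ (γ : ℝ → V n) (u v s t : ℝ), u < s → s < t → t < v → UnitGeodesicOn G γ (Set.Ioo u v) →
    (∀ τ ∈ Set.Ioo u v, (∀ x : V n, x (i₁ n) = 0 → x (i₂ n) = 0 → G (γ τ) (deriv γ τ) x = 0) ∧
      |G (γ τ) (deriv γ τ) (EuclideanSpace.single (i₁ n) 1)| ≤ δ) →
    MaximalSegment M γ s t → ∫ τ in s..t, f (γ τ) = 0

end Pool.Agent.XTower
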