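import Pool.Agent.Lib_helper30.Tower.Lift

/-!
# Determining families of arcs, relative to an open set, and their lifts

`DetOn μ Ω S`: a bounded Borel function with compact support contained in `Ω` is determined up to
`μ`-null sets by its integrals along the arcs of the family `S`. The theorems are those of
`Tower/Det.lean` and `Tower/Lift.lean`, with the set `Ω`.
-/

set_option autoImplicit false

namespace Pool.Agent.XTower

open MeasureTheory Set Filter Topology

/-- The family `S` of arcs determines the bounded Borel functions with compact support in `Ω`. (The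
arcs which meet a given null set in a set of times of positive measure are not needed.) -/
def DetOn {Y : Type*} [TopologicalSpace Y] [MeasurableSpace Y] (μ : Measure Y) (Ω : Set Y)
    (S : ℝ → ℝ → (ℝ → Y) → Prop) : Prop :=
  ∀ (F : Y → ℝ) (K Z : Set Y), Measurable F → (∃ C, ∀ z, |F z| ≤ C) → IsCompact K → K ⊆ Ω →
    (∀ z ∉ K, F z = 0) → MeasurableSet Z → μ Z = 0 →
    (∀ a b c, S a b c → c a ∉ K → c b ∉ K → (∀ᵐ t ∂(volume.restrict (Ioc a b)), c t ∉ Z) →
      ∫ t in a..b, F (c t) = 0) → ∀ᵐ z ∂μ, F z = 0

section lift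

variable {Y : Type*} [TopologicalSpace Y] [MeasurableSpace Y]

/-- **Lifting of determining families.** -/
theorem DetOn.lift [BorelSpace Y] {μ : Measure Y} [SFinite μ] {Ω : Set Y}
    {S : ℝ → ℝ → (ℝ → Y) → Prop} {S' : ℝ → ℝ → (ℝ → ℝ × Y) → Prop} (hS : DetOn μ Ω S)
    (hSc : ∀ a b c, S a b c → a ≤ b ∧ Continuous c)
    (hl : ∀ a b c, S a b c → ∃ X : ℝ → ℝ, Continuous X ∧
      ∀ x₀ : ℝ, S' a b (fun t => (x₀ + X t, c t))) :
    DetOn (volume.prod μ) {z | z.2 ∈ Ω} S' := by
  intro F K Z hF hFb hK hKΩ hFK hZ hZ0 h
  obtain ⟨C, hC⟩ := hFb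
  obtain ⟨R, hR⟩ := hK.exists_bound_of_continuousOn (f := Prod.fst) continuous_fst.continuousOn
  have hs : ∀ x y, R < |x| → F (x, y) = 0 := by
    intro x y hx
    apply hFK
    intro hm
    have := hR _ hm
    rw [Real.norm_eq_abs] at this
    simp only at this
    linarith
  have hK' : IsCompact (Prod.snd '' K) := hK.image continuous_snd
  have hK'Ω : Prod.snd '' K ⊆ Ω := by
    rintro _ ⟨z, hz, rfl⟩
    exact hKΩ hz
  have hK'' : ∀ x y, y ∉ Prod.snd '' K → (x, y) ∉ K := by
    intro x y hy hm
    exact hy ⟨_, hm, rfl⟩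
  -- the null set of the base
  set Z' : Set Y := {y | volume ((fun x : ℝ => (x, y)) ⁻¹' Z) ≠ 0} with hZ'
  have hZ'm : MeasurableSet Z' := by
    have h1 : Measurable fun y : Y => volume ((fun x : ℝ => (x, y)) ⁻¹' Z) :=
      measurable_measure_prodMk_right hZ
    exact (h1 (measurableSet_singleton 0)).compl
  have hZ'0 : μ Z' = 0 := by
    rw [Measure.prod_apply_symm hZ, lintegral_eq_zero_iff (measurable_measure_prodMk_right hZ)]
      at hZ0
    exact hZ0
  -- all moments vanish
  have hmom : ∀ d, ∀ᵐ y ∂μ, mom F d y = 0 := by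
    intro d
    induction d using Nat.strong_induction_on with
    | _ d ih =>
      refine hS (mom F d) (Prod.snd '' K) (Z' ∪ ⋃ j ∈ Finset.range d, {y | mom F j y ≠ 0})
        (mom_measurable hF d) ⟨_, mom_bound hC hs d⟩ hK' hK'Ω ?_ ?_ ?_ ?_
      · intro y hy
        rw [mom]
        have : ∀ x : ℝ, x ^ d * F (x, y) = 0 := by
          intro x; rw [hFK _ (hK'' x y hy), mul_zero]
        simp [this]
      · apply hZ'm.union
        apply Finset.measurableSet_biUnion
        intro j _
        exact (mom_measurable hF j (measurableSet_singleton 0)).compl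
      · rw [measure_union_null_iff]
        refine ⟨hZ'0, (measure_biUnion_null_iff (Finset.countable_toSet (Finset.range d))).2 ?_⟩
        intro j hj
        exact ih j (Finset.mem_range.1 hj)
      · intro a b c hc hca hcb hcZ
        obtain ⟨hab, hcc⟩ := hSc a b c hc
        obtain ⟨X, hX, hXS⟩ := hl a b c hc
        apply mom_step hF hC hs hab hcc hX d
        · -- almost every lift is admissible
          have hm : MeasurableSet {z : ℝ × ℝ | (z.1 + X z.2, c z.2) ∉ Z} := by
            have : Measurable (fun z : ℝ × ℝ => (z.1 + X z.2, c z.2)) := by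
              have := hX.measurable
              have := hcc.measurable
              fun_prop
            exact (this hZ).compl
          have h1 : ∀ᵐ x₀ : ℝ, ∀ᵐ t ∂(volume.restrict (Ioc a b)), (x₀ + X t, c t) ∉ Z := by
            rw [Measure.ae_ae_comm hm]
            filter_upwards [hcZ] with t ht
            have h2 : volume ((fun x : ℝ => (x, c t)) ⁻¹' Z) = 0 := by
              by_contra h3
              exact ht (Or.inl h3)
            have h4 : ∀ᵐ x : ℝ, (x, c t) ∉ Z := by
              rw [ae_iff]
              simp only [not_not]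
              exact h2
            exact (measurePreserving_add_right (volume : Measure ℝ)
              (X t)).quasiMeasurePreserving.ae h4
          filter_upwards [h1] with x₀ hx₀
          exact h a b _ (hXS x₀) (hK'' _ _ hca) (hK'' _ _ hcb) hx₀
        · filter_upwards [hcZ] with t ht j hj
          by_contra hne
          apply ht
          right
          rw [mem_iUnion₂]
          exact ⟨j, Finset.mem_range.2 hj, hne⟩
  have hall : ∀ᵐ y ∂μ, ∀ᵐ x : ℝ, F (x, y) = 0 := by
    filter_upwards [ae_all_iff.2 hmom] with y hy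
    exact ae_zero_of_moments (u := fun x => F (x, y)) (hF.comp measurable_prodMk_right)
      (fun x => hC _) (fun x hx => hs x y hx) hy
  have hmF : MeasurableSet {z : ℝ × Y | F z = 0} := hF (measurableSet_singleton 0)
  rw [← Measure.ae_ae_comm (p := fun x y => F (x, y) = 0) hmF] at hall
  exact (Measure.ae_prod_iff_ae_ae hmF).2 hall

end lift

/-- transport of a determining family by a homeomorphism -/
theorem DetOn.transfer {Y Y' : Type*} [TopologicalSpace Y] [MeasurableSpace Y] [BorelSpace Y]
    [TopologicalSpace Y'] [MeasurableSpace Y'] [BorelSpace Y'] {μ : Measure Y} {μ' : Measure Y'}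
    {Ω : Set Y} {Ω' : Set Y'} {S : ℝ → ℝ → (ℝ → Y) → Prop} {S' : ℝ → ℝ → (ℝ → Y') → Prop}
    (e : Y' ≃ₜ Y) (hΩ : ∀ z ∈ Ω', e z ∈ Ω)
    (h1 : Measure.QuasiMeasurePreserving e μ' μ) (h2 : Measure.QuasiMeasurePreserving e.symm μ μ')
    (hS : DetOn μ Ω S) (hl : ∀ a b c, S a b c → S' a b (fun t => e.symm (c t))) :
    DetOn μ' Ω' S' := by
  intro F K Z hF hFb hK hKΩ hFK hZ hZ0 h
  obtain ⟨C, hC⟩ := hFb
  have h3 : ∀ᵐ z ∂μ, F (e.symm z) = 0 := by
    refine hS (fun z => F (e.symm z)) (e '' K) (e.symm ⁻¹' Z) (hF.comp e.symm.measurable)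
      ⟨C, fun z => hC _⟩ (hK.image e.continuous) ?_ ?_ (e.symm.measurable hZ) (h2.preimage_null hZ0) ?_
    · rintro _ ⟨z, hz, rfl⟩
      exact hΩ z (hKΩ hz)
    · intro z hz
      apply hFK
      intro hm
      exact hz ⟨_, hm, e.apply_symm_apply z⟩
    · intro a b c hc hca hcb hcZ
      apply h a b _ (hl a b c hc)
      · intro hm; exact hca ⟨_, hm, e.apply_symm_apply _⟩
      · intro hm; exact hcb ⟨_, hm, e.apply_symm_apply _⟩
      · exact hcZ
  have h4 := h1.ae h3
  filter_upwards [h4] with z hz
  rwa [e.symm_apply_apply] at hz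

section

variable {Y : Type*} [NormedAddCommGroup Y] [NormedSpace ℝ Y]
variable [MeasurableSpace Y] [BorelSpace Y] [SecondCountableTopology Y]

/-- **Iterated lifts of a determining family.** -/
theorem lift_detOn {μ : Measure Y} [SFinite μ] {Ω : Set Y} {S : ℝ → ℝ → (ℝ → Y) → Prop}
    (hS : DetOn μ Ω S)
    (hSc : ∀ a b c, S a b c → a ≤ b ∧ ContDiff ℝ 1 c) (n : ℕ) :
    ∀ (L : (Fin n → ℝ) × Y → Y → Fin n → ℝ),
    (∀ i, Continuous (fun q : ((Fin n → ℝ) × Y) × Y => L q.1 q.2 i)) →
    (∀ i z z' u, z.2 = z'.2 → (∀ k, i < k → z.1 k = z'.1 k) → L z u i = L z' u i) →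
    DetOn (volume.prod μ) {z | z.2 ∈ Ω} (LiftArc L S) := by
  induction n with
  | zero =>
    intro L _ _
    apply DetOn.transfer (zeroHomeo Y) (fun z hz => hz) (Measure.quasiMeasurePreserving_snd)
      (zeroHomeo_qmp μ) hS
    intro a b c hc
    exact ⟨hc, fun i => i.elim0⟩
  | succ n ih =>
    intro L hLc hLt
    set L' : (Fin n → ℝ) × Y → Y → Fin n → ℝ :=
      fun z u i => L (Fin.cons 0 z.1, z.2) u i.succ with hL'
    have hcons : Continuous (fun z : (Fin n → ℝ) × Y =>
        ((Fin.cons 0 z.1 : Fin (n + 1) → ℝ), z.2)) := by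
      refine Continuous.prodMk ?_ (by fun_prop)
      apply continuous_pi
      intro i
      refine Fin.cases ?_ (fun j => ?_) i
      · simp only [Fin.cons_zero]; fun_prop
      · simp only [Fin.cons_succ]; fun_prop
    have ih' := ih L' (by
      intro i
      have h1 : Continuous (fun q : ((Fin n → ℝ) × Y) × Y =>
          ((((Fin.cons 0 q.1.1 : Fin (n + 1) → ℝ), q.1.2), q.2) :
            ((Fin (n + 1) → ℝ) × Y) × Y)) :=
        (hcons.comp continuous_fst).prodMk continuous_snd
      exact (hLc i.succ).comp h1) (by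
      intro i z z' u h2 h1
      apply hLt i.succ
      · exact h2
      · intro k hk
        refine Fin.cases ?_ (fun j => ?_) k hk
        · intro h0
          exact absurd h0 (Fin.not_lt_zero _)
        · intro hj
          simp only [Fin.cons_succ]
          exact h1 j (Fin.succ_lt_succ_iff.1 hj))
    have hmp := consHomeo_mp (Y := Y) n μ
    have hmp' : MeasurePreserving (consHomeo n Y).symm (volume.prod (volume.prod μ))
        (volume.prod μ) :=
      MeasurePreserving.symm (consHomeo n Y).toMeasurableEquiv hmp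
    apply DetOn.transfer (consHomeo n Y) (Ω := {z | z.2 ∈ {z : (Fin n → ℝ) × Y | z.2 ∈ Ω}})
      (fun z hz => hz) hmp.quasiMeasurePreserving hmp'.quasiMeasurePreserving
      (S := fun a b d => LiftArc L S a b (fun t => (consHomeo n Y).symm (d t))) _
      (fun a b c hc => hc)
    have hcont : ∀ a b c, LiftArc L' S a b c → Continuous c := by
      intro a b c hc
      refine Continuous.prodMk (f := fun t => (c t).1) (g := fun t => (c t).2) ?_ ?_
      · apply continuous_pi
        intro i
        rw [continuous_iff_continuousAt]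
        exact fun t => (hc.2 i t).continuousAt
      · exact (hSc a b _ hc.1).2.continuous
    apply DetOn.lift ih'
    · intro a b c hc
      exact ⟨(hSc a b _ hc.1).1, hcont a b c hc⟩
    · intro a b c hc
      have hc2 : ContDiff ℝ 1 (fun t => (c t).2) := (hSc a b _ hc.1).2
      set f : ℝ → ℝ := fun s => L (Fin.cons 0 (c s).1, (c s).2) (deriv (fun t => (c t).2) s) 0
        with hf
      have hfc : Continuous f := by
        have h1 : Continuous (deriv (fun t => (c t).2)) := hc2.continuous_deriv le_rfl
        have h2 : Continuous (fun s => (((Fin.cons 0 (c s).1 : Fin (n + 1) → ℝ), (c s).2),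
            deriv (fun t => (c t).2) s)) :=
          (hcons.comp (hcont a b c hc)).prodMk h1
        exact (hLc 0).comp h2
      have hX : ∀ t, HasDerivAt (fun t => ∫ s in (0 : ℝ)..t, f s) (f t) t := fun t =>
        (hfc.integral_hasStrictDerivAt 0 t).hasDerivAt
      refine ⟨fun t => ∫ s in (0 : ℝ)..t, f s, ?_, ?_⟩
      · rw [continuous_iff_continuousAt]
        exact fun t => (hX t).continuousAt
      · intro x₀
        refine ⟨hc.1, ?_⟩
        intro i t
        refine Fin.cases ?_ (fun j => ?_) i
        · have h1 := (hX t).const_add x₀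
          have h2 : L ((consHomeo n Y).symm (x₀ + ∫ s in (0 : ℝ)..t, f s, c t))
              (deriv (fun t => (c t).2) t) 0 = f t := by
            rw [hf]
            apply hLt 0
            · rfl
            · intro k hk
              obtain ⟨j, rfl⟩ := Fin.exists_succ_eq.2 (Fin.pos_iff_ne_zero.1 hk)
              rfl
          have h3 : (fun t => ((consHomeo n Y).symm (x₀ + ∫ s in (0 : ℝ)..t, f s, c t)).1 0) =
              fun t => x₀ + ∫ s in (0 : ℝ)..t, f s := rfl
          change HasDerivAt (fun t => ((consHomeo n Y).symm (x₀ + ∫ s in (0 : ℝ)..t, f s,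
            c t)).1 0) (L ((consHomeo n Y).symm (x₀ + ∫ s in (0 : ℝ)..t, f s, c t))
              (deriv (fun t => (c t).2) t) 0) t
          rw [h2, h3]
          exact h1
        · have h1 := hc.2 j t
          have h2 : L ((consHomeo n Y).symm (x₀ + ∫ s in (0 : ℝ)..t, f s, c t))
              (deriv (fun t => (c t).2) t) j.succ =
              L' (c t) (deriv (fun t => (c t).2) t) j := by
            rw [hL']
            apply hLt j.succ
            · rfl
            · intro k hk
              obtain ⟨l, rfl⟩ := Fin.exists_succ_eq.2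
                (Fin.pos_iff_ne_zero.1 (lt_of_le_of_lt (Fin.zero_le _) hk))
              rfl
          have h3 : (fun t => ((consHomeo n Y).symm (x₀ + ∫ s in (0 : ℝ)..t, f s,
              c t)).1 j.succ) = fun t => (c t).1 j := rfl
          change HasDerivAt (fun t => ((consHomeo n Y).symm (x₀ + ∫ s in (0 : ℝ)..t, f s,
            c t)).1 j.succ) (L ((consHomeo n Y).symm (x₀ + ∫ s in (0 : ℝ)..t, f s, c t))
              (deriv (fun t => (c t).2) t) j.succ) t
          rw [h2, h3]
          exact h1

end

end Pool.Agent.XTower
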