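import Pool.Agent.Lib_helper92.XRay.Curve
import Mathlib

/-!
# Horizontal lifts of geodesics are geodesics

`π : V → Y` is a Riemannian submersion of `(V, G)` onto `(Y, h)`, and `S z u` is the horizontal
lift of `u` at `z`.
-/

set_option autoImplicit false

namespace Pool.Agent.XTower

open Set Topology Filter Pool.Agent.XRay

section

variable {V Y : Type*} [NormedAddCommGroup V] [NormedSpace ℝ V] [NormedAddCommGroup Y]
  [NormedSpace ℝ Y]

/-- the derivatives of the two metrics agree on horizontal vectors -/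
theorem fderiv_eq {G : V → Form V} {h : Y → Form Y} (hG : IsMetric G) (hh : IsMetric h)
    {π : V →L[ℝ] Y} {S : V → Y → V} (hS1 : ∀ z u, π (S z u) = u)
    (hS2 : ∀ z u w, G z (S z u) w = h (π z) u (π w)) (z w : V) (u : Y) :
    fderiv ℝ G z w (S z u) (S z u) = fderiv ℝ h (π z) (π w) u u := by
  set v := S z u with hv
  set f : ℝ → ℝ := fun ε => G (z + ε • w) v v - h (π (z + ε • w)) u u with hf
  have hf0 : f 0 = 0 := by
    rw [hf]
    simp only [zero_smul, add_zero]
    rw [hv, hS2, hS1, sub_self]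
  have hfn : ∀ ε, 0 ≤ f ε := by
    intro ε
    set z' := z + ε • w with hz'
    have h1 : G z' (S z' u) v = h (π z') u u := by rw [hS2, hv, hS1]
    have h2 : G z' (S z' u) (S z' u) = h (π z') u u := by rw [hS2, hS1]
    have h3 : 0 ≤ G z' (v - S z' u) (v - S z' u) := by
      by_cases h0 : v - S z' u = 0
      · rw [h0, map_zero]
      · exact (hG.pos z' _ h0).le
    have h4 : G z' (v - S z' u) (v - S z' u) = G z' v v - 2 * G z' (S z' u) v +
        G z' (S z' u) (S z' u) := by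
      have e1 : ∀ x, G z' (v - S z' u) x = G z' v x - G z' (S z' u) x := by
        intro x; rw [map_sub]; rfl
      rw [e1, map_sub, map_sub, hG.symm z' v (S z' u)]
      ring
    rw [h4, h1, h2] at h3
    change 0 ≤ G z' v v - h (π z') u u
    linarith
  have hline : HasDerivAt (fun ε : ℝ => z + ε • w) w 0 := by
    have := ((hasDerivAt_id (0 : ℝ)).smul_const w).const_add z
    simpa using this
  have hz0 : z + (0 : ℝ) • w = z := by rw [zero_smul, add_zero]
  have hG' : HasDerivAt (fun ε : ℝ => G (z + ε • w)) (fderiv ℝ G z w) 0 := by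
    have h1 : HasFDerivAt G (fderiv ℝ G z) (z + (0 : ℝ) • w) := by
      rw [hz0]; exact (hG.diff z).hasFDerivAt
    exact HasFDerivAt.comp_hasDerivAt (𝕜 := ℝ) (F := V) (E := Form V) (0 : ℝ) h1 hline
  have hh' : HasDerivAt (fun ε : ℝ => h (π (z + ε • w))) (fderiv ℝ h (π z) (π w)) 0 := by
    have h1 : HasFDerivAt h (fderiv ℝ h (π z)) (π (z + (0 : ℝ) • w)) := by
      rw [hz0]; exact (hh.diff _).hasFDerivAt
    have h2 : HasDerivAt (fun ε : ℝ => π (z + ε • w)) (π w) 0 :=
      π.hasFDerivAt.comp_hasDerivAt (0 : ℝ) hline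
    exact HasFDerivAt.comp_hasDerivAt (𝕜 := ℝ) (F := Y) (E := Form Y) (0 : ℝ) h1 h2
  have hd : HasDerivAt f (fderiv ℝ G z w v v - fderiv ℝ h (π z) (π w) u u) 0 := by
    have h1 := hasDerivAt_form hG' (hasDerivAt_const (0 : ℝ) v) (hasDerivAt_const (0 : ℝ) v)
    have h2 := hasDerivAt_form hh' (hasDerivAt_const (0 : ℝ) u) (hasDerivAt_const (0 : ℝ) u)
    simp only [map_zero, add_zero, zero_apply] at h1 h2
    exact h1.sub h2
  have hmin : IsLocalMin f 0 := by
    apply Filter.Eventually.of_forall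
    intro ε
    change f 0 ≤ f ε
    rw [hf0]
    exact hfn ε
  have h0 := hmin.hasDerivAt_eq_zero hd
  linarith

/-- **Horizontal lifts of unit speed geodesics are unit speed geodesics.** -/
theorem lift_geodesic {G : V → Form V} {h : Y → Form Y} (hG : IsMetric G) (hh : IsMetric h)
    {π : V →L[ℝ] Y} {S : V → Y → V} (hS1 : ∀ z u, π (S z u) = u)
    (hS2 : ∀ z u w, G z (S z u) w = h (π z) u (π w)) {γ : ℝ → V} {c : ℝ → Y} {J : Set ℝ}
    (hγ : ∀ t, HasDerivAt γ (S (γ t) (deriv c t)) t) (hπ : ∀ t, π (γ t) = c t)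
    (hc : UnitGeodesicOn h c J) :
    UnitGeodesicOn G γ J ∧ ∀ t w, G (γ t) (deriv γ t) w = h (c t) (deriv c t) (π w) := by
  have hd : ∀ t, deriv γ t = S (γ t) (deriv c t) := fun t => (hγ t).deriv
  have hmom : ∀ t w, G (γ t) (deriv γ t) w = h (c t) (deriv c t) (π w) := by
    intro t w
    rw [hd, hS2, hπ]
  refine ⟨⟨fun t _ => (hγ t).differentiableAt, ?_, ?_⟩, hmom⟩
  · intro t ht w
    have h1 : (fun s => G (γ s) (deriv γ s) w) = fun s => h (c s) (deriv c s) (π w) := by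
      funext s; exact hmom s w
    rw [h1, hd, fderiv_eq hG hh hS1 hS2, hπ]
    exact hc.euler t ht (π w)
  · intro t ht
    rw [hmom, hd, hS1]
    exact hc.unit t ht

end

/-! ### The quotient metric of the plane -/

section formdiff

variable {V W : Type*} [NormedAddCommGroup V] [NormedSpace ℝ V] [NormedAddCommGroup W]
  [NormedSpace ℝ W]

theorem smul_form_diff (o : Form V) {f : W → ℝ} (hf : Differentiable ℝ f) :
    Differentiable ℝ (fun y => f y • o) :=
  Differentiable.comp (𝕜 := ℝ) (E := W) (F := ℝ) (G := Form V)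
    (g := fun r : ℝ => (ContinuousLinearMap.toSpanSingleton ℝ o : ℝ →L[ℝ] Form V) r)
    (ContinuousLinearMap.differentiable (𝕜 := ℝ) (E := ℝ) (F := Form V)
      (ContinuousLinearMap.toSpanSingleton ℝ o)) hf

theorem add_form_diff {f g : W → Form V} (hf : Differentiable ℝ f) (hg : Differentiable ℝ g) :
    Differentiable ℝ (fun y => f y + g y) :=
  Differentiable.add (𝕜 := ℝ) (E := W) (F := Form V) hf hg

end formdiff

section plane

variable {P Q R : ℝ → ℝ}

/-- `u₁ w₁` -/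
noncomputable def o11 : Form (ℝ × ℝ) :=
  (ContinuousLinearMap.fst ℝ ℝ ℝ).smulRight (ContinuousLinearMap.fst ℝ ℝ ℝ)

/-- `u₁ w₂ + u₂ w₁` -/
noncomputable def o12 : Form (ℝ × ℝ) :=
  (ContinuousLinearMap.fst ℝ ℝ ℝ).smulRight (ContinuousLinearMap.snd ℝ ℝ ℝ) +
    (ContinuousLinearMap.snd ℝ ℝ ℝ).smulRight (ContinuousLinearMap.fst ℝ ℝ ℝ)

/-- `u₂ w₂` -/
noncomputable def o22 : Form (ℝ × ℝ) :=
  (ContinuousLinearMap.snd ℝ ℝ ℝ).smulRight (ContinuousLinearMap.snd ℝ ℝ ℝ)

/-- The metric with inverse matrix `P, Q, Q, R` (functions of the second coordinate). -/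
noncomputable def quo (P Q R : ℝ → ℝ) (y : ℝ × ℝ) : Form (ℝ × ℝ) :=
  (R y.2 * (P y.2 * R y.2 - Q y.2 ^ 2)⁻¹) • o11 +
    (-Q y.2 * (P y.2 * R y.2 - Q y.2 ^ 2)⁻¹) • o12 +
    (P y.2 * (P y.2 * R y.2 - Q y.2 ^ 2)⁻¹) • o22

theorem quo_apply (y u w : ℝ × ℝ) : quo P Q R y u w = (P y.2 * R y.2 - Q y.2 ^ 2)⁻¹ *
    (R y.2 * (u.1 * w.1) - Q y.2 * (u.1 * w.2 + u.2 * w.1) + P y.2 * (u.2 * w.2)) := by
  simp [quo, o11, o12, o22]
  ring

theorem quo_metric (hP : Differentiable ℝ P) (hQ : Differentiable ℝ Q) (hR : Differentiable ℝ R)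
    (hR0 : ∀ t, 0 < R t) (hD : ∀ t, 0 < P t * R t - Q t ^ 2) :
    IsMetric (quo P Q R) := by
  refine ⟨?_, ?_, ?_⟩
  · unfold quo
    have h1 : Differentiable ℝ (fun y : ℝ × ℝ => P y.2) := hP.comp differentiable_snd
    have h2 : Differentiable ℝ (fun y : ℝ × ℝ => Q y.2) := hQ.comp differentiable_snd
    have h3 : Differentiable ℝ (fun y : ℝ × ℝ => R y.2) := hR.comp differentiable_snd
    have h4 : Differentiable ℝ (fun y : ℝ × ℝ => P y.2 * R y.2 - Q y.2 ^ 2) :=
      (h1.mul h3).sub (h2.pow 2)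
    have h5 : ∀ y : ℝ × ℝ, P y.2 * R y.2 - Q y.2 ^ 2 ≠ 0 := fun y => (hD y.2).ne'
    have h6 : Differentiable ℝ (fun y : ℝ × ℝ => (P y.2 * R y.2 - Q y.2 ^ 2)⁻¹) := h4.inv h5
    exact add_form_diff (add_form_diff (smul_form_diff o11 (h3.mul h6))
      (smul_form_diff o12 (h2.neg.mul h6))) (smul_form_diff o22 (h1.mul h6))
  · intro y u w
    rw [quo_apply, quo_apply]
    ring
  · intro y u hu
    rw [quo_apply]
    apply mul_pos (inv_pos.2 (hD _))
    have h1 : R y.2 * (R y.2 * (u.1 * u.1) - Q y.2 * (u.1 * u.2 + u.2 * u.1) +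
        P y.2 * (u.2 * u.2)) = (R y.2 * u.1 - Q y.2 * u.2) ^ 2 +
        (P y.2 * R y.2 - Q y.2 ^ 2) * u.2 ^ 2 := by ring
    have h2 : 0 < (R y.2 * u.1 - Q y.2 * u.2) ^ 2 +
        (P y.2 * R y.2 - Q y.2 ^ 2) * u.2 ^ 2 := by
      by_cases h0 : u.2 = 0
      · have h3 : u.1 ≠ 0 := by
          intro h3
          exact hu (Prod.ext h3 h0)
        rw [h0]
        have := hR0 y.2
        have h4 : 0 < (R y.2 * u.1) ^ 2 := by positivity
        simpa using h4
      · have h3 : 0 < u.2 ^ 2 := by positivity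
        have := mul_pos (hD y.2) h3
        positivity
    rw [← h1] at h2
    exact (pos_iff_pos_of_mul_pos h2).1 (hR0 _)

end plane

/-! ### Gradients -/

section grad

variable {V : Type*} [NormedAddCommGroup V] [NormedSpace ℝ V] [FiniteDimensional ℝ V]

theorem exists_cle {g : Form V} (hg : ∀ v, v ≠ 0 → 0 < g v v) :
    ∃ e : V ≃L[ℝ] (V →L[ℝ] ℝ), (e : V →L[ℝ] V →L[ℝ] ℝ) = g := by
  have hinj : Function.Injective g.toLinearMap := by
    rw [← LinearMap.ker_eq_bot, LinearMap.ker_eq_bot']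
    intro x hx
    by_contra hne
    have h1 := hg x hne
    have h2 : g x = 0 := hx
    rw [h2] at h1
    exact lt_irrefl _ h1
  have hdim : Module.finrank ℝ V = Module.finrank ℝ (V →L[ℝ] ℝ) := by
    rw [← (LinearMap.toContinuousLinearMap (𝕜 := ℝ) (E := V) (F' := ℝ)).finrank_eq]
    exact (Subspace.dual_finrank_eq (K := ℝ) (V := V)).symm
  let e := (g.toLinearMap.linearEquivOfInjective hinj hdim).toContinuousLinearEquiv
  refine ⟨e, ?_⟩
  ext x
  rfl

/-- the gradient of a linear function -/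
noncomputable def grad (G : V → Form V) (α : V →L[ℝ] ℝ) (z : V) : V :=
  ContinuousLinearMap.inverse (G z) α

theorem grad_spec {G : V → Form V} (hG : IsMetric G) (α : V →L[ℝ] ℝ) (z w : V) :
    G z (grad G α z) w = α w := by
  obtain ⟨e, he⟩ := exists_cle (hG.pos z)
  rw [grad, ← he, ContinuousLinearMap.inverse_equiv]
  simp

theorem grad_diff {G : V → Form V} (hG : IsMetric G) (α : V →L[ℝ] ℝ) :
    Differentiable ℝ (grad G α) := by
  intro z
  obtain ⟨e, he⟩ := exists_cle (hG.pos z)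
  have h1 : ContDiffAt ℝ 1 ContinuousLinearMap.inverse (e : V →L[ℝ] V →L[ℝ] ℝ) :=
    contDiffAt_map_inverse e
  rw [he] at h1
  have h2 : DifferentiableAt ℝ (fun z => ContinuousLinearMap.inverse (G z)) z :=
    DifferentiableAt.comp (𝕜 := ℝ) (E := V) (F := V →L[ℝ] V →L[ℝ] ℝ)
      (G := (V →L[ℝ] ℝ) →L[ℝ] V) (f := G) (g := ContinuousLinearMap.inverse)
      z (h1.differentiableAt one_ne_zero) (hG.diff z)
  exact DifferentiableAt.clm_apply (𝕜 := ℝ) (E := V) (G := V →L[ℝ] ℝ) (H := V)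
    h2 (differentiableAt_const _)

theorem grad_unique {G : V → Form V} (hG : IsMetric G) {α : V →L[ℝ] ℝ} {z v : V}
    (hv : ∀ w, G z v w = α w) : v = grad G α z := by
  by_contra hne
  have h1 : v - grad G α z ≠ 0 := sub_ne_zero.2 hne
  have h2 := hG.pos z _ h1
  have h3 : G z (v - grad G α z) (v - grad G α z) = 0 := by
    have e1 : ∀ x, G z (v - grad G α z) x = G z v x - G z (grad G α z) x := by
      intro x; rw [map_sub]; rfl
    rw [e1, hv, grad_spec hG, sub_self]
  rw [h3] at h2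
  exact lt_irrefl _ h2

end grad

end Pool.Agent.XTower
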