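import Pool.Agent.Lib_helper30.Tower.Det

/-!
# Iterated lifts

`LiftArc L S`: the arcs in `ℝ^n × Y` which lift an arc `c` of the family `S` in `Y` and whose
`i`-th coordinate has the derivative `L z c' i` at the point `z`. If `L z u i` does not depend on
the first `i` coordinates (those with index at most `i`) of `z`, then the lifts of a determining
family form a determining family.
-/

set_option autoImplicit false

namespace Pool.Agent.XTower

open MeasureTheory Set Filter Topology

section

variable {Y : Type*} [NormedAddCommGroup Y] [NormedSpace ℝ Y]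

/-- the lifted arcs -/
def LiftArc {n : ℕ} (L : (Fin n → ℝ) × Y → Y → Fin n → ℝ) (S : ℝ → ℝ → (ℝ → Y) → Prop)
    (a b : ℝ) (c : ℝ → (Fin n → ℝ) × Y) : Prop :=
  S a b (fun t => (c t).2) ∧
    ∀ i t, HasDerivAt (fun t => (c t).1 i) (L (c t) (deriv (fun t => (c t).2) t) i) t

/-- the splitting of the first coordinate -/
def consHomeo (n : ℕ) (Y : Type*) [TopologicalSpace Y] :
    ((Fin (n + 1) → ℝ) × Y) ≃ₜ (ℝ × ((Fin n → ℝ) × Y)) where
  toFun z := (z.1 0, ((fun i => z.1 i.succ), z.2))
  invFun w := (Fin.cons w.1 w.2.1, w.2.2)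
  left_inv z := by
    refine Prod.ext ?_ rfl
    funext i
    refine Fin.cases ?_ (fun j => ?_) i
    · simp
    · simp
  right_inv w := by
    simp
  continuous_toFun := by fun_prop
  continuous_invFun := by
    refine Continuous.prodMk ?_ (by fun_prop)
    apply continuous_pi
    intro i
    refine Fin.cases ?_ (fun j => ?_) i
    · simp only [Fin.cons_zero]; fun_prop
    · simp only [Fin.cons_succ]; fun_prop

theorem consHomeo_mp (n : ℕ) [MeasurableSpace Y] (μ : Measure Y) [SFinite μ] :
    MeasurePreserving (consHomeo n Y) (volume.prod μ) (volume.prod (volume.prod μ)) := by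
  have h1 := (volume_preserving_piFinSuccAbove (fun _ : Fin (n + 1) => ℝ) 0).prod
    (MeasurePreserving.id μ)
  have h2 := (measurePreserving_prodAssoc (volume : Measure ℝ)
    (volume : Measure (Fin n → ℝ)) μ).comp h1
  exact h2

theorem zeroHomeo_qmp [MeasurableSpace Y] (μ : Measure Y) [SFinite μ] :
    Measure.QuasiMeasurePreserving (fun y : Y => ((fun i : Fin 0 => i.elim0 : Fin 0 → ℝ), y)) μ
      (volume.prod μ) := by
  refine ⟨by fun_prop, ?_⟩
  intro s hs
  have h1 : (volume : Measure (Fin 0 → ℝ)) = Measure.dirac (fun i => i.elim0) := by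
    rw [volume_pi]
    exact Measure.pi_of_empty _ _
  obtain ⟨s', hss, hs'm, hs'0⟩ := exists_measurable_superset_of_null hs
  rw [h1, Measure.dirac_prod, Measure.map_apply (by fun_prop) hs'm] at hs'0
  rw [← nonpos_iff_eq_zero, ← hs'0]
  exact (measure_mono hss).trans (Measure.map_apply (by fun_prop) hs'm).le

/-- the splitting for `n = 0` -/
def zeroHomeo (Y : Type*) [TopologicalSpace Y] : ((Fin 0 → ℝ) × Y) ≃ₜ Y where
  toFun z := z.2
  invFun y := (fun i => i.elim0, y)
  left_inv z := by
    refine Prod.ext ?_ rfl
    funext i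
    exact i.elim0
  right_inv y := rfl
  continuous_toFun := by fun_prop
  continuous_invFun := by fun_prop

variable [MeasurableSpace Y] [BorelSpace Y] [SecondCountableTopology Y]

/-- **Iterated lifts of a determining family.** -/
theorem lift_det {μ : Measure Y} [SFinite μ] {S : ℝ → ℝ → (ℝ → Y) → Prop} (hS : Det μ S)
    (hSc : ∀ a b c, S a b c → a ≤ b ∧ ContDiff ℝ 1 c) (n : ℕ) :
    ∀ (L : (Fin n → ℝ) × Y → Y → Fin n → ℝ),
    (∀ i, Continuous (fun q : ((Fin n → ℝ) × Y) × Y => L q.1 q.2 i)) →
    (∀ i z z' u, z.2 = z'.2 → (∀ k, i < k → z.1 k = z'.1 k) → L z u i = L z' u i) →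
    Det (volume.prod μ) (LiftArc L S) := by
  induction n with
  | zero =>
    intro L _ _
    apply Det.transfer (zeroHomeo Y) (Measure.quasiMeasurePreserving_snd) (zeroHomeo_qmp μ) hS
    intro a b c hc
    exact ⟨hc, fun i => i.elim0⟩
  | succ n ih =>
    intro L hLc hLt
    set L' : (Fin n → ℝ) × Y → Y → Fin n → ℝ :=
      fun z u i => L (Fin.cons 0 z.1, z.2) u i.succ with hL'
    have hcons : Continuous (fun z : (Fin n → ℝ) × Y =>
        ((Fin.cons 0 z.1 : Fin (n + 1) → ℝ), z.2)) := by
      refine Continuous.prodMk ?_ (by fun_prop)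
      apply continuous_pi
      intro i
      refine Fin.cases ?_ (fun j => ?_) i
      · simp only [Fin.cons_zero]; fun_prop
      · simp only [Fin.cons_succ]; fun_prop
    have ih' := ih L' (by
      intro i
      have h1 : Continuous (fun q : ((Fin n → ℝ) × Y) × Y =>
          ((((Fin.cons 0 q.1.1 : Fin (n + 1) → ℝ), q.1.2), q.2) :
            ((Fin (n + 1) → ℝ) × Y) × Y)) :=
        (hcons.comp continuous_fst).prodMk continuous_snd
      exact (hLc i.succ).comp h1) (by
      intro i z z' u h2 h1
      apply hLt i.succ
      · exact h2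
      · intro k hk
        refine Fin.cases ?_ (fun j => ?_) k hk
        · intro h0
          exact absurd h0 (Fin.not_lt_zero _)
        · intro hj
          simp only [Fin.cons_succ]
          exact h1 j (Fin.succ_lt_succ_iff.1 hj))
    have hmp := consHomeo_mp (Y := Y) n μ
    have hmp' : MeasurePreserving (consHomeo n Y).symm (volume.prod (volume.prod μ))
        (volume.prod μ) :=
      MeasurePreserving.symm (consHomeo n Y).toMeasurableEquiv hmp
    apply Det.transfer (consHomeo n Y) hmp.quasiMeasurePreserving hmp'.quasiMeasurePreserving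
      (S := fun a b d => LiftArc L S a b (fun t => (consHomeo n Y).symm (d t))) _
      (fun a b c hc => hc)
    have hcont : ∀ a b c, LiftArc L' S a b c → Continuous c := by
      intro a b c hc
      refine Continuous.prodMk (f := fun t => (c t).1) (g := fun t => (c t).2) ?_ ?_
      · apply continuous_pi
        intro i
        rw [continuous_iff_continuousAt]
        exact fun t => (hc.2 i t).continuousAt
      · exact (hSc a b _ hc.1).2.continuous
    apply Det.lift ih'
    · intro a b c hc
      exact ⟨(hSc a b _ hc.1).1, hcont a b c hc⟩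
    · intro a b c hc
      have hc2 : ContDiff ℝ 1 (fun t => (c t).2) := (hSc a b _ hc.1).2
      set f : ℝ → ℝ := fun s => L (Fin.cons 0 (c s).1, (c s).2) (deriv (fun t => (c t).2) s) 0
        with hf
      have hfc : Continuous f := by
        have h1 : Continuous (deriv (fun t => (c t).2)) := hc2.continuous_deriv le_rfl
        have h2 : Continuous (fun s => (((Fin.cons 0 (c s).1 : Fin (n + 1) → ℝ), (c s).2),
            deriv (fun t => (c t).2) s)) :=
          (hcons.comp (hcont a b c hc)).prodMk h1
        exact (hLc 0).comp h2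
      have hX : ∀ t, HasDerivAt (fun t => ∫ s in (0 : ℝ)..t, f s) (f t) t := fun t =>
        (hfc.integral_hasStrictDerivAt 0 t).hasDerivAt
      refine ⟨fun t => ∫ s in (0 : ℝ)..t, f s, ?_, ?_⟩
      · rw [continuous_iff_continuousAt]
        exact fun t => (hX t).continuousAt
      · intro x₀
        refine ⟨hc.1, ?_⟩
        intro i t
        refine Fin.cases ?_ (fun j => ?_) i
        · have h1 := (hX t).const_add x₀
          have h2 : L ((consHomeo n Y).symm (x₀ + ∫ s in (0 : ℝ)..t, f s, c t))
              (deriv (fun t => (c t).2) t) 0 = f t := by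
            rw [hf]
            apply hLt 0
            · rfl
            · intro k hk
              obtain ⟨j, rfl⟩ := Fin.exists_succ_eq.2 (Fin.pos_iff_ne_zero.1 hk)
              rfl
          have h3 : (fun t => ((consHomeo n Y).symm (x₀ + ∫ s in (0 : ℝ)..t, f s, c t)).1 0) =
              fun t => x₀ + ∫ s in (0 : ℝ)..t, f s := rfl
          change HasDerivAt (fun t => ((consHomeo n Y).symm (x₀ + ∫ s in (0 : ℝ)..t, f s,
            c t)).1 0) (L ((consHomeo n Y).symm (x₀ + ∫ s in (0 : ℝ)..t, f s, c t))
              (deriv (fun t => (c t).2) t) 0) t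
          rw [h2, h3]
          exact h1
        · have h1 := hc.2 j t
          have h2 : L ((consHomeo n Y).symm (x₀ + ∫ s in (0 : ℝ)..t, f s, c t))
              (deriv (fun t => (c t).2) t) j.succ =
              L' (c t) (deriv (fun t => (c t).2) t) j := by
            rw [hL']
            apply hLt j.succ
            · rfl
            · intro k hk
              obtain ⟨l, rfl⟩ := Fin.exists_succ_eq.2
                (Fin.pos_iff_ne_zero.1 (lt_of_le_of_lt (Fin.zero_le _) hk))
              rfl
          have h3 : (fun t => ((consHomeo n Y).symm (x₀ + ∫ s in (0 : ℝ)..t, f s,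
              c t)).1 j.succ) = fun t => (c t).1 j := rfl
          change HasDerivAt (fun t => ((consHomeo n Y).symm (x₀ + ∫ s in (0 : ℝ)..t, f s,
            c t)).1 j.succ) (L ((consHomeo n Y).symm (x₀ + ∫ s in (0 : ℝ)..t, f s, c t))
              (deriv (fun t => (c t).2) t) j.succ) t
          rw [h2, h3]
          exact h1

end

end Pool.Agent.XTower
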