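import Pool.Agent.Lib_helper30.Tower.Defs
import Pool.Agent.Lib_helper30.Tower.Base
import Pool.Agent.Lib_helper30.Tower.Lift
import Pool.Agent.Lib_helper30.Tower.Geo
import Pool.Agent.Lib_helper92.XRay.Dom

/-!
# Assembly in Euclidean coordinates
-/

set_option autoImplicit false

namespace Pool.Agent.XTower

open MeasureTheory Set Filter Topology Pool.Agent.XRay

section coordinates

variable {n : ℕ}

theorem fin_cases2 {P : Fin (n + 2) → Prop} (h0 : ∀ i : Fin n, P i.castSucc.castSucc)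
    (h1 : P (i₁ n)) (h2 : P (i₂ n)) (i : Fin (n + 2)) : P i := by
  refine Fin.lastCases h2 (fun j => ?_) i
  exact Fin.lastCases h1 h0 j

/-- the splitting `ℝ^(n+2) = ℝ^n × ℝ^2` -/
noncomputable def eL (n : ℕ) : V n ≃ₗ[ℝ] (Fin n → ℝ) × (ℝ × ℝ) where
  toFun v := (fun i => v i.castSucc.castSucc, (v (i₁ n), v (i₂ n)))
  map_add' x y := rfl
  map_smul' c x := rfl
  invFun q := WithLp.toLp 2 (Fin.snoc (α := fun _ => ℝ) (Fin.snoc (α := fun _ => ℝ) q.1 q.2.1)
    q.2.2)
  left_inv v := by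
    have h : ∀ i : Fin (n + 2), (Fin.snoc (α := fun _ => ℝ) (Fin.snoc (α := fun _ => ℝ)
        (fun i : Fin n => v i.castSucc.castSucc) (v (i₁ n))) (v (i₂ n)) : Fin (n + 2) → ℝ) i =
        v i := by
      intro i
      refine Fin.lastCases ?_ (fun j => ?_) i
      · simp
      · refine Fin.lastCases ?_ (fun k => ?_) j
        · simp
        · simp
    ext i
    exact h i
  right_inv q := by
    refine Prod.ext ?_ (Prod.ext ?_ ?_)
    · funext i
      simp
    · simp
    · simp

/-- the splitting, as a continuous linear equivalence -/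
noncomputable def eV (n : ℕ) : V n ≃L[ℝ] (Fin n → ℝ) × (ℝ × ℝ) := (eL n).toContinuousLinearEquiv

theorem eV_apply (v : V n) : eV n v = (fun i => v i.castSucc.castSucc, (v (i₁ n), v (i₂ n))) := rfl

/-- the last two coordinates -/
noncomputable def pr2 (n : ℕ) : V n →L[ℝ] ℝ × ℝ :=
  (EuclideanSpace.proj (i₁ n)).prod (EuclideanSpace.proj (i₂ n))

theorem pr2_apply (v : V n) : pr2 n v = (v (i₁ n), v (i₂ n)) := rfl

theorem pr2_symm (q : (Fin n → ℝ) × (ℝ × ℝ)) : pr2 n ((eV n).symm q) = q.2 := by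
  have h : eV n ((eV n).symm q) = q := (eV n).apply_symm_apply q
  rw [eV_apply] at h
  exact congrArg Prod.snd h

theorem symm_apply (q : (Fin n → ℝ) × (ℝ × ℝ)) (i : Fin n) :
    (eV n).symm q i.castSucc.castSucc = q.1 i := by
  have h : eV n ((eV n).symm q) = q := (eV n).apply_symm_apply q
  rw [eV_apply] at h
  exact congrFun (congrArg Prod.fst h) i

theorem haar_prod : (volume.prod volume : Measure ((Fin n → ℝ) × (ℝ × ℝ))).IsAddHaarMeasure := by
  have h1 : (volume : Measure (ℝ × ℝ)).IsAddHaarMeasure := by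
    rw [Measure.volume_eq_prod]; infer_instance
  exact Measure.prod.instIsAddHaarMeasure _ _

theorem qmp1 : Measure.QuasiMeasurePreserving (eV n) (volume : Measure (V n))
    (volume.prod volume) := by
  have := haar_prod (n := n)
  refine ⟨(eV n).continuous.measurable, ?_⟩
  have h1 : (Measure.map (eV n) (volume : Measure (V n))).IsAddHaarMeasure :=
    (eV n).isAddHaarMeasure_map volume
  exact Measure.absolutelyContinuous_isAddHaarMeasure _ _

theorem qmp2 : Measure.QuasiMeasurePreserving (eV n).symm (volume.prod volume)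
    (volume : Measure (V n)) := by
  have := haar_prod (n := n)
  refine ⟨(eV n).symm.continuous.measurable, ?_⟩
  have h1 : (Measure.map (eV n).symm
      (volume.prod volume : Measure ((Fin n → ℝ) × (ℝ × ℝ)))).IsAddHaarMeasure :=
    (eV n).symm.isAddHaarMeasure_map _
  exact Measure.absolutelyContinuous_isAddHaarMeasure _ _

end coordinates

/-- arcs of horizontal unit speed geodesics -/
def HorArc {n : ℕ} (G : V n → Form (V n)) (δ a b : ℝ) (γ : ℝ → V n) : Prop :=
  a ≤ b ∧ Continuous γ ∧ ∃ u v, u < a ∧ b < v ∧ UnitGeodesicOn G γ (Ioo u v) ∧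
    ∀ τ ∈ Ioo u v, (∀ x : V n, x (i₁ n) = 0 → x (i₂ n) = 0 → G (γ τ) (deriv γ τ) x = 0) ∧
      |G (γ τ) (deriv γ τ) (EuclideanSpace.single (i₁ n) 1)| ≤ δ

section main

variable {n : ℕ} {G : V n → Form (V n)} {A B : V n → V n} {δ : ℝ}

theorem coord_cont (j : Fin (n + 2)) : Continuous (fun z : V n => z j) :=
  (EuclideanSpace.proj j : V n →L[ℝ] ℝ).continuous

theorem lt12 (n : ℕ) : i₁ n < i₂ n := Fin.castSucc_lt_last _

/-- the inverse matrix of the quotient metric -/
theorem exists_quo (hG : IsMetric G) (hT : TriGrad G A B) : ∃ P Q R : ℝ → ℝ,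
    (Differentiable ℝ P ∧ Differentiable ℝ Q ∧ Differentiable ℝ R) ∧
    (∀ t, 0 < P t) ∧ (∀ t, 0 < R t) ∧ (∀ t, 0 < P t * R t - Q t ^ 2) ∧
    (∀ z, A z (i₁ n) = P (z (i₂ n))) ∧ (∀ z, A z (i₂ n) = Q (z (i₂ n))) ∧
    (∀ z, B z (i₁ n) = Q (z (i₂ n))) ∧ (∀ z, B z (i₂ n) = R (z (i₂ n))) := by
  have hAg : A = grad G (EuclideanSpace.proj (i₁ n)) := by
    funext z
    exact grad_unique hG (fun w => hT.gradA z w)
  have hBg : B = grad G (EuclideanSpace.proj (i₂ n)) := by
    funext z
    exact grad_unique hG (fun w => hT.gradB z w)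
  have hAd : Differentiable ℝ A := by rw [hAg]; exact grad_diff hG _
  have hBd : Differentiable ℝ B := by rw [hBg]; exact grad_diff hG _
  set e₂ : V n := EuclideanSpace.single (i₂ n) 1 with he₂
  set P : ℝ → ℝ := fun t => A (t • e₂) (i₁ n) with hP
  set Q : ℝ → ℝ := fun t => A (t • e₂) (i₂ n) with hQ
  set R : ℝ → ℝ := fun t => B (t • e₂) (i₂ n) with hR
  have hline : Differentiable ℝ (fun t : ℝ => t • e₂) := by fun_prop
  have hcoord : ∀ (C : V n → V n) (i : Fin (n + 2)), Differentiable ℝ C →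
      Differentiable ℝ (fun t : ℝ => C (t • e₂) i) := by
    intro C i hC
    have h1 : Differentiable ℝ (fun t : ℝ => C (t • e₂)) := hC.comp hline
    exact (EuclideanSpace.proj i : V n →L[ℝ] ℝ).differentiable.comp h1
  have hlt := lt12 n
  have hk2 : ∀ k : Fin (n + 2), i₁ n < k → k = i₂ n := by
    intro k hk
    rw [Fin.lt_def] at hk
    ext
    have := k.2
    simp only [Fin.val_castSucc, Fin.val_last] at hk ⊢
    omega
  have hval : ∀ z : V n, ∀ k : Fin (n + 2), i₁ n < k → z k = (z (i₂ n) • e₂) k := by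
    intro z k hk
    rw [hk2 k hk, he₂]
    simp
  have hAP : ∀ z, A z (i₁ n) = P (z (i₂ n)) := fun z =>
    (hT.tri (i₁ n) z (z (i₂ n) • e₂) (by rw [min_self]; exact hval z)).1
  have hAQ : ∀ z, A z (i₂ n) = Q (z (i₂ n)) := fun z =>
    (hT.tri (i₂ n) z (z (i₂ n) • e₂) (by rw [min_eq_right hlt.le]; exact hval z)).1
  have hBR : ∀ z, B z (i₂ n) = R (z (i₂ n)) := fun z =>
    (hT.tri (i₂ n) z (z (i₂ n) • e₂) (by rw [min_eq_right hlt.le]; exact hval z)).2
  have hBQ : ∀ z, B z (i₁ n) = Q (z (i₂ n)) := by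
    intro z
    rw [← hAQ, ← hT.gradA z (B z), ← hT.gradB z (A z), hG.symm]
  have hPQR : ∀ z : V n, 0 < P (z (i₂ n)) ∧ 0 < R (z (i₂ n)) ∧
      0 < P (z (i₂ n)) * R (z (i₂ n)) - Q (z (i₂ n)) ^ 2 := by
    intro z
    have hA0 : A z ≠ 0 := by
      intro h0
      have h1 := hT.gradA z (EuclideanSpace.single (i₁ n) 1)
      rw [h0, map_zero] at h1
      simp at h1
    have hB0 : B z ≠ 0 := by
      intro h0
      have h1 := hT.gradB z (EuclideanSpace.single (i₂ n) 1)
      rw [h0, map_zero] at h1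
      simp at h1
    have h1 : 0 < P (z (i₂ n)) := by
      rw [← hAP, ← hT.gradA z (A z)]
      exact hG.pos z _ hA0
    have h2 : 0 < R (z (i₂ n)) := by
      rw [← hBR, ← hT.gradB z (B z)]
      exact hG.pos z _ hB0
    refine ⟨h1, h2, ?_⟩
    generalize hr : R (z (i₂ n)) = r at h2 ⊢
    generalize hq : Q (z (i₂ n)) = q
    have h3 : ∀ w, G z (r • A z - q • B z) w = r * w (i₁ n) - q * w (i₂ n) := by
      intro w
      rw [map_sub, map_smul, map_smul]
      change r * G z (A z) w - q * G z (B z) w = _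
      rw [hT.gradA, hT.gradB]
    have h4 : r • A z - q • B z ≠ 0 := by
      intro h0
      have h5 := h3 (EuclideanSpace.single (i₁ n) 1)
      rw [h0, map_zero] at h5
      simp [hlt.ne'] at h5
      exact h2.ne' h5.symm
    have h6 := hG.pos z _ h4
    rw [h3] at h6
    have e1 : (r • A z - q • B z) (i₁ n) = r * P (z (i₂ n)) - q * q := by
      change r * A z (i₁ n) - q * B z (i₁ n) = _
      rw [hAP, hBQ, hq]
    have e2 : (r • A z - q • B z) (i₂ n) = 0 := by
      change r * A z (i₂ n) - q * B z (i₂ n) = _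
      rw [hAQ, hBR, hr, hq]
      ring
    rw [e1, e2] at h6
    have h7 : 0 < r * (P (z (i₂ n)) * r - q ^ 2) := by
      have : r * (P (z (i₂ n)) * r - q ^ 2) = r * (r * P (z (i₂ n)) - q * q) - q * 0 := by ring
      rw [this]; exact h6
    exact (pos_iff_pos_of_mul_pos h7).1 h2
  have hPQR' : ∀ t, 0 < P t ∧ 0 < R t ∧ 0 < P t * R t - Q t ^ 2 := by
    intro t
    have h1 := hPQR (t • e₂)
    have h2 : (t • e₂ : V n) (i₂ n) = t := by rw [he₂]; simp
    rwa [h2] at h1
  exact ⟨P, Q, R, ⟨hcoord A _ hAd, hcoord A _ hAd, hcoord B _ hBd⟩, fun t => (hPQR' t).1,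
    fun t => (hPQR' t).2.1, fun t => (hPQR' t).2.2, hAP, hAQ, hBQ, hBR⟩

/-- the horizontal lift -/
noncomputable def hl (h : ℝ × ℝ → Form (ℝ × ℝ)) (A B : V n → V n) (z : V n) (u : ℝ × ℝ) : V n :=
  (h (pr2 n z) u (1, 0)) • A z + (h (pr2 n z) u (0, 1)) • B z

theorem hl_apply (h : ℝ × ℝ → Form (ℝ × ℝ)) (z : V n) (u : ℝ × ℝ) (i : Fin (n + 2)) :
    hl h A B z u i = h (pr2 n z) u (1, 0) * A z i + h (pr2 n z) u (0, 1) * B z i := rfl

theorem hl_G (hT : TriGrad G A B) (h : ℝ × ℝ → Form (ℝ × ℝ)) (z : V n) (u : ℝ × ℝ) (w : V n) :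
    G z (hl h A B z u) w = h (pr2 n z) u (pr2 n w) := by
  have e1 : pr2 n w = (w (i₁ n)) • ((1, 0) : ℝ × ℝ) + (w (i₂ n)) • ((0, 1) : ℝ × ℝ) := by
    rw [pr2_apply]
    ext <;> simp
  rw [e1, map_add, map_smul, map_smul, hl, map_add, map_smul, map_smul]
  change h (pr2 n z) u (1, 0) * G z (A z) w + h (pr2 n z) u (0, 1) * G z (B z) w = _
  rw [hT.gradA, hT.gradB, smul_eq_mul, smul_eq_mul]
  ring

theorem hl_pr {P Q R : ℝ → ℝ} (hD : ∀ t, 0 < P t * R t - Q t ^ 2)
    (hAP : ∀ z, A z (i₁ n) = P (z (i₂ n))) (hAQ : ∀ z, A z (i₂ n) = Q (z (i₂ n)))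
    (hBQ : ∀ z, B z (i₁ n) = Q (z (i₂ n))) (hBR : ∀ z, B z (i₂ n) = R (z (i₂ n)))
    (z : V n) (u : ℝ × ℝ) : pr2 n (hl (quo P Q R) A B z u) = u := by
  have hD' := (hD (z (i₂ n))).ne'
  rw [pr2_apply, hl_apply, hl_apply, hAP, hAQ, hBQ, hBR, quo_apply, quo_apply]
  have e1 : (pr2 n z).2 = z (i₂ n) := rfl
  rw [e1]
  refine Prod.ext ?_ ?_
  · simp only []
    field_simp
    ring
  · simp only []
    field_simp
    ring

theorem hl_cont {P Q R : ℝ → ℝ} (hP : Continuous P) (hQ : Continuous Q) (hR : Continuous R)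
    (hD : ∀ t, 0 < P t * R t - Q t ^ 2) (hA : Continuous A) (hB : Continuous B)
    (i : Fin (n + 2)) : Continuous (fun q : V n × (ℝ × ℝ) => hl (quo P Q R) A B q.1 q.2 i) := by
  have e1 : (fun q : V n × (ℝ × ℝ) => hl (quo P Q R) A B q.1 q.2 i) = fun q =>
      ((P (q.1 (i₂ n)) * R (q.1 (i₂ n)) - Q (q.1 (i₂ n)) ^ 2)⁻¹ *
        (R (q.1 (i₂ n)) * (q.2.1 * 1) - Q (q.1 (i₂ n)) * (q.2.1 * 0 + q.2.2 * 1) +
          P (q.1 (i₂ n)) * (q.2.2 * 0))) * A q.1 i +
      ((P (q.1 (i₂ n)) * R (q.1 (i₂ n)) - Q (q.1 (i₂ n)) ^ 2)⁻¹ *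
        (R (q.1 (i₂ n)) * (q.2.1 * 0) - Q (q.1 (i₂ n)) * (q.2.1 * 1 + q.2.2 * 0) +
          P (q.1 (i₂ n)) * (q.2.2 * 1))) * B q.1 i := by
    funext q
    rw [hl_apply, quo_apply, quo_apply]
    rfl
  rw [e1]
  have c1 : Continuous (fun q : V n × (ℝ × ℝ) => P (q.1 (i₂ n))) :=
    hP.comp ((coord_cont _).comp continuous_fst)
  have c2 : Continuous (fun q : V n × (ℝ × ℝ) => Q (q.1 (i₂ n))) :=
    hQ.comp ((coord_cont _).comp continuous_fst)
  have c3 : Continuous (fun q : V n × (ℝ × ℝ) => R (q.1 (i₂ n))) :=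
    hR.comp ((coord_cont _).comp continuous_fst)
  have c4 : Continuous (fun q : V n × (ℝ × ℝ) => A q.1 i) :=
    (coord_cont i).comp (hA.comp continuous_fst)
  have c5 : Continuous (fun q : V n × (ℝ × ℝ) => B q.1 i) :=
    (coord_cont i).comp (hB.comp continuous_fst)
  have c6 : Continuous (fun q : V n × (ℝ × ℝ) =>
      (P (q.1 (i₂ n)) * R (q.1 (i₂ n)) - Q (q.1 (i₂ n)) ^ 2)⁻¹) :=
    ((c1.mul c3).sub (c2.pow 2)).inv₀ (fun q => (hD _).ne')
  have c7 : Continuous (fun q : V n × (ℝ × ℝ) => q.2.1) := by fun_prop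
  have c8 : Continuous (fun q : V n × (ℝ × ℝ) => q.2.2) := by fun_prop
  exact ((c6.mul (((c3.mul (c7.mul continuous_const)).sub (c2.mul ((c7.mul
    continuous_const).add (c8.mul continuous_const)))).add (c1.mul (c8.mul
    continuous_const)))).mul c4).add ((c6.mul (((c3.mul (c7.mul continuous_const)).sub
    (c2.mul ((c7.mul continuous_const).add (c8.mul continuous_const)))).add (c1.mul (c8.mul
    continuous_const)))).mul c5)

theorem hl_tri (hT : TriGrad G A B) (h : ℝ × ℝ → Form (ℝ × ℝ)) (i : Fin n)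
    (z z' : (Fin n → ℝ) × (ℝ × ℝ)) (u : ℝ × ℝ) (h2 : z.2 = z'.2)
    (h1 : ∀ k, i < k → z.1 k = z'.1 k) :
    hl h A B ((eV n).symm z) u i.castSucc.castSucc =
      hl h A B ((eV n).symm z') u i.castSucc.castSucc := by
  have hpr : pr2 n ((eV n).symm z) = pr2 n ((eV n).symm z') := by
    rw [pr2_symm, pr2_symm, h2]
  have hmin : min i.castSucc.castSucc (i₁ n) = i.castSucc.castSucc := by
    apply min_eq_left
    rw [Fin.castSucc_le_castSucc_iff]
    exact Fin.le_last _
  have hAB := hT.tri i.castSucc.castSucc ((eV n).symm z) ((eV n).symm z') (by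
    intro k
    rw [hmin]
    refine fin_cases2 (P := fun k => i.castSucc.castSucc < k →
      (eV n).symm z k = (eV n).symm z' k) (fun j => ?_) ?_ ?_ k
    · intro hj
      rw [symm_apply, symm_apply]
      apply h1
      simpa using hj
    · intro _
      exact congrArg Prod.fst hpr
    · intro _
      exact congrArg Prod.snd hpr)
  rw [hl_apply, hl_apply, hpr, hAB.1, hAB.2]

/-- **The horizontal geodesics form a determining family.** -/
theorem hor_det (hG : IsMetric G) (hT : TriGrad G A B) (hδ : 0 < δ) :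
    Det (volume : Measure (V n)) (HorArc G δ) := by
  have hAg : A = grad G (EuclideanSpace.proj (i₁ n)) := by
    funext z
    exact grad_unique hG (fun w => hT.gradA z w)
  have hBg : B = grad G (EuclideanSpace.proj (i₂ n)) := by
    funext z
    exact grad_unique hG (fun w => hT.gradB z w)
  have hAc : Continuous A := by
    rw [continuous_iff_continuousAt, hAg]; exact fun z => (grad_diff hG _ z).continuousAt
  have hBc : Continuous B := by
    rw [continuous_iff_continuousAt, hBg]; exact fun z => (grad_diff hG _ z).continuousAt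
  obtain ⟨P, Q, R, ⟨hPd, hQd, hRd⟩, hP0, hR0, hD, hAP, hAQ, hBQ, hBR⟩ := exists_quo hG hT
  have hlt := lt12 n
  obtain ⟨h, hh'⟩ : ∃ h, h = quo P Q R := ⟨_, rfl⟩
  have hh : IsMetric h := by rw [hh']; exact quo_metric hPd hQd hRd hR0 hD
  have hinv : ∀ (x : ℝ) (z : ℝ × ℝ), h (z + (x, 0)) = h z := by
    intro x z
    have : (z + ((x, 0) : ℝ × ℝ)).2 = z.2 := by simp
    rw [hh']
    unfold quo
    rw [this]
  have hS1 : ∀ z u, pr2 n (hl h A B z u) = u := by
    rw [hh']; exact hl_pr hD hAP hAQ hBQ hBR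
  have hS2 : ∀ z u w, G z (hl h A B z u) w = h (pr2 n z) u (pr2 n w) := hl_G hT h
  have hSc : ∀ i : Fin (n + 2), Continuous (fun q : V n × (ℝ × ℝ) => hl h A B q.1 q.2 i) := by
    rw [hh']
    apply hl_cont _ _ _ hD hAc hBc
    · rw [continuous_iff_continuousAt]; exact fun z => (hPd z).continuousAt
    · rw [continuous_iff_continuousAt]; exact fun z => (hQd z).continuousAt
    · rw [continuous_iff_continuousAt]; exact fun z => (hRd z).continuousAt
  -- the family of the lifts
  obtain ⟨L, hL⟩ : ∃ L : (Fin n → ℝ) × (ℝ × ℝ) → ℝ × ℝ → Fin n → ℝ,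
    L = fun q u i => hl h A B ((eV n).symm q) u i.castSucc.castSucc := ⟨_, rfl⟩
  have hLc : ∀ i, Continuous
      (fun q : ((Fin n → ℝ) × (ℝ × ℝ)) × (ℝ × ℝ) => L q.1 q.2 i) := by
    intro i
    have c1 : Continuous (fun q : ((Fin n → ℝ) × (ℝ × ℝ)) × (ℝ × ℝ) =>
        (((eV n).symm q.1, q.2) : V n × (ℝ × ℝ))) :=
      ((eV n).symm.continuous.comp continuous_fst).prodMk continuous_snd
    have h9 : (fun q : ((Fin n → ℝ) × (ℝ × ℝ)) × (ℝ × ℝ) => L q.1 q.2 i) =
        (fun q : V n × (ℝ × ℝ) => hl h A B q.1 q.2 i.castSucc.castSucc) ∘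
          (fun q : ((Fin n → ℝ) × (ℝ × ℝ)) × (ℝ × ℝ) =>
            (((eV n).symm q.1, q.2) : V n × (ℝ × ℝ))) := by
      funext q
      rw [Function.comp_apply, hL]
    rw [h9]
    exact (hSc i.castSucc.castSucc).comp c1
  have hLt : ∀ i z z' u, z.2 = z'.2 → (∀ k, i < k → z.1 k = z'.1 k) → L z u i = L z' u i := by
    intro i z z' u h2 h1
    rw [hL]
    exact hl_tri hT h i z z' u h2 h1
  have hdet := lift_det (base_det hh hinv hδ) (fun a b c hc => ⟨hc.1, hc.2.1⟩) n L hLc hLt
  apply Det.transfer (eV n).toHomeomorph qmp1 qmp2 hdet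
  intro a b c hc
  obtain ⟨⟨hab, hc1, u, v, hu, hv, hgeo, hmom⟩, hc2⟩ := hc
  obtain ⟨c₂, hc₂⟩ : ∃ c₂ : ℝ → ℝ × ℝ, c₂ = fun t => (c t).2 := ⟨_, rfl⟩
  rw [← hc₂] at hc1 hgeo hc2
  obtain ⟨γ, hγ⟩ : ∃ γ : ℝ → V n, γ = fun t => (eV n).symm (c t) := ⟨_, rfl⟩
  have hπ : ∀ t, pr2 n (γ t) = c₂ t := by
    intro t
    rw [hγ, hc₂]
    exact pr2_symm (c t)
  have hγd : ∀ t, HasDerivAt γ (hl h A B (γ t) (deriv c₂ t)) t := by
    intro t
    have h1 : HasDerivAt (fun t => (c t).1) (fun i => L (c t) (deriv c₂ t) i) t := by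
      rw [hasDerivAt_pi]
      exact fun i => hc2 i t
    have h2 : HasDerivAt (fun t => (c t).2) (deriv c₂ t) t := by
      rw [← hc₂]
      exact ((hc1.differentiable one_ne_zero) t).hasDerivAt
    have h3 : HasDerivAt c ((fun i => L (c t) (deriv c₂ t) i), deriv c₂ t) t := h1.prodMk h2
    have h4 : ((fun i => L (c t) (deriv c₂ t) i), deriv c₂ t) =
        eV n (hl h A B (γ t) (deriv c₂ t)) := by
      rw [eV_apply]
      refine Prod.ext ?_ ?_
      · rw [hL, hγ]
      · exact (hS1 (γ t) (deriv c₂ t)).symm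
    rw [h4] at h3
    have h5 := (eV n).symm.hasFDerivAt.comp_hasDerivAt t h3
    have h6 : (eV n).symm (eV n (hl h A B (γ t) (deriv c₂ t))) = hl h A B (γ t) (deriv c₂ t) :=
      (eV n).symm_apply_apply _
    have h7 : HasDerivAt γ ((eV n).symm (eV n (hl h A B (γ t) (deriv c₂ t)))) t := by
      rw [hγ] at h5 ⊢
      exact h5
    rwa [h6] at h7
  obtain ⟨hg, hm⟩ := lift_geodesic hG hh hS1 hS2 hγd hπ hgeo
  have hfin : HorArc G δ a b γ := by
    refine ⟨hab, ?_, u, v, hu, hv, hg, ?_⟩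
    · rw [continuous_iff_continuousAt]
      exact fun t => (hγd t).continuousAt
    · intro τ hτ
      refine ⟨?_, ?_⟩
      · intro x hx1 hx2
        have h1 : pr2 n x = 0 := by rw [pr2_apply, hx1, hx2]; rfl
        rw [hm, h1, map_zero]
      · have h1 : pr2 n (EuclideanSpace.single (i₁ n) 1) = (1, 0) := by
          rw [pr2_apply]
          simp [hlt.ne']
        rw [hm, h1]
        have h2 := hmom τ hτ
        rw [hc₂]
        exact h2
  rw [hγ] at hfin
  exact hfin

/-- injectivity on compact sets -/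
theorem hor_injective (hG : IsMetric G) (hT : TriGrad G A B) (hδ : 0 < δ) {M : Set (V n)}
    {f : V n → ℝ} (hM : IsCompact M) (hfr : volume (frontier M) = 0) (hf : ContinuousOn f M)
    (h0 : HorZero G M f δ) : ∀ z ∈ closure (interior M), f z = 0 := by
  obtain ⟨C, hC⟩ := hM.exists_bound_of_continuousOn hf
  have hdet := hor_det hG hT hδ (M.indicator f) M (frontier M)
    (measurable_indicator_of_continuousOn hM.isClosed.measurableSet hf)
    ⟨|C|, by
      intro z
      by_cases hz : z ∈ M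
      · rw [indicator_of_mem hz]
        exact (hC z hz).trans (le_abs_self _)
      · rw [indicator_of_notMem hz, abs_zero]
        exact abs_nonneg _⟩ hM (fun z hz => indicator_of_notMem hz f)
    isClosed_frontier.measurableSet hfr (by
      intro a b γ hγ ha hb hZ
      obtain ⟨hab, hγc, u, v, hu, hv, hgeo, hmom⟩ := hγ
      have h1 := integral_eq_zero_of_segments hM.isClosed hf (Cf := C) hC hab hγc ha hb
        (w := fun _ => 1) continuous_const hZ (by
          intro y₁ y₂ h1 h12 h2 hmem hl hr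
          simp only [mul_one]
          exact h0 γ u v y₁ y₂ (hu.trans h1) h12 (h2.trans hv) hgeo hmom ⟨hmem, hl, hr⟩)
      simpa only [mul_one] using h1)
  have hint : ∀ z ∈ interior M, f z = 0 := by
    intro z hz
    by_contra hne
    set U : Set (V n) := interior M ∩ f ⁻¹' {r | r ≠ 0} with hU
    have hUo : IsOpen U :=
      (hf.mono interior_subset).isOpen_inter_preimage isOpen_interior isOpen_ne
    have hUpos : 0 < volume U := hUo.measure_pos volume ⟨z, hz, hne⟩
    have hU0 : volume U = 0 := by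
      rw [ae_iff] at hdet
      apply measure_mono_null _ hdet
      intro w hw
      change ¬ M.indicator f w = 0
      rw [indicator_of_mem (interior_subset hw.1)]
      exact hw.2
    exact hUpos.ne' hU0
  have hcl : closure (interior M) ⊆ M := closure_minimal interior_subset hM.isClosed
  exact EqOn.of_subset_closure (s := interior M) (g := fun _ => 0) hint (hf.mono hcl)
    continuousOn_const subset_closure subset_rfl

end main

/-! ### Triangular isometries -/

section iso

variable {n : ℕ} {G : V n → Form (V n)}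

/-- triangular isometries give triangular gradients -/
theorem triGrad_of_iso (hG : IsMetric G) (hI : TriIso G) :
    TriGrad G (grad G (EuclideanSpace.proj (i₁ n))) (grad G (EuclideanSpace.proj (i₂ n))) := by
  refine ⟨fun z w => grad_spec hG _ z w, fun z w => grad_spec hG _ z w, ?_⟩
  -- invariance of the coordinates of the gradients under the isometries
  have key : ∀ (k : Fin (n + 2)) (Ψ : V n → V n) (r : ℝ), Differentiable ℝ Ψ →
      (∀ z v w, G (Ψ z) (fderiv ℝ Ψ z v) (fderiv ℝ Ψ z w) = G z v w) →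
      (∀ z, Ψ z k = z k + r) → (∀ z i, k < i → Ψ z i = z i) → ∀ (j : Fin (n + 2)), k ≤ j →
      ∀ (z : V n) (i : Fin (n + 2)), k ≤ i →
        grad G (EuclideanSpace.proj j) (Ψ z) i = grad G (EuclideanSpace.proj j) z i := by
    intro k Ψ r hd hiso hk hgt j hj z i hi
    -- the coordinates of the derivative
    have hco : ∀ (l : Fin (n + 2)), k ≤ l → ∀ w : V n, (fderiv ℝ Ψ z w) l = w l := by
      intro l hl w
      have h1 : HasFDerivAt (fun z => Ψ z l)
          ((EuclideanSpace.proj l : V n →L[ℝ] ℝ).comp (fderiv ℝ Ψ z)) z :=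
        (EuclideanSpace.proj l : V n →L[ℝ] ℝ).hasFDerivAt.comp z (hd z).hasFDerivAt
      have h2 : HasFDerivAt (fun z : V n => Ψ z l) (EuclideanSpace.proj l : V n →L[ℝ] ℝ) z := by
        rcases hl.eq_or_lt with h3 | h3
        · have e1 : (fun z : V n => Ψ z l) = fun z => z l + r := by
            funext z; rw [← h3]; exact hk z
          rw [e1]
          exact (EuclideanSpace.proj l : V n →L[ℝ] ℝ).hasFDerivAt.add_const r
        · have e1 : (fun z : V n => Ψ z l) = fun z => z l := by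
            funext z; exact hgt z l h3
          rw [e1]
          exact (EuclideanSpace.proj l : V n →L[ℝ] ℝ).hasFDerivAt
      have h3 := congrArg (fun T : V n →L[ℝ] ℝ => T w) (h1.unique h2)
      exact h3
    -- surjectivity of the derivative
    have hinj : Function.Injective (fderiv ℝ Ψ z).toLinearMap := by
      rw [← LinearMap.ker_eq_bot, LinearMap.ker_eq_bot']
      intro v hv
      by_contra hne
      have h1 := hG.pos z v hne
      have h2 : fderiv ℝ Ψ z v = 0 := hv
      rw [← hiso z v v, h2, map_zero] at h1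
      exact lt_irrefl _ h1
    have hsurj : Function.Surjective (fderiv ℝ Ψ z).toLinearMap :=
      LinearMap.injective_iff_surjective.1 hinj
    have h1 : fderiv ℝ Ψ z (grad G (EuclideanSpace.proj j) z) =
        grad G (EuclideanSpace.proj j) (Ψ z) := by
      apply grad_unique hG
      intro w
      obtain ⟨w', hw'⟩ := hsurj w
      have hw'' : fderiv ℝ Ψ z w' = w := hw'
      rw [← hw'', hiso, grad_spec hG]
      exact (hco j hj w').symm
    rw [← h1]
    exact hco i hi _
  -- induction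
  have main : ∀ (j : Fin (n + 2)), i₁ n ≤ j → ∀ (i : Fin (n + 2)) (m : ℕ),
      (m : ℕ) ≤ (min i (i₁ n) : Fin (n + 2)) → ∀ z z' : V n,
      (∀ l : Fin (n + 2), m < (l : ℕ) → z l = z' l) →
      grad G (EuclideanSpace.proj j) z i = grad G (EuclideanSpace.proj j) z' i := by
    intro j hj i m
    induction m with
    | zero =>
      intro _ z z' hz
      -- move the coordinate `0`
      obtain ⟨Ψ, hd, hiso, hk, hgt⟩ := hI 0 (z' 0 - z 0) (by
        rw [Fin.lt_def]; simp)
      have h1 := key 0 Ψ _ hd hiso hk hgt j (Fin.zero_le _) z i (Fin.zero_le _)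
      rw [← h1]
      have h2 : Ψ z = z' := by
        ext l
        by_cases hl : l = 0
        · rw [hl, hk]; ring
        · rw [hgt z l (Fin.pos_iff_ne_zero.2 hl)]
          exact hz l (Fin.pos_iff_ne_zero.2 hl)
      rw [h2]
    | succ m ih =>
      intro hm z z' hz
      have hmlt : m + 1 < n + 2 := lt_of_le_of_lt hm (Fin.is_lt _)
      set k : Fin (n + 2) := ⟨m + 1, hmlt⟩ with hkdef
      have hki : k ≤ i := by
        rw [Fin.le_def]
        exact hm.trans (Fin.le_def.1 (min_le_left _ _))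
      have hk1 : k ≤ i₁ n := by
        rw [Fin.le_def]
        exact hm.trans (Fin.le_def.1 (min_le_right _ _))
      obtain ⟨Ψ, hd, hiso, hk, hgt⟩ := hI k (z' k - z k)
        (lt_of_le_of_lt hk1 (Fin.castSucc_lt_last _))
      have h1 := key k Ψ _ hd hiso hk hgt j (hk1.trans hj) z i hki
      rw [← h1]
      apply ih ((Nat.le_succ m).trans hm)
      intro l hl
      rcases Nat.lt_or_ge (m + 1) (l : ℕ) with h2 | h2
      · have h3 : k < l := by rw [Fin.lt_def]; exact h2
        rw [hgt z l h3]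
        exact hz l h2
      · have h3 : l = k := by
          ext
          change (l : ℕ) = m + 1
          omega
        rw [h3, hk]
        ring
  intro i z z' hz
  have hz' : ∀ l : Fin (n + 2), ((min i (i₁ n) : Fin (n + 2)) : ℕ) < (l : ℕ) → z l = z' l :=
    fun l hl => hz l (Fin.lt_def.2 hl)
  exact ⟨main (i₁ n) le_rfl i _ le_rfl z z' hz',
    main (i₂ n) (Fin.castSucc_lt_last _).le i _ le_rfl z z' hz'⟩

end iso

end Pool.Agent.XTower
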