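import Pool.Agent.Lib_helper30.Tower.DetOn
import Pool.Agent.Lib_helper30.Tower.Geo
import Pool.Agent.Lib_helper92.XRay.Dom
import Pool.Agent.Lib_helper92.XRay.Comp

/-!
# Towers over an arbitrary base

`Tower h G`: the projection of `Y × ℝ^m` with the metric `G` to `Y` with the metric `h` is a
Riemannian submersion, and the horizontal lifts are triangular. If the geodesics of `h` with the
property `P` determine the bounded Borel functions with compact support in `Ω`, then the
corresponding horizontal geodesics of `G` determine those with compact support in `Ω × ℝ^m`.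
-/

set_option autoImplicit false

namespace Pool.Agent.XTower

open MeasureTheory Set Filter Topology Pool.Agent.XRay

section defs

variable {Y : Type*} [NormedAddCommGroup Y] [NormedSpace ℝ Y] {m : ℕ}

/-- The projection `(y, w) ↦ y` is a Riemannian submersion from `G` onto `h`: the vector
`(u, L z u)` is the horizontal lift of `u` at `z`. The horizontal lifts are triangular: the
coordinate of index `i` of `L z u` only depends on `u`, on the base point, and on the fibre
coordinates of index `k > i`. -/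
def Tower (h : Y → Form Y) (G : Y × EuclideanSpace ℝ (Fin m) →
    Form (Y × EuclideanSpace ℝ (Fin m))) : Prop :=
  ∃ L : Y × EuclideanSpace ℝ (Fin m) → Y → EuclideanSpace ℝ (Fin m),
    (∀ z u v, G z (u, L z u) v = h z.1 u v.1) ∧
    ∀ (i : Fin m) (z z' : Y × EuclideanSpace ℝ (Fin m)) (u : Y), z.1 = z'.1 →
      (∀ k, i < k → z.2 k = z'.2 k) → L z u i = L z' u i

/-- arcs of unit speed geodesics with the property `P` -/
def PArc (h : Y → Form Y) (P : Y → Y → Prop) (a b : ℝ) (c : ℝ → Y) : Prop :=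
  a ≤ b ∧ ContDiff ℝ 1 c ∧ ∃ u v, u < a ∧ b < v ∧ UnitGeodesicOn h c (Ioo u v) ∧
    ∀ τ ∈ Ioo u v, P (c τ) (deriv c τ)

/-- arcs of horizontal unit speed geodesics whose projection has the property `P` -/
def HArc (G : Y × EuclideanSpace ℝ (Fin m) → Form (Y × EuclideanSpace ℝ (Fin m)))
    (P : Y → Y → Prop) (a b : ℝ) (γ : ℝ → Y × EuclideanSpace ℝ (Fin m)) : Prop :=
  a ≤ b ∧ Continuous γ ∧ ∃ u v, u < a ∧ b < v ∧ UnitGeodesicOn G γ (Ioo u v) ∧
    ∀ τ ∈ Ioo u v, (∀ w, G (γ τ) (deriv γ τ) (0, w) = 0) ∧ P (γ τ).1 (deriv γ τ).1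

/-- `∫_s^t f(γ(τ)) dτ = 0` for every horizontal unit speed geodesic `γ : (u, v) → Y × ℝ^m` of the
metric `G` whose projection to `Y` has the property `P`, and for every maximal segment
`[s, t] ⊆ (u, v)` of `γ` in `M`. -/
def HZero (G : Y × EuclideanSpace ℝ (Fin m) → Form (Y × EuclideanSpace ℝ (Fin m)))
    (P : Y → Y → Prop) (M : Set (Y × EuclideanSpace ℝ (Fin m)))
    (f : Y × EuclideanSpace ℝ (Fin m) → ℝ) : Prop :=
  ∀ (γ : ℝ → Y × EuclideanSpace ℝ (Fin m)) (u v s t : ℝ), u < s → s < t → t < v →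
    UnitGeodesicOn G γ (Ioo u v) →
    (∀ τ ∈ Ioo u v, (∀ w, G (γ τ) (deriv γ τ) (0, w) = 0) ∧ P (γ τ).1 (deriv γ τ).1) →
    MaximalSegment M γ s t → ∫ τ in s..t, f (γ τ) = 0

end defs

section main

variable {Y : Type*} [NormedAddCommGroup Y] [NormedSpace ℝ Y] [FiniteDimensional ℝ Y] {m : ℕ}
variable {h : Y → Form Y} {G : Y × EuclideanSpace ℝ (Fin m) → Form (Y × EuclideanSpace ℝ (Fin m))}

/-- the splitting in the order fibre, base -/
noncomputable def fb (Y : Type*) [NormedAddCommGroup Y] [NormedSpace ℝ Y] (m : ℕ) :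
    (Y × EuclideanSpace ℝ (Fin m)) ≃L[ℝ] (Fin m → ℝ) × Y :=
  (ContinuousLinearEquiv.prodComm ℝ Y (EuclideanSpace ℝ (Fin m))).trans
    ((EuclideanSpace.equiv (Fin m) ℝ).prodCongr (ContinuousLinearEquiv.refl ℝ Y))

omit [FiniteDimensional ℝ Y] in
theorem fb_apply (z : Y × EuclideanSpace ℝ (Fin m)) : fb Y m z = ((fun i => z.2 i), z.1) := rfl

omit [FiniteDimensional ℝ Y] in
theorem fb_symm_fst (q : (Fin m → ℝ) × Y) : ((fb Y m).symm q).1 = q.2 := rfl

omit [FiniteDimensional ℝ Y] in
theorem fb_symm_snd (q : (Fin m → ℝ) × Y) (i : Fin m) : ((fb Y m).symm q).2 i = q.1 i := rfl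

/-- the horizontal lift depends continuously on the point and the vector -/
theorem lift_cont (hh : IsMetric h) (hG : IsMetric G)
    {L : Y × EuclideanSpace ℝ (Fin m) → Y → EuclideanSpace ℝ (Fin m)}
    (hL : ∀ z u v, G z (u, L z u) v = h z.1 u v.1) :
    Continuous (fun q : (Y × EuclideanSpace ℝ (Fin m)) × Y => L q.1 q.2) := by
  obtain ⟨b, -⟩ : ∃ b : Module.Basis (Fin (Module.finrank ℝ Y)) ℝ Y, True :=
    ⟨Module.finBasis ℝ Y, trivial⟩
  obtain ⟨α, hα⟩ : ∃ α : Fin (Module.finrank ℝ Y) → (Y × EuclideanSpace ℝ (Fin m) →L[ℝ] ℝ),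
      ∀ j w, α j w = b.coord j w.1 :=
    ⟨fun j => (LinearMap.toContinuousLinearMap (b.coord j)).comp
      (ContinuousLinearMap.fst ℝ Y (EuclideanSpace ℝ (Fin m))), fun j w => rfl⟩
  have key : ∀ z u, ((u, L z u) : Y × EuclideanSpace ℝ (Fin m)) =
      ∑ j, (h z.1 u (b j)) • grad G (α j) z := by
    intro z u
    obtain ⟨β, hβ⟩ : ∃ β : Y × EuclideanSpace ℝ (Fin m) →L[ℝ] ℝ, ∀ w, β w = h z.1 u w.1 :=
      ⟨(h z.1 u).comp (ContinuousLinearMap.fst ℝ Y (EuclideanSpace ℝ (Fin m))), fun w => rfl⟩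
    rw [grad_unique hG (α := β) (v := ∑ j, (h z.1 u (b j)) • grad G (α j) z)]
    · exact grad_unique hG fun w => by rw [hβ, hL]
    · intro w
      rw [map_sum, sum_apply, hβ]
      have e1 : ∀ j, (G z ((h z.1 u (b j)) • grad G (α j) z)) w =
          h z.1 u (b.coord j w.1 • b j) := by
        intro j
        rw [map_smul, map_smul, smul_apply, grad_spec hG, hα, smul_eq_mul,
          smul_eq_mul, mul_comm]
      rw [Finset.sum_congr rfl fun j _ => e1 j, ← map_sum]
      congr 1
      exact b.sum_repr w.1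
  have hc : Continuous (fun q : (Y × EuclideanSpace ℝ (Fin m)) × Y =>
      ∑ j, (h q.1.1 q.2 (b j)) • grad G (α j) q.1) := by
    apply continuous_finsetSum
    intro j _
    have c1 : Continuous (fun q : (Y × EuclideanSpace ℝ (Fin m)) × Y => h q.1.1 q.2 (b j)) := by
      have c2 : Continuous (fun q : (Y × EuclideanSpace ℝ (Fin m)) × Y => h q.1.1) :=
        hh.diff.continuous.comp (continuous_fst.comp continuous_fst)
      exact (c2.clm_apply continuous_snd).clm_apply continuous_const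
    have c3 : Continuous (fun q : (Y × EuclideanSpace ℝ (Fin m)) × Y => grad G (α j) q.1) :=
      (grad_diff hG (α j)).continuous.comp continuous_fst
    exact c1.smul c3
  have e2 : (fun q : (Y × EuclideanSpace ℝ (Fin m)) × Y => L q.1 q.2) = fun q =>
      (∑ j, (h q.1.1 q.2 (b j)) • grad G (α j) q.1).2 := by
    funext q
    rw [← key]
  rw [e2]
  exact continuous_snd.comp hc

variable [MeasureSpace Y] [BorelSpace Y] [(volume : Measure Y).IsAddHaarMeasure]

theorem haar1 : (volume : Measure (Y × EuclideanSpace ℝ (Fin m))).IsAddHaarMeasure := by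
  rw [Measure.volume_eq_prod]; infer_instance

theorem haar2 : (volume.prod volume : Measure ((Fin m → ℝ) × Y)).IsAddHaarMeasure :=
  Measure.prod.instIsAddHaarMeasure _ _

theorem fb_qmp1 : Measure.QuasiMeasurePreserving (fb Y m)
    (volume : Measure (Y × EuclideanSpace ℝ (Fin m))) (volume.prod volume) := by
  have h1 := haar1 (Y := Y) (m := m)
  have h2 := haar2 (Y := Y) (m := m)
  refine ⟨(fb Y m).continuous.measurable, ?_⟩
  have h3 : (Measure.map (fb Y m)
      (volume : Measure (Y × EuclideanSpace ℝ (Fin m)))).IsAddHaarMeasure :=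
    (fb Y m).isAddHaarMeasure_map volume
  exact Measure.absolutelyContinuous_isAddHaarMeasure _ _

theorem fb_qmp2 : Measure.QuasiMeasurePreserving (fb Y m).symm (volume.prod volume)
    (volume : Measure (Y × EuclideanSpace ℝ (Fin m))) := by
  have h1 := haar1 (Y := Y) (m := m)
  have h2 := haar2 (Y := Y) (m := m)
  refine ⟨(fb Y m).symm.continuous.measurable, ?_⟩
  have h3 : (Measure.map (fb Y m).symm
      (volume.prod volume : Measure ((Fin m → ℝ) × Y))).IsAddHaarMeasure :=
    (fb Y m).symm.isAddHaarMeasure_map _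
  exact Measure.absolutelyContinuous_isAddHaarMeasure _ _

/-- **The horizontal geodesics of a tower form a determining family.** -/
theorem tower_det (hh : IsMetric h) (hG : IsMetric G) (hT : Tower h G) {Ω : Set Y}
    {P : Y → Y → Prop} (hD : DetOn volume Ω (PArc h P)) :
    DetOn (volume : Measure (Y × EuclideanSpace ℝ (Fin m))) {z | z.1 ∈ Ω} (HArc G P) := by
  obtain ⟨L, hL1, hL2⟩ := hT
  have hLcont := lift_cont hh hG hL1
  have : SecondCountableTopology Y := by
    have := FiniteDimensional.proper_real Y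
    exact secondCountable_of_proper
  obtain ⟨S, hS⟩ : ∃ S : Y × EuclideanSpace ℝ (Fin m) → Y → Y × EuclideanSpace ℝ (Fin m),
      S = fun z u => (u, L z u) := ⟨_, rfl⟩
  obtain ⟨π, hπ⟩ : ∃ π : (Y × EuclideanSpace ℝ (Fin m)) →L[ℝ] Y,
      π = ContinuousLinearMap.fst ℝ Y (EuclideanSpace ℝ (Fin m)) := ⟨_, rfl⟩
  have hπ' : ∀ z, π z = z.1 := by rw [hπ]; exact fun z => rfl
  have hS1 : ∀ z u, π (S z u) = u := by rw [hπ, hS]; exact fun z u => rfl
  have hS2 : ∀ z u w, G z (S z u) w = h (π z) u (π w) := by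
    rw [hπ, hS]; exact fun z u w => hL1 z u w
  -- the family of the lifts
  obtain ⟨Λ, hΛ⟩ : ∃ Λ : (Fin m → ℝ) × Y → Y → Fin m → ℝ,
    Λ = fun q u i => L ((fb Y m).symm q) u i := ⟨_, rfl⟩
  have hΛc : ∀ i, Continuous (fun q : ((Fin m → ℝ) × Y) × Y => Λ q.1 q.2 i) := by
    intro i
    have c1 : Continuous (fun q : ((Fin m → ℝ) × Y) × Y =>
        (((fb Y m).symm q.1, q.2) : (Y × EuclideanSpace ℝ (Fin m)) × Y)) :=
      ((fb Y m).symm.continuous.comp continuous_fst).prodMk continuous_snd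
    have c2 : Continuous (fun w : EuclideanSpace ℝ (Fin m) => w i) :=
      (EuclideanSpace.proj i : EuclideanSpace ℝ (Fin m) →L[ℝ] ℝ).continuous
    rw [hΛ]
    exact c2.comp (hLcont.comp c1)
  have hΛt : ∀ i z z' u, z.2 = z'.2 → (∀ k, i < k → z.1 k = z'.1 k) → Λ z u i = Λ z' u i := by
    intro i z z' u h2 h1
    rw [hΛ]
    exact hL2 i _ _ u h2 h1
  have hdet := lift_detOn hD (fun a b c hc => ⟨hc.1, hc.2.1⟩) m Λ hΛc hΛt
  apply DetOn.transfer (fb Y m).toHomeomorph (Ω := {z | z.2 ∈ Ω}) (fun z hz => hz) fb_qmp1 fb_qmp2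
    hdet
  intro a b c hc
  obtain ⟨⟨hab, hc1, u, v, hu, hv, hgeo, hP⟩, hc2⟩ := hc
  obtain ⟨c₂, hc₂⟩ : ∃ c₂ : ℝ → Y, c₂ = fun t => (c t).2 := ⟨_, rfl⟩
  rw [← hc₂] at hc1 hgeo hc2
  have hP' : ∀ τ ∈ Ioo u v, P (c₂ τ) (deriv c₂ τ) := by rw [hc₂]; exact hP
  obtain ⟨γ, hγ⟩ : ∃ γ : ℝ → Y × EuclideanSpace ℝ (Fin m), γ = fun t => (fb Y m).symm (c t) :=
    ⟨_, rfl⟩
  have hπγ : ∀ t, π (γ t) = c₂ t := by
    intro t
    rw [hγ, hc₂, hπ']
    exact fb_symm_fst (c t)
  have hγd : ∀ t, HasDerivAt γ (S (γ t) (deriv c₂ t)) t := by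
    intro t
    have h1 : HasDerivAt (fun t => (c t).1) (fun i => Λ (c t) (deriv c₂ t) i) t := by
      rw [hasDerivAt_pi]
      exact fun i => hc2 i t
    have h2 : HasDerivAt (fun t => (c t).2) (deriv c₂ t) t := by
      rw [← hc₂]
      exact ((hc1.differentiable one_ne_zero) t).hasDerivAt
    have h3 : HasDerivAt c ((fun i => Λ (c t) (deriv c₂ t) i), deriv c₂ t) t := h1.prodMk h2
    have h4 : ((fun i => Λ (c t) (deriv c₂ t) i), deriv c₂ t) =
        fb Y m (S (γ t) (deriv c₂ t)) := by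
      rw [fb_apply]
      refine Prod.ext ?_ ?_
      · rw [hΛ, hγ, hS]
      · rw [hS]
    rw [h4] at h3
    have h5 := (fb Y m).symm.hasFDerivAt.comp_hasDerivAt t h3
    have h6 : (fb Y m).symm (fb Y m (S (γ t) (deriv c₂ t))) = S (γ t) (deriv c₂ t) :=
      (fb Y m).symm_apply_apply _
    have h7 : HasDerivAt γ ((fb Y m).symm (fb Y m (S (γ t) (deriv c₂ t)))) t := by
      rw [hγ] at h5 ⊢
      exact h5
    rwa [h6] at h7
  obtain ⟨hg, hm⟩ := lift_geodesic hG hh hS1 hS2 hγd hπγ hgeo
  have hfin : HArc G P a b γ := by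
    refine ⟨hab, ?_, u, v, hu, hv, hg, ?_⟩
    · rw [continuous_iff_continuousAt]
      exact fun t => (hγd t).continuousAt
    · intro τ hτ
      refine ⟨?_, ?_⟩
      · intro w
        rw [hm, hπ']
        exact map_zero _
      · have h1 : (γ τ).1 = c₂ τ := by rw [← hπ']; exact hπγ τ
        have h2 : (deriv γ τ).1 = deriv c₂ τ := by
          rw [(hγd τ).deriv, hS]
        rw [h1, h2]
        exact hP' τ hτ
  rw [hγ] at hfin
  exact hfin

/-- **injectivity on compact sets** -/
theorem tower_injective (hh : IsMetric h) (hG : IsMetric G) (hT : Tower h G) {Ω : Set Y}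
    {P : Y → Y → Prop} (hD : DetOn volume Ω (PArc h P)) {M : Set (Y × EuclideanSpace ℝ (Fin m))}
    {f : Y × EuclideanSpace ℝ (Fin m) → ℝ} (hM : IsCompact M) (hMΩ : ∀ z ∈ M, z.1 ∈ Ω)
    (hfr : volume (frontier M) = 0) (hf : ContinuousOn f M) (h0 : HZero G P M f) :
    ∀ z ∈ closure (interior M), f z = 0 := by
  have haar := haar1 (Y := Y) (m := m)
  have : SecondCountableTopology Y := by
    have := FiniteDimensional.proper_real Y
    exact secondCountable_of_proper
  obtain ⟨C, hC⟩ := hM.exists_bound_of_continuousOn hf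
  have hdet := tower_det hh hG hT hD (M.indicator f) M (frontier M)
    (measurable_indicator_of_continuousOn hM.isClosed.measurableSet hf)
    ⟨|C|, by
      intro z
      by_cases hz : z ∈ M
      · rw [indicator_of_mem hz]
        exact (hC z hz).trans (le_abs_self _)
      · rw [indicator_of_notMem hz, abs_zero]
        exact abs_nonneg _⟩ hM hMΩ (fun z hz => indicator_of_notMem hz f)
    isClosed_frontier.measurableSet hfr (by
      intro a b γ hγ ha hb hZ
      obtain ⟨hab, hγc, u, v, hu, hv, hgeo, hmom⟩ := hγ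
      have h1 := integral_eq_zero_of_segments hM.isClosed hf (Cf := C) hC hab hγc ha hb
        (w := fun _ => 1) continuous_const hZ (by
          intro y₁ y₂ h1 h12 h2 hmem hl hr
          simp only [mul_one]
          exact h0 γ u v y₁ y₂ (hu.trans h1) h12 (h2.trans hv) hgeo hmom ⟨hmem, hl, hr⟩)
      simpa only [mul_one] using h1)
  have hint : ∀ z ∈ interior M, f z = 0 := by
    intro z hz
    by_contra hne
    set U : Set (Y × EuclideanSpace ℝ (Fin m)) := interior M ∩ f ⁻¹' {r | r ≠ 0} with hU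
    have hUo : IsOpen U :=
      (hf.mono interior_subset).isOpen_inter_preimage isOpen_interior isOpen_ne
    have hUpos : 0 < volume U := hUo.measure_pos volume ⟨z, hz, hne⟩
    have hU0 : volume U = 0 := by
      rw [ae_iff] at hdet
      apply measure_mono_null _ hdet
      intro w hw
      change ¬ M.indicator f w = 0
      rw [indicator_of_mem (interior_subset hw.1)]
      exact hw.2
    exact hUpos.ne' hU0
  have hcl : closure (interior M) ⊆ M := closure_minimal interior_subset hM.isClosed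
  exact EqOn.of_subset_closure (s := interior M) (g := fun _ => 0) hint (hf.mono hcl)
    continuousOn_const subset_closure subset_rfl

/-- the boundary of a regular domain is a null set -/
theorem reg_null {r : Y × EuclideanSpace ℝ (Fin m) → ℝ} (hr : ContDiff ℝ 1 r)
    (hd : ∀ z, r z = 0 → fderiv ℝ r z ≠ 0) : volume (frontier {z | 0 ≤ r z}) = 0 := by
  have haar := haar1 (Y := Y) (m := m)
  exact regular_null hr hd volume

omit [MeasureSpace Y] [BorelSpace Y] [(volume : Measure Y).IsAddHaarMeasure] in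
/-- a regular domain is the closure of its interior -/
theorem reg_closure {r : Y × EuclideanSpace ℝ (Fin m) → ℝ} (hr : ContDiff ℝ 1 r)
    (hd : ∀ z, r z = 0 → fderiv ℝ r z ≠ 0) : {z | 0 ≤ r z} ⊆ closure (interior {z | 0 ≤ r z}) :=
  regular_closure hr hd

end main

end Pool.Agent.XTower
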