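import Pool.Agent.Lib_helper30.Tower.Pieces
import Pool.Agent.WPG.All

/-!
# Towers: the base with a general warped product metric
-/

set_option autoImplicit false

namespace Pool.Agent.XTower

open MeasureTheory Set Filter Topology Pool.Agent.XRay Pool.Agent.WPG

variable {a n : ℕ}

/-- the warped product metric is a metric -/
theorem wf_metric {g : WPG.E a → WPG.E a →L[ℝ] WPG.E a →L[ℝ] ℝ} {ϕ : WPG.E a → ℝ}
    {k : WPG.E (n + 2) → WPG.E (n + 2) →L[ℝ] WPG.E (n + 2) →L[ℝ] ℝ} (hM : Met g ϕ k) :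
    IsMetric (wf g ϕ k) := by
  refine ⟨?_, ?_, ?_⟩
  · intro z
    obtain ⟨g', h1, -⟩ := GEOAux.gpart (ContinuousLinearMap.fst ℝ (WPG.E a) (WPG.E (n + 2)))
      hM.metg.diff z
    obtain ⟨k', h2, -⟩ := GEOAux.gpart (ContinuousLinearMap.snd ℝ (WPG.E a) (WPG.E (n + 2)))
      hM.metk.diff z
    have h3 : HasFDerivAt (fun z : WPG.Sp a n => ϕ z.1)
        ((fderiv ℝ ϕ z.1).comp (ContinuousLinearMap.fst ℝ (WPG.E a) (WPG.E (n + 2)))) z :=
      HasFDerivAt.comp (g := ϕ) z ((hM.ϕs.differentiable (by simp)) z.1).hasFDerivAt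
        (ContinuousLinearMap.fst ℝ (WPG.E a) (WPG.E (n + 2))).hasFDerivAt
    obtain ⟨G', h4, -⟩ := GEOAux.smulpart (F := WPG.Sp a n →L[ℝ] WPG.Sp a n →L[ℝ] ℝ) h3 h2 h1
    have h6 : HasFDerivAt (wf g ϕ k) G' z := h4
    exact h6.differentiableAt
  · intro z u v
    rw [wf_apply, wf_apply, hM.metg.symm, hM.metk.symm]
  · intro z u hu
    rw [wf_apply]
    by_cases h0 : u.1 = 0
    · have h1 : u.2 ≠ 0 := fun h2 => hu (Prod.ext h0 h2)
      have h2 := mul_pos (hM.ϕ0 z.1) (hM.metk.pos z.2 u.2 h1)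
      rw [h0]
      simpa using h2
    · have h1 := hM.metg.pos z.1 u.1 h0
      by_cases h2 : u.2 = 0
      · rw [h2]
        simpa using h1
      · exact add_pos h1 (mul_pos (hM.ϕ0 z.1) (hM.metk.pos z.2 u.2 h2))

end Pool.Agent.XTower
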