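import Pool.Agent.Lib_helper30.Tower.Pieces
import Pool.Agent.LIO.All

/-!
# Towers: the base with a Liouville metric

The geodesics of a Liouville metric of the plane, with Liouville integral close to `h₀`, determine
the bounded Borel functions with compact support in `{-V < h₀ < U}`. (Measurable version of
`Pool/Agent/LIO/Seg.lean` and `Pool/Agent/LIO/Abs.lean`.)
-/

set_option autoImplicit false

namespace Pool.Agent.XTower

open MeasureTheory Set Filter Topology Pool.Agent.XRay Pool.Agent.LIO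

/-- the Liouville metric `(U(x) + V(y))(dx² + dy²)` -/
noncomputable def lioForm (U V : ℝ → ℝ) (z : ℝ × ℝ) : Form (ℝ × ℝ) :=
  (U z.1 + V z.2) • o11 + (U z.1 + V z.2) • o22

theorem lioForm_apply (U V : ℝ → ℝ) (z u w : ℝ × ℝ) :
    lioForm U V z u w = (U z.1 + V z.2) * (u.1 * w.1 + u.2 * w.2) := by
  simp [lioForm, o11, o22]
  ring

theorem lioForm_metric {U V : ℝ → ℝ} (hU : Differentiable ℝ U) (hV : Differentiable ℝ V)
    (hpos : ∀ x y, 0 < U x + V y) : IsMetric (lioForm U V) := by
  refine ⟨?_, ?_, ?_⟩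
  · unfold lioForm
    have h1 : Differentiable ℝ (fun z : ℝ × ℝ => U z.1 + V z.2) :=
      (hU.comp differentiable_fst).add (hV.comp differentiable_snd)
    exact add_form_diff (smul_form_diff o11 h1) (smul_form_diff o22 h1)
  · intro z u w
    rw [lioForm_apply, lioForm_apply]
    ring
  · intro z u hu
    rw [lioForm_apply]
    apply mul_pos (hpos _ _)
    by_cases h0 : u.1 = 0
    · have h3 : u.2 ≠ 0 := fun h3 => hu (Prod.ext h0 h3)
      rw [h0]
      have : 0 < u.2 * u.2 := mul_self_pos.2 h3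
      linarith
    · have : 0 < u.1 * u.1 := mul_self_pos.2 h0
      have := mul_self_nonneg u.2
      linarith

/-- the Liouville integral -/
noncomputable def lioInt (U V : ℝ → ℝ) (z v : ℝ × ℝ) : ℝ :=
  (U z.1 + V z.2) * (U z.1 * v.2 ^ 2 - V z.2 * v.1 ^ 2)

/-- the plane, with a trivial second factor -/
noncomputable def e0 : ((ℝ × ℝ) × (Fin 0 → ℝ)) ≃L[ℝ] (ℝ × ℝ) where
  toFun z := z.1
  map_add' _ _ := rfl
  map_smul' _ _ := rfl
  invFun z := (z, 0)
  left_inv z := Prod.ext rfl (Subsingleton.elim _ _)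
  right_inv _ := rfl
  continuous_toFun := continuous_fst
  continuous_invFun := by fun_prop

theorem lio_detOn {U V : ℝ → ℝ} (hU : ContDiff ℝ (⊤ : ℕ∞) U) (hV : ContDiff ℝ (⊤ : ℕ∞) V)
    (hpos : ∀ x y, 0 < U x + V y) (h₀ : ℝ) {δ : ℝ} (hδ : 0 < δ) :
    DetOn (volume : Measure (ℝ × ℝ)) {z | -V z.2 < h₀ ∧ h₀ < U z.1}
      (PArc (lioForm U V) fun z v => |lioInt U V z v - h₀| < δ) := by
  intro F K Z hFm hFb hK hKΩ hFK hZm hZ0 harc
  obtain ⟨C, hC⟩ := hFb
  -- the modified functions
  obtain ⟨u, a₁, B₁, ha₁, hus, hub, huM⟩ := mod_ U (Prod.fst '' K) h₀ hU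
    (hK.image continuous_fst) (by
      rintro x ⟨z, hz, rfl⟩
      exact (hKΩ hz).2)
  obtain ⟨v, a₂, B₂, ha₂, hvs, hvb, hvM⟩ := mod_ V (Prod.snd '' K) (-h₀) hV
    (hK.image continuous_snd) (by
      rintro x ⟨z, hz, rfl⟩
      have := (hKΩ hz).1
      show -h₀ < V z.2
      linarith)
  -- bounds
  obtain ⟨r₁, hr₁⟩ := hK.isBounded.exists_norm_le
  obtain ⟨r, hr, hrM⟩ : ∃ r : ℝ, 0 < r ∧ ∀ z ∈ K, |z.1| < r ∧ |z.2| < r := by
    refine ⟨max r₁ 0 + 1, by positivity, fun z hz => ?_⟩
    have h1 := hr₁ z hz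
    have h2 := norm_fst_le z
    have h3 := norm_snd_le z
    rw [Real.norm_eq_abs] at h2 h3
    have h4 := le_max_left r₁ 0
    constructor <;> linarith
  have hFs : ∀ x y : ℝ, r ≤ |x| ∨ r ≤ |y| → F (x, y) = 0 := fun x y hxy => by
    apply hFK
    intro hz
    have h1 := hrM _ hz
    rcases hxy with h | h
    · exact absurd h1.1 (not_lt.2 h)
    · exact absurd h1.2 (not_lt.2 h)
  let D : LD := ABSAux.mk F hFm C hC u v a₁ B₁ a₂ B₂ ha₁ ha₂ hus hvs hub hvb r hr hFs
  have hDU : D.U = u := rfl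
  have hDV : D.V = v := rfl
  have ha0 := D.a0
  have hU' : Differentiable ℝ U := hU.differentiable (by simp)
  have hV' : Differentiable ℝ V := hV.differentiable (by simp)
  have hmet := lioForm_metric hU' hV' hpos
  have hLM : LioM e0 (lioForm U V) U V := by
    intro z v w
    exact lioForm_apply U V z v w
  have hD : D.DataZero (min δ D.a) := by
    intro h hh σ hσ ω
    have hha : |h| < D.a := hh.trans_le (min_le_right _ _)
    have hhδ : |h| < δ := hh.trans_le (min_le_left _ _)
    obtain ⟨X, Y, hFl⟩ := flow D h hha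
    have hXc : Continuous X := continuous_iff_continuousAt.2 fun t => (hFl.hX t).continuousAt
    have hYc : Continuous Y := continuous_iff_continuousAt.2 fun t => (hFl.hY t).continuousAt
    have hDUc : Continuous D.U := D.Us.continuous
    have hDVc : Continuous D.V := D.Vs.continuous
    refine line All.B1 D h X Y hha hFl σ hσ ?_ ω
    filter_upwards [nul D h X Y hha hFl σ hσ Z hZm hZ0] with c hc
    have hpz := param_zero (h := lioForm U V) (P := fun z v => |lioInt U V z v - h₀| < δ)
      (K := K) (Z := Z) hFm ⟨C, hC⟩ hK.isClosed hFK harc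
      (g := fun τ => (X (σ * (τ - c)), Y τ))
      (g' := fun τ => (√(D.U (X (σ * (τ - c))) - h) * σ, √(D.V (Y τ) + h)))
      (w := fun τ => D.U (X (σ * (τ - c))) + D.V (Y τ)) (κ := D.a + D.a)
      (O := {τ | (∀ᶠ x in 𝓝 (X (σ * (τ - c))), D.U x = U x - h₀) ∧
        ∀ᶠ y in 𝓝 (Y τ), D.V y = V y + h₀}) ?_ ?_ ?_ ?_ ?_ ?_ ?_ ?_ ?_ ?_
    · refine Eq.trans (integral_congr_ae (Eventually.of_forall fun τ => ?_)) hpz
      rfl
    · intro τ
      refine HasDerivAt.prodMk ?_ (hFl.hY τ)
      have h1 : HasDerivAt (fun τ : ℝ => σ * (τ - c)) σ τ := by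
        simpa using ((hasDerivAt_id τ).sub_const c).const_mul σ
      exact (hFl.hX (σ * (τ - c))).comp τ h1
    · fun_prop
    · fun_prop
    · linarith
    · exact fun τ => add_le_add (D.Ua _) (D.Va _)
    · -- the curve leaves `K`
      have hκ0 : 0 < √(D.a - |h|) := Real.sqrt_pos.2 (by linarith)
      set κ := √(D.a - |h|) with hκdef
      have hκ : ∀ t, κ ≤ √(D.V (Y t) + h) := by
        intro t
        apply Real.sqrt_le_sqrt
        have := D.Va (Y t)
        have := neg_abs_le h
        linarith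
      set L := (r + |Y 0| + 1) / κ with hLdef
      have hL0 : 0 ≤ L := by positivity
      have hκL : κ * L = r + |Y 0| + 1 := by rw [hLdef]; field_simp
      refine ⟨L, ?_⟩
      intro τ hτ hmem
      have h1 : |Y τ| < r := (hrM _ hmem).2
      rcases le_total 0 τ with h0 | h0
      · rw [abs_of_nonneg h0] at hτ
        have h3 := grow_right hFl.hY hκ h0
        have h5 := neg_abs_le (Y 0)
        have h6 := le_abs_self (Y τ)
        have h7 := mul_le_mul_of_nonneg_left hτ hκ0.le
        nlinarith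
      · rw [abs_of_nonpos h0] at hτ
        have h3 := grow_right hFl.hY hκ h0
        have h5 := le_abs_self (Y 0)
        have h6 := neg_abs_le (Y τ)
        have h7 := mul_le_mul_of_nonneg_left hτ hκ0.le
        nlinarith
    · have h1 : IsOpen {x : ℝ | ∀ᶠ x' in 𝓝 x, D.U x' = U x' - h₀} :=
        isOpen_setOfPred_eventually_nhds
      have h2 : IsOpen {y : ℝ | ∀ᶠ y' in 𝓝 y, D.V y' = V y' + h₀} :=
        isOpen_setOfPred_eventually_nhds
      have h3 : Continuous (fun τ => X (σ * (τ - c))) := by fun_prop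
      exact (h1.preimage h3).inter (h2.preimage hYc)
    · intro τ hτ
      refine ⟨huM _ ⟨_, hτ, rfl⟩, ?_⟩
      filter_upwards [hvM _ ⟨_, hτ, rfl⟩] with t ht
      show v t = V t + h₀
      rw [ht]
      ring
    · intro T S hTd hST hTS a b hab hO
      obtain ⟨hgeo, hder⟩ := geo (ℝ × ℝ) (Fin 0 → ℝ) e0 (lioForm U V) U V hmet hU' hV' hLM D h h₀
        σ c X Y T S 0 hha hFl hσ hTd hST hTS a b hab hO
      refine ⟨hgeo, ?_⟩
      intro t ht
      have hTm : StrictMono T := (exists_inv hTd (κ := D.a + D.a) (by linarith)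
        (fun τ => add_le_add (D.Ua _) (D.Va _))).1
      have hd := (hder t ht).deriv
      have hSt : S t ∈ Ioo a b := by
        rw [← hTS t] at ht
        exact ⟨hTm.lt_iff_lt.1 ht.1, hTm.lt_iff_lt.1 ht.2⟩
      have hOt := hO _ hSt
      have e1 : D.U (X (σ * (S t - c))) = U (X (σ * (S t - c))) - h₀ := hOt.1.self_of_nhds
      have e2 : D.V (Y (S t)) = V (Y (S t)) + h₀ := hOt.2.self_of_nhds
      have hd' : deriv (fun t => (X (σ * (S t - c)), Y (S t))) t =
          ((σ * √(D.U (X (σ * (S t - c))) - h) / (D.U (X (σ * (S t - c))) + D.V (Y (S t))),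
            √(D.V (Y (S t)) + h) / (D.U (X (σ * (S t - c))) + D.V (Y (S t)))) : ℝ × ℝ) := hd
      rw [hd']
      unfold lioInt
      simp only []
      have hwt : 0 < D.U (X (σ * (S t - c))) + D.V (Y (S t)) := by
        have h1 := D.Ua (X (σ * (S t - c)))
        have h2 := D.Va (Y (S t))
        linarith
      have hs1 : √(D.U (X (σ * (S t - c))) - h) ^ 2 = D.U (X (σ * (S t - c))) - h := by
        apply Real.sq_sqrt
        have := D.Ua (X (σ * (S t - c)))
        have := le_abs_self h
        linarith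
      have hs2 : √(D.V (Y (S t)) + h) ^ 2 = D.V (Y (S t)) + h := by
        apply Real.sq_sqrt
        have := D.Va (Y (S t))
        have := neg_abs_le h
        linarith
      have hσ2 : σ ^ 2 = 1 := by rcases hσ with h | h <;> rw [h] <;> norm_num
      have hU'' : U (X (σ * (S t - c))) = D.U (X (σ * (S t - c))) + h₀ := by linarith
      have hV'' : V (Y (S t)) = D.V (Y (S t)) - h₀ := by linarith
      rw [hU'', hV'', div_pow, div_pow, mul_pow, hσ2, hs1, hs2, one_mul]
      set u' := D.U (X (σ * (S t - c))) with hu'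
      set v' := D.V (Y (S t)) with hv'
      have key : (u' + h₀ + (v' - h₀)) * ((u' + h₀) * ((v' + h) / (u' + v') ^ 2) -
          (v' - h₀) * ((u' - h) / (u' + v') ^ 2)) - h₀ = h := by
        have : u' + v' ≠ 0 := hwt.ne'
        field_simp
        ring
      rw [key]
      exact hhδ
    · filter_upwards [hc] with τ hτ
      exact hτ
  have h2 := All.CORE D (min δ D.a) (lt_min hδ D.a0) hD
  filter_upwards [h2] with z hz
  have h3 : F (z.1, z.2) * (u z.1 + v z.2) = 0 := hz
  rcases mul_eq_zero.1 h3 with h4 | h4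
  · exact h4
  · have h5 := (hub z.1).1
    have h6 := (hvb z.2).1
    linarith

end Pool.Agent.XTower
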