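import Pool.Agent.Lib_helper30.Tower.Pieces
import Pool.Agent.LVN.All

/-!
# Towers: the base with a Liouville metric in at least three variables

The geodesics of a Liouville metric `(∑ U_i(x_i)) |dx|²` of `ℝ^k`, `k ≥ 3`, whose first integrals
`W² v_i² - U_i` are close to `c_i`, determine the bounded Borel functions with compact support in
`{U_i + c_i > 0 for all i}`. (Measurable version of `Pool/Agent/LVN/Seg.lean` and
`Pool/Agent/LVN/Abs.lean`.)
-/

set_option autoImplicit false

namespace Pool.Agent.XTower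

open MeasureTheory Set Filter Topology Pool.Agent.XRay Pool.Agent.LVN

section form

variable {k : ℕ}

/-- the Liouville metric `(∑ U_i(x_i)) |dx|²` -/
noncomputable def lvnForm (U : Fin k → ℝ → ℝ) (z : E k) : Form (E k) :=
  (∑ i, U i (z i)) • innerSL ℝ

theorem lvnForm_apply (U : Fin k → ℝ → ℝ) (z u w : E k) :
    lvnForm U z u w = (∑ i, U i (z i)) * inner ℝ u w := rfl

theorem lvnForm_metric {U : Fin k → ℝ → ℝ} (hU : ∀ i, Differentiable ℝ (U i))
    (hpos : ∀ x : Fin k → ℝ, 0 < ∑ i, U i (x i)) : IsMetric (lvnForm U) := by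
  refine ⟨?_, ?_, ?_⟩
  · unfold lvnForm
    have h1 : Differentiable ℝ (fun z : E k => ∑ i, U i (z i)) := by
      refine Differentiable.fun_sum fun i _ => ?_
      exact (hU i).comp (f := fun z : E k => z i) (by fun_prop)
    exact smul_form_diff _ h1
  · intro z u w
    rw [lvnForm_apply, lvnForm_apply, real_inner_comm]
  · intro z u hu
    rw [lvnForm_apply]
    exact mul_pos (hpos _) (real_inner_self_pos.2 hu)

/-- the same metric on `ℝ^k × ℝ^0` -/
noncomputable def lvnG (U : Fin k → ℝ → ℝ) (z : T k 0) : Form (T k 0) :=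
  (∑ i, U i (z.1 i)) • (innerSL ℝ).bilinearComp (ContinuousLinearMap.fst ℝ (E k) (E 0))
    (ContinuousLinearMap.fst ℝ (E k) (E 0))

theorem lvnG_apply (U : Fin k → ℝ → ℝ) (z u w : T k 0) :
    lvnG U z u w = lvnForm U z.1 u.1 w.1 := rfl

theorem lvnG_metric {U : Fin k → ℝ → ℝ} (hU : ∀ i, Differentiable ℝ (U i))
    (hpos : ∀ x : Fin k → ℝ, 0 < ∑ i, U i (x i)) : IsMetric (lvnG U) := by
  have hm := lvnForm_metric hU hpos
  refine ⟨?_, ?_, ?_⟩
  · unfold lvnG
    have h1 : Differentiable ℝ (fun z : T k 0 => ∑ i, U i (z.1 i)) := by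
      refine Differentiable.fun_sum fun i _ => ?_
      exact (hU i).comp (f := fun z : T k 0 => z.1 i) (by fun_prop)
    exact smul_form_diff _ h1
  · intro z u w
    exact hm.symm _ _ _
  · intro z u hu
    apply hm.pos
    intro h0
    apply hu
    exact Prod.ext h0 (Subsingleton.elim _ _)

theorem lvnG_liou (U : Fin k → ℝ → ℝ) : Liou (lvnG U) U := fun _ _ _ _ => rfl

/-- the derivatives of the two metrics agree -/
theorem fderiv_lvnG {U : Fin k → ℝ → ℝ} (hU : ∀ i, Differentiable ℝ (U i))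
    (hpos : ∀ x : Fin k → ℝ, 0 < ∑ i, U i (x i)) (z u : T k 0) (w : E k) :
    fderiv ℝ (lvnG U) z (w, 0) u u = fderiv ℝ (lvnForm U) z.1 w u.1 u.1 := by
  have line : ∀ {V : Type} [NormedAddCommGroup V] [NormedSpace ℝ V] {G : V → Form V},
      Differentiable ℝ G → ∀ z v u : V,
      HasDerivAt (fun s : ℝ => G (z + s • v) u u) (fderiv ℝ G z v u u) 0 := by
    intro V _ _ G hG z v u
    have hline : HasDerivAt (fun s : ℝ => z + s • v) v 0 := by
      have h1 : HasDerivAt (fun s : ℝ => s • v) ((1 : ℝ) • v) 0 :=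
        (hasDerivAt_id (0 : ℝ)).smul_const v
      rw [one_smul] at h1
      exact h1.const_add z
    have h0 : z + (0 : ℝ) • v = z := by rw [zero_smul, add_zero]
    have h1 : HasDerivAt (fun s : ℝ => G (z + s • v)) (fderiv ℝ G z v) 0 := by
      have h2 : HasFDerivAt G (fderiv ℝ G z) (z + (0 : ℝ) • v) := by
        rw [h0]
        exact (hG z).hasFDerivAt
      exact HasFDerivAt.comp_hasDerivAt (l := G) (f := fun s : ℝ => z + s • v) (0 : ℝ) h2 hline
    have h3 := (h1.clm_apply (hasDerivAt_const (0 : ℝ) u)).clm_apply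
      (hasDerivAt_const (0 : ℝ) u)
    simpa using h3
  have h1 := line (lvnG_metric hU hpos).diff z (w, 0) u
  have h2 := line (lvnForm_metric hU hpos).diff z.1 w u.1
  exact h1.unique h2

/-- geodesics of `ℝ^k × ℝ^0` and of `ℝ^k` -/
theorem geo_fst {U : Fin k → ℝ → ℝ} (hU : ∀ i, Differentiable ℝ (U i))
    (hpos : ∀ x : Fin k → ℝ, 0 < ∑ i, U i (x i)) {γ : ℝ → T k 0} {J : Set ℝ} (hJ : IsOpen J)
    (hγ : UnitGeodesicOn (lvnG U) γ J) : UnitGeodesicOn (lvnForm U) (fun t => (γ t).1) J := by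
  have hd0 : ∀ t ∈ J, HasDerivAt (fun t => (γ t).1) (deriv γ t).1 t := by
    intro t ht
    exact (ContinuousLinearMap.fst ℝ (E k) (E 0)).hasFDerivAt.comp_hasDerivAt t
      (hγ.diff t ht).hasDerivAt
  have hd : ∀ t ∈ J, deriv (fun t => (γ t).1) t = (deriv γ t).1 := fun t ht => (hd0 t ht).deriv
  refine ⟨?_, ?_, ?_⟩
  · intro t ht
    exact (hd0 t ht).differentiableAt
  · intro t ht w
    have h1 := hγ.euler t ht (w, 0)
    rw [fderiv_lvnG hU hpos] at h1
    rw [hd t ht]
    refine h1.congr_of_eventuallyEq ?_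
    filter_upwards [hJ.mem_nhds ht] with s hs
    show lvnForm U (γ s).1 (deriv (fun t => (γ t).1) s) w = lvnG U (γ s) (deriv γ s) (w, 0)
    rw [hd s hs, lvnG_apply]
  · intro t ht
    rw [hd t ht]
    exact hγ.unit t ht

end form

theorem lvn_detOn {n : ℕ} {U : Fin (n + 3) → ℝ → ℝ} (hU : ∀ i, Differentiable ℝ (U i))
    (hpos : ∀ x : Fin (n + 3) → ℝ, 0 < ∑ i, U i (x i)) (c₀ : Fin (n + 3) → ℝ)
    (hc₀ : ∑ i, c₀ i = 0) {δ : ℝ} (hδ : 0 < δ) :
    DetOn (volume : Measure (E (n + 3))) {z | ∀ i, 0 < U i (z i) + c₀ i}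
      (PArc (lvnForm U) fun z v => ∀ i,
        |(∑ j, U j (z j)) ^ 2 * (v i) ^ 2 - U i (z i) - c₀ i| < δ) := by
  intro F K Z hFm hFb hK hKΩ hFK hZm hZ0 harc
  obtain ⟨C, hC⟩ := hFb
  -- the modified functions
  have hmod := fun i => modu (fun x => U i x + c₀ i) ((fun z : E (n + 3) => z i) '' K)
    ((hU i).continuous.add continuous_const) (hK.image (by fun_prop)) (by
      rintro x ⟨z, hz, rfl⟩
      exact hKΩ hz i)
  choose u a₁ B₁ ha₁ huc hub huM using hmod
  obtain ⟨a, ha, haa⟩ := ABSAux.exists_min a₁ ha₁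
  obtain ⟨B, hB⟩ : ∃ B : ℝ, ∀ i, B₁ i ≤ B := by
    obtain ⟨B, hB⟩ := (Set.finite_range B₁).bddAbove
    exact ⟨B, fun i => hB ⟨i, rfl⟩⟩
  have hub' : ∀ i x, a ≤ u i x ∧ u i x ≤ B := fun i x =>
    ⟨(haa i).trans (hub i x).1, (hub i x).2.trans (hB i)⟩
  -- bounds
  obtain ⟨r₁, hr₁⟩ := hK.isBounded.exists_norm_le
  obtain ⟨r, hr, hrM⟩ : ∃ r : ℝ, 0 < r ∧ ∀ z ∈ K, ∀ i, |z i| < r := by
    refine ⟨max r₁ 0 + 1, by positivity, fun z hz i => ?_⟩
    have h1 := hr₁ z hz
    have h2 := PiLp.norm_apply_le z i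
    rw [Real.norm_eq_abs] at h2
    have h4 := le_max_left r₁ 0
    linarith
  have hFs : ∀ x : E (n + 3), (∃ i, r ≤ |x i|) → F x = 0 := fun x ⟨i, hi⟩ => by
    apply hFK
    intro hz
    exact absurd (hrM _ hz i) (not_lt.2 hi)
  let D : LD (n + 3) := ABSAux.mk F hFm C hC u a B ha huc hub' r hr hFs
  have hDa : 0 < D.a / 2 := half_pos D.a0
  have ha0 := D.a0
  have hmet := lvnG_metric hU hpos
  have h2 := core_done n D (min δ (D.a / 2)) (lt_min hδ hDa) (by
    intro c hc hcd X hFl s hs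
    have hca : ∀ i, |c i| ≤ D.a / 2 := fun i => ((hcd i).trans_le (min_le_right _ _)).le
    have hcδ : ∀ i, |c i| < δ := fun i => (hcd i).trans_le (min_le_left _ _)
    have hXc : ∀ i, Continuous (X i) := fun i =>
      continuous_iff_continuousAt.2 fun t => (hFl.hX i t).continuousAt
    have hDU : ∀ i, Continuous (D.U i) := D.Uc
    filter_upwards [nul (n + 3) D c X hca hFl s hs Z hZm hZ0] with b hb
    have hXs : ∀ i, Continuous (fun τ : ℝ => X i (s i * τ + b i)) := fun i =>
      (hXc i).comp (by fun_prop)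
    have hw : Continuous (fun τ : ℝ => ∑ i, D.U i (X i (s i * τ + b i))) :=
      continuous_finsetSum _ fun i _ => (hDU i).comp (hXs i)
    have hw0 : ∀ τ : ℝ, D.a ≤ ∑ i, D.U i (X i (s i * τ + b i)) := by
      intro τ
      have h1 : D.U 0 (X 0 (s 0 * τ + b 0)) ≤ ∑ i, D.U i (X i (s i * τ + b i)) :=
        Finset.single_le_sum (f := fun i => D.U i (X i (s i * τ + b i)))
          (fun i _ => ha0.le.trans (D.Ua i _)) (Finset.mem_univ 0)
      exact (D.Ua 0 _).trans h1
    have hpz := param_zero (h := lvnForm U) (P := fun z v => ∀ i,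
        |(∑ j, U j (z j)) ^ 2 * (v i) ^ 2 - U i (z i) - c₀ i| < δ)
      (K := K) (Z := Z) hFm ⟨C, hC⟩ hK.isClosed hFK harc
      (g := pt X s b)
      (g' := fun τ => WithLp.toLp 2 (fun i => √(D.U i (X i (s i * τ + b i)) + c i) * s i))
      (w := fun τ => ∑ i, D.U i (X i (s i * τ + b i))) (κ := D.a)
      (O := {τ | ∀ i, ∀ᶠ x in 𝓝 (X i (s i * τ + b i)), D.U i x = U i x + c₀ i})
      ?_ ?_ ?_ ?_ ?_ ?_ ?_ ?_ ?_ ?_
    · refine Eq.trans (integral_congr_ae (Eventually.of_forall fun τ => ?_)) hpz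
      rfl
    · intro τ
      have h1 : HasDerivAt (fun τ => (fun i => X i (s i * τ + b i) : Fin (n + 3) → ℝ))
          (fun i => √(D.U i (X i (s i * τ + b i)) + c i) * s i) τ := by
        rw [hasDerivAt_pi]
        intro i
        have h3 : HasDerivAt (fun τ : ℝ => s i * τ + b i) (s i) τ := by
          simpa using ((hasDerivAt_id τ).const_mul (s i)).add_const (b i)
        exact (hFl.hX i (s i * τ + b i)).comp τ h3
      exact ((PiLp.hasFDerivAt_toLp 2 _).comp_hasDerivAt τ h1)
    · refine (PiLp.continuous_toLp 2 _).comp ?_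
      refine continuous_pi fun i => ?_
      have h3 : Continuous (fun τ : ℝ => D.U i (X i (s i * τ + b i))) := (hDU i).comp (hXs i)
      fun_prop
    · exact hw
    · exact ha0
    · exact hw0
    · -- the curve leaves `K`
      have hκ0 : 0 < √(D.a / 2) := Real.sqrt_pos.2 (by linarith)
      set κ := √(D.a / 2) with hκdef
      have hκ : ∀ t, κ ≤ √(D.U 0 (X 0 t) + c 0) := by
        intro t
        apply Real.sqrt_le_sqrt
        have := D.Ua 0 (X 0 t)
        have := neg_abs_le (c 0)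
        have := hca 0
        linarith
      set L := |b 0| + (r + |X 0 0| + 1) / κ with hLdef
      have hL0 : 0 ≤ L := by positivity
      have hκL : κ * (L - |b 0|) = r + |X 0 0| + 1 := by rw [hLdef]; field_simp; ring
      refine ⟨L, ?_⟩
      intro τ hτ hmem
      have h1 : |X 0 (s 0 * τ + b 0)| < r := hrM _ hmem 0
      set t := s 0 * τ + b 0 with ht
      have hrL : L - |b 0| ≤ |t| := by
        have h5 : |s 0 * τ| = |τ| := by
          rcases hs 0 with h | h <;> rw [h] <;> simp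
        have h6 : |s 0 * τ| ≤ |t| + |b 0| := by
          have : s 0 * τ = t - b 0 := by rw [ht]; ring
          rw [this]
          exact abs_sub t (b 0)
        linarith
      rcases le_total 0 t with h0 | h0
      · rw [abs_of_nonneg h0] at hrL
        have h3 := grow_right (hFl.hX 0) hκ h0
        have h5 := neg_abs_le (X 0 0)
        have h6 := le_abs_self (X 0 t)
        have h7 := mul_le_mul_of_nonneg_left hrL hκ0.le
        nlinarith
      · rw [abs_of_nonpos h0] at hrL
        have h3 := grow_right (hFl.hX 0) hκ h0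
        have h5 := le_abs_self (X 0 0)
        have h6 := neg_abs_le (X 0 t)
        have h7 := mul_le_mul_of_nonneg_left hrL hκ0.le
        nlinarith
    · have h0 : {τ : ℝ | ∀ i, ∀ᶠ x in 𝓝 (X i (s i * τ + b i)), D.U i x = U i x + c₀ i} =
          ⋂ i, (fun τ : ℝ => X i (s i * τ + b i)) ⁻¹'
            {x : ℝ | ∀ᶠ x' in 𝓝 x, D.U i x' = U i x' + c₀ i} := by
        ext τ
        simp
      rw [h0]
      apply isOpen_iInter_of_finite
      intro i
      exact isOpen_setOfPred_eventually_nhds.preimage (hXs i)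
    · intro τ hτ i
      exact huM i _ ⟨_, hτ, rfl⟩
    · intro L S hLd hSL hLS a' b' hab hO
      obtain ⟨hgeo, hder⟩ := geo n 0 (lvnG U) U hmet (lvnG_liou U) hU D c₀ c X s b 0 L S hc₀ hc hca
        hFl hs hLd hSL hLS a' b' hab hO
      have hL := (exists_inv hLd ha0 hw0).1
      refine ⟨geo_fst hU hpos isOpen_Ioo hgeo, ?_⟩
      intro t ht i
      have hd0 : HasDerivAt (fun t => pt X s b (S t)) (WithLp.toLp 2 (fun i =>
          s i * √(D.U i (X i (s i * S t + b i)) + c i) /
            ∑ j, D.U j (X j (s j * S t + b j)))) t := (hder t ht).fst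
      have hd := hd0.deriv
      have hSt : S t ∈ Ioo a' b' := by
        rw [← hLS t] at ht
        exact ⟨hL.lt_iff_lt.1 ht.1, hL.lt_iff_lt.1 ht.2⟩
      have hOt := hO _ hSt
      have hUj : ∀ j, U j ((pt X s b (S t)) j) = D.U j (X j (s j * S t + b j)) - c₀ j := by
        intro j
        have e1 : D.U j (X j (s j * S t + b j)) = U j (X j (s j * S t + b j)) + c₀ j :=
          (hOt j).self_of_nhds
        have e2 : (pt X s b (S t)) j = X j (s j * S t + b j) := rfl
        rw [e2, e1]; ring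
      set W := ∑ j, D.U j (X j (s j * S t + b j)) with hW
      have hsum : ∑ j, U j ((pt X s b (S t)) j) = W := by
        simp only [hUj, Finset.sum_sub_distrib, hc₀, sub_zero, hW]
      have hwt : 0 < W := ha0.trans_le (hw0 _)
      have hs1 : √(D.U i (X i (s i * S t + b i)) + c i) ^ 2 =
          D.U i (X i (s i * S t + b i)) + c i := by
        apply Real.sq_sqrt
        have := D.Ua i (X i (s i * S t + b i))
        have := neg_abs_le (c i)
        have := hca i
        linarith
      have hσ2 : s i ^ 2 = 1 := by rcases hs i with h | h <;> rw [h] <;> norm_num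
      rw [hd, hsum, hUj i]
      show |W ^ 2 * (s i * √(D.U i (X i (s i * S t + b i)) + c i) / W) ^ 2 - _ - _| < δ
      rw [div_pow, mul_pow, hσ2, hs1, one_mul, mul_div_cancel₀ _ (pow_ne_zero 2 hwt.ne')]
      have key : D.U i (X i (s i * S t + b i)) + c i - (D.U i (X i (s i * S t + b i)) - c₀ i) -
          c₀ i = c i := by ring
      rw [key]
      exact hcδ i
    · filter_upwards [hb] with τ hτ
      exact hτ)
  filter_upwards [h2] with z hz
  have h3 : F z * ∑ i, u i (z i) = 0 := hz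
  rcases mul_eq_zero.1 h3 with h4 | h4
  · exact h4
  · have h5 : 0 < ∑ i, u i (z i) :=
      Finset.sum_pos (fun i _ => ha.trans_le (hub' i _).1) ⟨0, Finset.mem_univ _⟩
    exact absurd h4 h5.ne'

end Pool.Agent.XTower
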