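import Pool.Agent.Lib_helper30.Tower.Gen

/-!
# Cutting a curve into arcs

A curve `c` which is a geodesic only near the times when it is in the compact set `K`.
-/

set_option autoImplicit false

namespace Pool.Agent.XTower

open MeasureTheory Set Filter Topology Pool.Agent.XRay

theorem right_exit {A O : Set ℝ} (hA : IsCompact A) (hO : IsOpen O) (hAO : A ⊆ O) {s : ℝ}
    (hs : s ∈ A) : ∃ b, s < b ∧ b ∉ A ∧ Icc s b ⊆ O := by
  set E : Set ℝ := {t | s ≤ t ∧ Icc s t ⊆ A} with hE
  have hsE : s ∈ E := ⟨le_rfl, by rw [Icc_self]; simpa using hs⟩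
  have hEA : E ⊆ A := fun t ht => ht.2 ⟨ht.1, le_rfl⟩
  have hbdd : BddAbove E := hA.bddAbove.mono hEA
  set e := sSup E with he
  have hse : s ≤ e := le_csSup hbdd hsE
  have heA : e ∈ A := by
    have h1 : e ∈ closure E := csSup_mem_closure ⟨s, hsE⟩ hbdd
    have h2 := closure_mono hEA h1
    rwa [hA.isClosed.closure_eq] at h2
  have hIcc : Icc s e ⊆ A := by
    intro t ht
    rcases ht.2.eq_or_lt with h1 | h1
    · rw [h1]; exact heA
    · obtain ⟨t', ht', htt'⟩ := exists_lt_of_lt_csSup ⟨s, hsE⟩ h1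
      exact ht'.2 ⟨ht.1, htt'.le⟩
  obtain ⟨ε, hε, hb⟩ := Metric.isOpen_iff.1 hO e (hAO heA)
  obtain ⟨b, hb1, hb2⟩ : ∃ b ∈ Ioc e (e + ε / 2), b ∉ A := by
    by_contra hcon
    push Not at hcon
    have h1 : e + ε / 2 ∈ E := by
      refine ⟨by linarith, ?_⟩
      intro t ht
      rcases le_or_gt t e with h2 | h2
      · exact hIcc ⟨ht.1, h2⟩
      · exact hcon t ⟨h2, ht.2⟩
    have h2 := le_csSup hbdd h1
    linarith
  refine ⟨b, lt_of_le_of_lt hse hb1.1, hb2, ?_⟩
  intro t ht
  rcases le_or_gt t e with h2 | h2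
  · exact hAO (hIcc ⟨ht.1, h2⟩)
  · apply hb
    rw [Metric.mem_ball, Real.dist_eq, abs_sub_lt_iff]
    constructor <;> linarith [ht.2, hb1.2]

theorem left_exit {A O : Set ℝ} (hA : IsCompact A) (hO : IsOpen O) (hAO : A ⊆ O) {s : ℝ}
    (hs : s ∈ A) : ∃ a, a < s ∧ a ∉ A ∧ Icc a s ⊆ O := by
  have hA' : IsCompact ((fun x : ℝ => -x) ⁻¹' A) :=
    (Homeomorph.neg ℝ).isClosedEmbedding.isCompact_preimage hA
  obtain ⟨b, h1, h2, h3⟩ := right_exit (A := (fun x : ℝ => -x) ⁻¹' A)
    (O := (fun x : ℝ => -x) ⁻¹' O) (s := -s) hA' (hO.preimage continuous_neg)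
    (fun x hx => hAO hx) (by simpa using hs)
  refine ⟨-b, by linarith, h2, ?_⟩
  intro t ht
  have := h3 (show -t ∈ Icc (-s) b by constructor <;> linarith [ht.1, ht.2])
  simpa using this

/-- **The integral of a function supported in a compact set, from the integrals over the intervals
contained in a neighbourhood of this set.** -/
theorem pieces {Φ : ℝ → ℝ} {A O : Set ℝ} (hA : IsCompact A) (hO : IsOpen O) (hAO : A ⊆ O)
    (hΦi : ∀ a b, IntervalIntegrable Φ volume a b) (hΦ : ∀ t ∉ A, Φ t = 0)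
    (h : ∀ a b, a ≤ b → Icc a b ⊆ O → a ∉ A → b ∉ A → ∫ t in a..b, Φ t = 0) :
    ∫ t, Φ t = 0 := by
  -- the local statement
  have hloc : ∀ s : ℝ, ∃ a b, a < s ∧ s < b ∧ ∀ t t', a ≤ t → t ≤ t' → t' ≤ b → t ∉ A → t' ∉ A →
      ∫ r in t..t', Φ r = 0 := by
    intro s
    by_cases hs : s ∈ A
    · obtain ⟨b, hb1, hb2, hb3⟩ := right_exit hA hO hAO hs
      obtain ⟨a, ha1, ha2, ha3⟩ := left_exit hA hO hAO hs
      refine ⟨a, b, ha1, hb1, ?_⟩
      intro t t' h1 h2 h3 h4 h5
      apply h t t' h2 _ h4 h5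
      intro r hr
      rcases le_or_gt r s with h6 | h6
      · exact ha3 ⟨h1.trans hr.1, h6⟩
      · exact hb3 ⟨h6.le, hr.2.trans h3⟩
    · obtain ⟨ε, hε, hb⟩ := Metric.isOpen_iff.1 hA.isClosed.isOpen_compl s hs
      refine ⟨s - ε / 2, s + ε / 2, by linarith, by linarith, ?_⟩
      intro t t' h1 h2 h3 _ _
      rw [intervalIntegral.integral_congr (g := fun _ => (0 : ℝ))]
      · simp
      · intro r hr
        rw [uIcc_of_le h2] at hr
        apply hΦ
        apply hb
        rw [Metric.mem_ball, Real.dist_eq, abs_sub_lt_iff]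
        constructor <;> linarith [hr.1, hr.2]
  -- a bound
  obtain ⟨N, hN0, hN⟩ : ∃ N : ℝ, 0 < N ∧ ∀ t ∈ A, |t| < N := by
    obtain ⟨r, hr⟩ := hA.isBounded.exists_norm_le
    refine ⟨|r| + 1, by positivity, fun t ht => ?_⟩
    have h1 := hr t ht
    rw [Real.norm_eq_abs] at h1
    have := le_abs_self r
    linarith
  have hNA : N ∉ A := fun hm => by
    have := hN _ hm
    rw [abs_of_pos hN0] at this
    exact lt_irrefl _ this
  have hNA' : -N ∉ A := fun hm => by
    have := hN _ hm
    rw [abs_neg, abs_of_pos hN0] at this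
    exact lt_irrefl _ this
  have hsum : ∀ a b c, (∫ t in a..b, Φ t) + ∫ t in b..c, Φ t = ∫ t in a..c, Φ t := fun a b c =>
    intervalIntegral.integral_add_adjacent_intervals (hΦi a b) (hΦi b c)
  -- the integral over `[-N, N]`
  have hint : ∫ t in (-N)..N, Φ t = 0 := by
    by_contra hne
    set E : Set ℝ := {t | t ∈ Icc (-N) N ∧ t ∉ A ∧ ∫ r in (-N)..t, Φ r = 0} with hE
    have h0 : -N ∈ E := ⟨⟨le_rfl, by linarith⟩, hNA', by simp⟩
    have hbdd : BddAbove E := ⟨N, fun t ht => ht.1.2⟩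
    obtain ⟨a, b, ha, hb, hab⟩ := hloc (sSup E)
    obtain ⟨t, ht, hat⟩ := exists_lt_of_lt_csSup ⟨_, h0⟩ ha
    have hts : t ≤ sSup E := le_csSup hbdd ht
    have hsN : sSup E ≤ N := csSup_le ⟨_, h0⟩ fun t ht => ht.1.2
    rcases le_or_gt b N with h1 | h1
    · -- there are points outside of `A` in `(sSup E, b)` or `A` contains this interval
      by_cases h2 : ∃ t' ∈ Ioo (sSup E) b, t' ∉ A
      · obtain ⟨t', ht', h3⟩ := h2
        have h4 := hab t t' hat.le (hts.trans ht'.1.le) ht'.2.le ht.2.1 h3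
        have h5 : t' ∈ E := by
          refine ⟨⟨?_, ht'.2.le.trans h1⟩, h3, ?_⟩
          · exact ht.1.1.trans (hts.trans ht'.1.le)
          · rw [← hsum (-N) t t', ht.2.2, h4, add_zero]
        have h6 := le_csSup hbdd h5
        exact absurd ht'.1 (not_lt.2 h6)
      · push Not at h2
        -- leave `A` to the right of `sSup E`
        have hsA : sSup E ∈ A := by
          have h3 : sSup E ∈ closure A := by
            have h4 : Ioo (sSup E) b ⊆ A := fun x hx => h2 x hx
            have h5 : sSup E ∈ closure (Ioo (sSup E) b) := by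
              rw [closure_Ioo hb.ne]
              exact ⟨le_rfl, hb.le⟩
            exact closure_mono h4 h5
          rwa [hA.isClosed.closure_eq] at h3
        obtain ⟨b', hb1, hb2, hb3⟩ := right_exit hA hO hAO hsA
        obtain ⟨a', ha1, ha2, ha3⟩ := left_exit hA hO hAO hsA
        obtain ⟨t₂, ht₂, hat₂⟩ := exists_lt_of_lt_csSup ⟨_, h0⟩ ha1
        have hts₂ : t₂ ≤ sSup E := le_csSup hbdd ht₂
        have key : ∀ t', t₂ ≤ t' → t' ≤ b' → t' ∉ A → ∫ r in t₂..t', Φ r = 0 := by
          intro t' h3 h4 h5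
          apply h t₂ t' h3 _ ht₂.2.1 h5
          intro r hr
          rcases le_or_gt r (sSup E) with h6 | h6
          · exact ha3 ⟨hat₂.le.trans hr.1, h6⟩
          · exact hb3 ⟨h6.le, hr.2.trans h4⟩
        rcases le_or_gt b' N with h3 | h3
        · have h5 : b' ∈ E := by
            refine ⟨⟨ht₂.1.1.trans (hts₂.trans hb1.le), h3⟩, hb2, ?_⟩
            rw [← hsum (-N) t₂ b', ht₂.2.2, key b' (hts₂.trans hb1.le) le_rfl hb2, add_zero]
          exact absurd hb1 (not_lt.2 (le_csSup hbdd h5))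
        · apply hne
          rw [← hsum (-N) t₂ N, ht₂.2.2, key N (hts₂.trans hsN) h3.le hNA, add_zero]
    · apply hne
      rw [← hsum (-N) t N, ht.2.2, hab t N hat.le (hts.trans hsN) h1.le ht.2.1 hNA, add_zero]
  have hsupp : Function.support Φ ⊆ Ioc (-N) N := by
    intro t ht
    have h1 : t ∈ A := by
      by_contra hcon
      exact ht (hΦ t hcon)
    have h2 := abs_lt.1 (hN t h1)
    exact ⟨h2.1, h2.2.le⟩
  rw [← intervalIntegral.integral_eq_integral_of_support_subset hsupp]
  exact hint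

theorem grow_right {g g' : ℝ → ℝ} (hg : ∀ t, HasDerivAt g (g' t) t) {κ : ℝ}
    (hκ : ∀ t, κ ≤ g' t) {s t : ℝ} (hst : s ≤ t) : g s + κ * (t - s) ≤ g t := by
  have h1 : MonotoneOn (fun t => g t - κ * t) univ := by
    apply monotoneOn_of_deriv_nonneg convex_univ
    · apply Continuous.continuousOn
      have : Continuous g := continuous_iff_continuousAt.2 fun t => (hg t).continuousAt
      fun_prop
    · intro x _
      exact ((hg x).sub ((hasDerivAt_id x).const_mul κ)).differentiableAt.differentiableWithinAt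
    · intro x _
      have h2 : HasDerivAt (fun t => g t - κ * t) (g' x - κ * 1) x :=
        (hg x).sub ((hasDerivAt_id x).const_mul κ)
      rw [h2.deriv]
      linarith [hκ x]
  have h3 := h1 (mem_univ s) (mem_univ t) hst
  simp only at h3
  linarith

theorem exists_inv {g g' : ℝ → ℝ} (hg : ∀ t, HasDerivAt g (g' t) t) {κ : ℝ} (hκ0 : 0 < κ)
    (hκ : ∀ t, κ ≤ g' t) : StrictMono g ∧ ∃ S : ℝ → ℝ, (∀ t, S (g t) = t) ∧ ∀ t, g (S t) = t := by
  have hmono : StrictMono g := by
    intro s t hst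
    have h1 := grow_right hg hκ hst.le
    nlinarith [mul_pos hκ0 (sub_pos.2 hst)]
  refine ⟨hmono, ?_⟩
  have hc : Continuous g := continuous_iff_continuousAt.2 fun t => (hg t).continuousAt
  have hsurj : Function.Surjective g := by
    intro u
    set L := |u - g 0| / κ with hL
    have hL0 : 0 ≤ L := by positivity
    have hκL : κ * L = |u - g 0| := by rw [hL]; field_simp
    have h1 := grow_right hg hκ hL0
    have h2 := grow_right hg hκ (neg_nonpos.2 hL0)
    have h3 : u ∈ Icc (g (-L)) (g L) := by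
      constructor
      · have := neg_abs_le (u - g 0)
        nlinarith
      · have := le_abs_self (u - g 0)
        nlinarith
    obtain ⟨x, _, hx⟩ := intermediate_value_Icc (neg_le_self hL0) hc.continuousOn h3
    exact ⟨x, hx⟩
  choose S hS using hsurj
  exact ⟨S, fun t => hmono.injective (hS (g t)), hS⟩

/-- **The integral along a curve given in an arbitrary parameter vanishes**, from the integrals
along arcs of geodesics. -/
theorem param_zero {Y : Type*} [NormedAddCommGroup Y] [NormedSpace ℝ Y] [MeasurableSpace Y]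
    [BorelSpace Y] {h : Y → Form Y} {P : Y → Y → Prop} {F : Y → ℝ} {K Z : Set Y}
    (hFm : Measurable F) (hFb : ∃ C, ∀ z, |F z| ≤ C) (hK : IsClosed K) (hFK : ∀ z ∉ K, F z = 0)
    (harc : ∀ a b c, PArc h P a b c → c a ∉ K → c b ∉ K →
      (∀ᵐ t ∂(volume.restrict (Ioc a b)), c t ∉ Z) → ∫ t in a..b, F (c t) = 0)
    {g g' : ℝ → Y} {w : ℝ → ℝ} (hg : ∀ τ, HasDerivAt g (g' τ) τ) (hg' : Continuous g')
    (hw : Continuous w) {κ : ℝ} (hκ : 0 < κ) (hwκ : ∀ τ, κ ≤ w τ)
    (hbdd : ∃ L, ∀ τ, L ≤ |τ| → g τ ∉ K) {O : Set ℝ} (hO : IsOpen O)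
    (hKO : ∀ τ, g τ ∈ K → τ ∈ O)
    (hgeo : ∀ T S : ℝ → ℝ, (∀ τ, HasDerivAt T (w τ) τ) → (∀ τ, S (T τ) = τ) →
      (∀ t, T (S t) = t) → ∀ a b, a < b → (∀ τ ∈ Ioo a b, τ ∈ O) →
      UnitGeodesicOn h (fun t => g (S t)) (Ioo (T a) (T b)) ∧
      ∀ t ∈ Ioo (T a) (T b), P (g (S t)) (deriv (fun t => g (S t)) t))
    (hZ : ∀ᵐ τ : ℝ, g τ ∉ Z) : ∫ τ, F (g τ) * w τ = 0 := by
  obtain ⟨T, hTd⟩ : ∃ T : ℝ → ℝ, ∀ τ, HasDerivAt T (w τ) τ :=
    ⟨fun τ => ∫ s in (0 : ℝ)..τ, w s, fun τ =>
      intervalIntegral.integral_hasDerivAt_right (hw.intervalIntegrable _ _)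
        (hw.stronglyMeasurableAtFilter _ _) hw.continuousAt⟩
  obtain ⟨hT, S, hST, hTS⟩ := exists_inv hTd hκ hwκ
  have hTc : Continuous T := continuous_iff_continuousAt.2 fun t => (hTd t).continuousAt
  have hw0 : ∀ τ, w τ ≠ 0 := fun τ => (hκ.trans_le (hwκ τ)).ne'
  have hSm : StrictMono S := by
    intro s t hst
    rw [← hT.lt_iff_lt, hTS, hTS]
    exact hst
  have hSc : Continuous S :=
    hSm.monotone.continuous_of_surjective fun y => ⟨T y, hST y⟩
  have hSd : ∀ t, HasDerivAt S ((w (S t))⁻¹) t := fun t =>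
    HasDerivAt.of_local_left_inverse hSc.continuousAt (hTd (S t)) (hw0 _)
      (Eventually.of_forall hTS)
  obtain ⟨c, hc⟩ : ∃ c : ℝ → Y, c = fun t => g (S t) := ⟨_, rfl⟩
  have hcS : ∀ t, c t = g (S t) := by intro t; rw [hc]
  have hcd : ∀ t, HasDerivAt c ((w (S t))⁻¹ • g' (S t)) t := by
    intro t
    rw [hc]
    exact (hg (S t)).scomp t (hSd t)
  have hc1 : ContDiff ℝ 1 c := by
    rw [contDiff_one_iff_deriv]
    refine ⟨fun t => (hcd t).differentiableAt, ?_⟩
    have e1 : deriv c = fun t => (w (S t))⁻¹ • g' (S t) := funext fun t => (hcd t).deriv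
    rw [e1]
    exact ((hw.comp hSc).inv₀ fun t => hw0 _).smul (hg'.comp hSc)
  -- the integral in the arc length
  have hmain : ∫ t, F (c t) = 0 := by
    obtain ⟨L, hL⟩ := hbdd
    have hAc : IsCompact {t | c t ∈ K} := by
      apply Metric.isCompact_of_isClosed_isBounded (hK.preimage hc1.continuous)
      apply (isCompact_Icc (a := T (-L)) (b := T L)).isBounded.subset
      intro t ht
      have ht' : c t ∈ K := ht
      rw [hcS] at ht'
      have h1 : ¬ L ≤ |S t| := fun h1 => hL _ h1 ht'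
      have h2 := abs_lt.1 (not_le.1 h1)
      rw [← hTS t]
      exact ⟨(hT h2.1).le, (hT h2.2).le⟩
    have hOo : IsOpen (S ⁻¹' O) := hO.preimage hSc
    obtain ⟨C, hC⟩ := hFb
    apply pieces hAc hOo
    · intro t ht
      have ht' : c t ∈ K := ht
      rw [hcS] at ht'
      exact hKO _ ht'
    · intro a b
      rw [intervalIntegrable_iff]
      refine Measure.integrableOn_of_bounded (M := C) ?_
        (hFm.comp hc1.continuous.measurable).aestronglyMeasurable
        (Eventually.of_forall fun z => hC _)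
      exact measure_Ioc_lt_top.ne
    · intro t ht
      exact hFK _ ht
    · intro a b hab hI ha hb
      apply harc a b c _ ha hb
      · apply ae_restrict_of_ae
        rw [ae_iff]
        have h1 : {t : ℝ | ¬ c t ∉ Z} ⊆ T '' {τ | ¬ g τ ∉ Z} := by
          intro t ht
          refine ⟨S t, ?_, hTS t⟩
          have ht' : ¬ c t ∉ Z := ht
          rw [hcS] at ht'
          exact ht'
        apply measure_mono_null h1
        apply addHaar_image_eq_zero_of_differentiableOn_of_addHaar_eq_zero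
        · exact fun τ _ => (hTd τ).differentiableAt.differentiableWithinAt
        · exact hZ
      · -- a slightly larger interval
        obtain ⟨η₁, hη₁, hb1⟩ := Metric.isOpen_iff.1 hOo a (hI (left_mem_Icc.2 hab))
        obtain ⟨η₂, hη₂, hb2⟩ := Metric.isOpen_iff.1 hOo b (hI (right_mem_Icc.2 hab))
        have hOab : ∀ t ∈ Ioo (a - η₁) (b + η₂), S t ∈ O := by
          intro t ht
          rcases lt_or_ge t a with h1 | h1
          · apply hb1
            rw [Metric.mem_ball, Real.dist_eq, abs_sub_lt_iff]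
            constructor <;> linarith [ht.1]
          · rcases le_or_gt t b with h2 | h2
            · exact hI ⟨h1, h2⟩
            · apply hb2
              rw [Metric.mem_ball, Real.dist_eq, abs_sub_lt_iff]
              constructor <;> linarith [ht.2]
        have h3 := hgeo T S hTd hST hTS (S (a - η₁)) (S (b + η₂)) (hSm (by linarith)) (by
          intro τ hτ
          rw [← hST τ]
          apply hOab
          constructor
          · rw [← hTS (a - η₁)]; exact hT hτ.1
          · rw [← hTS (b + η₂)]; exact hT hτ.2)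
        rw [hTS, hTS, ← hc] at h3
        refine ⟨hab, hc1, a - η₁, b + η₂, by linarith, by linarith, h3.1, ?_⟩
        intro τ hτ
        rw [hcS]
        exact h3.2 τ hτ
  -- change of variables
  have h3 := integral_image_eq_integral_abs_deriv_smul (s := univ) (f := T) (f' := w)
    MeasurableSet.univ (fun x _ => (hTd x).hasDerivWithinAt) hT.injective.injOn
    (fun t => F (c t))
  have h4 : range T = univ := eq_univ_of_forall fun t => ⟨S t, hTS t⟩
  rw [image_univ, h4, Measure.restrict_univ, hmain] at h3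
  rw [h3]
  refine integral_congr_ae (Eventually.of_forall fun τ => ?_)
  change F (g τ) * w τ = |w τ| • F (c (T τ))
  rw [hcS, hST, abs_of_pos (hκ.trans_le (hwκ τ)), smul_eq_mul, mul_comm]

end Pool.Agent.XTower
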