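import Pool.Agent.Lib_helper30.Tower.Pieces
import Pool.Agent.WPD.All

/-!
# Towers: the base with a warped product metric

The geodesics of a warped product over an interval with a conformally flat fibre of dimension at
least two, almost orthogonal to the fibres, determine the bounded Borel functions with compact
support. (Measurable version of `Pool/Agent/WPD/Seg.lean` and `Pool/Agent/WPD/Abs.lean`.)
-/

set_option autoImplicit false

namespace Pool.Agent.XTower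

open MeasureTheory Set Filter Topology Pool.Agent.XRay Pool.Agent.WPD

section forms

variable {V W : Type*} [NormedAddCommGroup V] [NormedSpace ℝ V] [NormedAddCommGroup W]
  [InnerProductSpace ℝ W]

/-- `(u, v) ↦ a u * a v` -/
noncomputable def osq (a : V →L[ℝ] ℝ) : Form V := a.smulRight a

theorem osq_apply (a : V →L[ℝ] ℝ) (u v : V) : osq a u v = a u * a v := by
  simp [osq]

/-- `(u, v) ↦ ⟨b u, b v⟩` -/
noncomputable def oin (b : V →L[ℝ] W) : Form V := (innerSL ℝ).bilinearComp b b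

theorem oin_apply (b : V →L[ℝ] W) (u v : V) : oin b u v = inner ℝ (b u) (b v) := by
  simp [oin]

/-- the metric `α(a z) da² + β(a z) ρ(b z) |db|²` -/
noncomputable def wForm (α β : ℝ → ℝ) (ρ : W → ℝ) (a : V →L[ℝ] ℝ) (b : V →L[ℝ] W) (z : V) :
    Form V :=
  α (a z) • osq a + (β (a z) * ρ (b z)) • oin b

theorem wForm_apply (α β : ℝ → ℝ) (ρ : W → ℝ) (a : V →L[ℝ] ℝ) (b : V →L[ℝ] W) (z u v : V) :
    wForm α β ρ a b z u v = α (a z) * (a u * a v) + β (a z) * ρ (b z) * inner ℝ (b u) (b v) := by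
  rw [← osq_apply a, ← oin_apply b]
  rfl

theorem wForm_metric {α β : ℝ → ℝ} {ρ : W → ℝ} (hα : Differentiable ℝ α)
    (hβ : Differentiable ℝ β) (hρ : Differentiable ℝ ρ) (α0 : ∀ t, 0 < α t) (β0 : ∀ t, 0 < β t)
    (ρ0 : ∀ x, 0 < ρ x) (a : V →L[ℝ] ℝ) (b : V →L[ℝ] W) (hab : ∀ v, a v = 0 → b v = 0 → v = 0) :
    IsMetric (wForm α β ρ a b) := by
  refine ⟨?_, ?_, ?_⟩
  · unfold wForm
    exact add_form_diff (smul_form_diff _ (hα.comp a.differentiable))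
      (smul_form_diff _ ((hβ.comp a.differentiable).mul (hρ.comp b.differentiable)))
  · intro z u v
    rw [wForm_apply, wForm_apply, mul_comm (a u), real_inner_comm]
  · intro z u hu
    rw [wForm_apply, real_inner_self_eq_norm_sq]
    have h1 := α0 (a z)
    have h2 := β0 (a z)
    have h3 := ρ0 (b z)
    by_cases h0 : a u = 0
    · have h4 : b u ≠ 0 := fun h4 => hu (hab u h0 h4)
      rw [h0]
      have h5 : 0 < ‖b u‖ ^ 2 := by positivity
      have h6 : 0 < β (a z) * ρ (b z) * ‖b u‖ ^ 2 := by positivity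
      linarith
    · have h5 : 0 < a u * a u := mul_self_pos.2 h0
      have h6 : 0 ≤ β (a z) * ρ (b z) * ‖b u‖ ^ 2 := by positivity
      have h7 : 0 < α (a z) * (a u * a u) := by positivity
      linarith

end forms

section transfer

variable {V Y : Type*} [NormedAddCommGroup V] [NormedSpace ℝ V] [NormedAddCommGroup Y]
  [NormedSpace ℝ Y]

/-- linear isometries preserve geodesics -/
theorem transfer_geodesic {G : V → Form V} {h : Y → Form Y} (hG : IsMetric G) (hh : IsMetric h)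
    (ψ : V ≃L[ℝ] Y) (hψ : ∀ z u v, G z u v = h (ψ z) (ψ u) (ψ v)) {γ : ℝ → V} {J : Set ℝ}
    (hγ : UnitGeodesicOn G γ J) : UnitGeodesicOn h (fun t => ψ (γ t)) J := by
  have hd : ∀ t, deriv (fun t => ψ (γ t)) t = ψ (deriv γ t) := by
    intro t
    have h1 := ψ.comp_fderiv (f := γ) (x := t)
    have h2 : fderiv ℝ (fun t => ψ (γ t)) t = (ψ : V →L[ℝ] Y).comp (fderiv ℝ γ t) := h1
    change fderiv ℝ (fun t => ψ (γ t)) t 1 = ψ (fderiv ℝ γ t 1)
    rw [h2]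
    rfl
  refine ⟨fun t ht => ?_, ?_, ?_⟩
  · exact ψ.differentiableAt.comp t (hγ.diff t ht)
  · intro t ht w
    have h1 := hγ.euler t ht (ψ.symm w)
    have h2 : (fun s => G (γ s) (deriv γ s) (ψ.symm w)) =
        fun s => h (ψ (γ s)) (deriv (fun t => ψ (γ t)) s) w := by
      funext s
      rw [hψ, hd, ψ.apply_symm_apply]
    have h3 := fderiv_eq hG hh (π := (ψ : V →L[ℝ] Y)) (S := fun _ u => ψ.symm u)
      (fun z u => ψ.apply_symm_apply u) (fun z u w => by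
        rw [hψ, ψ.apply_symm_apply]
        rfl) (γ t) (ψ.symm w) (ψ (deriv γ t))
    simp only [ContinuousLinearEquiv.symm_apply_apply] at h3
    rw [h2, h3] at h1
    have h4 : ((ψ : V →L[ℝ] Y) (ψ.symm w)) = w := ψ.apply_symm_apply w
    rw [h4] at h1
    rw [hd]
    exact h1
  · intro t ht
    rw [hd, ← hψ]
    exact hγ.unit t ht

end transfer

variable {n : ℕ}

/-- the warped product metric on `ℝ × F n` -/
noncomputable def warpForm (α β : ℝ → ℝ) (ρ : F n → ℝ) : ℝ × F n → Form (ℝ × F n) :=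
  wForm α β ρ (ContinuousLinearMap.fst ℝ ℝ (F n)) (ContinuousLinearMap.snd ℝ ℝ (F n))

theorem warpForm_apply (α β : ℝ → ℝ) (ρ : F n → ℝ) (z u v : ℝ × F n) :
    warpForm α β ρ z u v = α z.1 * (u.1 * v.1) + β z.1 * ρ z.2 * inner ℝ u.2 v.2 :=
  wForm_apply _ _ _ _ _ _ _ _

theorem warpForm_metric {α β : ℝ → ℝ} {ρ : F n → ℝ} (hα : Differentiable ℝ α)
    (hβ : Differentiable ℝ β) (hρ : Differentiable ℝ ρ) (α0 : ∀ t, 0 < α t) (β0 : ∀ t, 0 < β t)
    (ρ0 : ∀ x, 0 < ρ x) : IsMetric (warpForm α β ρ) :=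
  wForm_metric hα hβ hρ α0 β0 ρ0 _ _ fun _ h1 h2 => Prod.ext h1 h2

/-- the projection of `T n 0` -/
noncomputable def e1 (n : ℕ) : T n 0 ≃L[ℝ] (ℝ × F n) where
  toFun z := (z.1, z.2.1)
  map_add' _ _ := rfl
  map_smul' _ _ := rfl
  invFun y := (y.1, y.2, 0)
  left_inv _ := Prod.ext rfl (Prod.ext rfl (Subsingleton.elim _ _))
  right_inv _ := rfl
  continuous_toFun := by fun_prop
  continuous_invFun := by fun_prop

/-- the warped product metric on `T n 0` -/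
noncomputable def warpT (α β : ℝ → ℝ) (ρ : F n → ℝ) : T n 0 → Form (T n 0) :=
  wForm α β ρ (ContinuousLinearMap.fst ℝ ℝ (F n × EuclideanSpace ℝ (Fin 0)))
    ((ContinuousLinearMap.fst ℝ (F n) (EuclideanSpace ℝ (Fin 0))).comp
      (ContinuousLinearMap.snd ℝ ℝ (F n × EuclideanSpace ℝ (Fin 0))))

theorem warpT_apply (α β : ℝ → ℝ) (ρ : F n → ℝ) (z u v : T n 0) :
    warpT α β ρ z u v = α z.1 * (u.1 * v.1) + β z.1 * ρ z.2.1 * inner ℝ u.2.1 v.2.1 :=
  wForm_apply _ _ _ _ _ _ _ _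

theorem warpT_metric {α β : ℝ → ℝ} {ρ : F n → ℝ} (hα : Differentiable ℝ α)
    (hβ : Differentiable ℝ β) (hρ : Differentiable ℝ ρ) (α0 : ∀ t, 0 < α t) (β0 : ∀ t, 0 < β t)
    (ρ0 : ∀ x, 0 < ρ x) : IsMetric (warpT α β ρ) :=
  wForm_metric hα hβ hρ α0 β0 ρ0 _ _ fun _ h1 h2 =>
    Prod.ext h1 (Prod.ext h2 (Subsingleton.elim _ _))

theorem warp_detOn {α β : ℝ → ℝ} {ρ : F n → ℝ} (hα : Differentiable ℝ α)
    (hβ : Differentiable ℝ β) (hρ : ContDiff ℝ (⊤ : ℕ∞) ρ) (α0 : ∀ t, 0 < α t)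
    (β0 : ∀ t, 0 < β t) (ρ0 : ∀ x, 0 < ρ x) {δ : ℝ} (hδ : 0 < δ) :
    DetOn (volume : Measure (ℝ × F n)) univ
      (PArc (warpForm α β ρ) fun z v => β z.1 ^ 2 * ρ z.2 * ‖v.2‖ ^ 2 < δ) := by
  intro f K Z hFm hFb hK _ hFK hZm hZ0 harc
  obtain ⟨C₀, hC₀⟩ := hFb
  have hρ' : Differentiable ℝ ρ := hρ.differentiable (by simp)
  have hmet := warpForm_metric hα hβ hρ' α0 β0 ρ0
  have hmetT := warpT_metric hα hβ hρ' α0 β0 ρ0
  have met : Met (warpT α β ρ) α β ρ := ⟨hmetT, fun z v v' _ => warpT_apply α β ρ z v v', hα, hβ,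
    hρ, α0, β0, ρ0⟩
  have hαc : Continuous α := hα.continuous
  have hβc : Continuous β := hβ.continuous
  -- the size of `K`
  obtain ⟨r₁, hr₁⟩ := hK.isBounded.exists_norm_le
  obtain ⟨R, hR, hRK⟩ : ∃ R : ℝ, 0 < R ∧ ∀ z ∈ K, |z.1| < R ∧ ‖z.2‖ < R := by
    refine ⟨max r₁ 0 + 1, by positivity, fun z hz => ?_⟩
    have h1 := hr₁ z hz
    have h2 := norm_fst_le z
    have h3 := norm_snd_le z
    rw [Real.norm_eq_abs] at h2
    have h4 := le_max_left r₁ 0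
    constructor <;> linarith
  obtain ⟨ρ', a₃, B₃, R', c, ha₃, hρs, hρb, hρc, hρe⟩ := mod_ n ρ R hρ ρ0
  obtain ⟨a₁, B₁, ha₁, hαb⟩ := ABSAux.bounds hαc α0 hR
  obtain ⟨a₂, B₂, ha₂, hβb⟩ := ABSAux.bounds hβc β0 hR
  have hFs : ∀ (t : ℝ) (x : F n), R ≤ |t| ∨ R ≤ ‖x‖ → f (t, x) = 0 := fun t x htx => by
    apply hFK
    intro hz
    have h1 := hRK _ hz
    rcases htx with h | h
    · exact absurd h1.1 (not_lt.2 h)
    · exact absurd h1.2 (not_lt.2 h)
  let D : WD n := ABSAux.mk α β ρ' f hαc hβc R hR a₁ B₁ a₂ B₂ a₃ B₃ C₀ ha₁ ha₂ ha₃ hαb hβb hρs hρb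
    ⟨R', c, hρc⟩ hFm hC₀ hFs
  obtain ⟨φ, hφ⟩ := All.BF n D
  obtain ⟨C, hC⟩ := All.SG n D
  have ha0 := D.a0
  refine All.CORE n D φ hφ (min 1 (min (D.a / 2) δ)) (lt_min one_pos (lt_min (half_pos D.a0) hδ)) ?_
  intro ε hε0 hε
  have hε1 : ε ≤ 1 := (hε.trans_le (min_le_left _ _)).le
  have hεa : ε ≤ D.a / 2 := (hε.trans_le ((min_le_right _ _).trans (min_le_left _ _))).le
  have hεδ : ε ≤ δ := (hε.trans_le ((min_le_right _ _).trans (min_le_right _ _))).le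
  have hsq : ε ^ 2 ≤ ε := by nlinarith
  have h1 := All.NUL n D φ hφ ε hε0 (hsq.trans hεa) Z hZm hZ0
  unfold WD.Zero
  filter_upwards [h1] with z hz hk
  have hzZ := hz hk
  have hk0 : 0 ≤ D.k z := SEGAux.k_nonneg D z
  obtain ⟨κ, hκdef⟩ : ∃ κ : ℝ, κ = ε ^ 2 * D.k z := ⟨_, rfl⟩
  rw [← hκdef] at hzZ ⊢
  have hκ0 : 0 ≤ κ := by rw [hκdef]; positivity
  have hε2 : 0 < ε ^ 2 := by positivity
  have hκε : κ < ε ^ 2 := by rw [hκdef]; nlinarith
  have hκa : κ ≤ D.a / 2 := by linarith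
  have hw : Continuous (D.w κ) := by
    have h := hC.wc.comp (Continuous.prodMk continuous_const continuous_id :
      Continuous (fun t : ℝ => (κ, t)))
    simpa [Function.comp_def, min_eq_left hκa] using h
  have hw0 : ∀ t, C⁻¹ ≤ D.w κ t := fun t => hC.wl κ t hκ0 hκa
  have hCi : 0 < C⁻¹ := inv_pos.2 hC.C0
  have hsg : Continuous (D.sg κ) :=
    continuous_iff_continuousAt.2 fun t => (hC.sgd κ t hκa).continuousAt
  have hφc : Continuous (fun t : ℝ => φ (ε * D.sg κ t) z) :=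
    hφ.cont.comp (Continuous.prodMk (continuous_const.mul hsg) continuous_const)
  have hρ'0 : ∀ x, D.ρ x ≠ 0 := fun x => (ha0.trans_le (D.ρa x)).ne'
  have hpz := param_zero (h := warpForm α β ρ) (P := fun z v => β z.1 ^ 2 * ρ z.2 * ‖v.2‖ ^ 2 < δ)
    (K := K) (Z := Z) hFm ⟨C₀, hC₀⟩ hK.isClosed hFK harc
    (g := fun t => (t, (φ (ε * D.sg κ t) z).1))
    (g' := fun t => (1, (ε * (√(D.α t) / (√(D.β t) * √(D.β t - κ)))) •
      ((D.ρ (φ (ε * D.sg κ t) z).1)⁻¹ • (φ (ε * D.sg κ t) z).2)))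
    (w := D.w κ) (κ := C⁻¹)
    (O := {t | (∀ᶠ s in 𝓝 t, D.α s = α s ∧ D.β s = β s) ∧
      ∀ᶠ x in 𝓝 (φ (ε * D.sg κ t) z).1, D.ρ x = ρ x}) ?_ ?_ ?_ ?_ ?_ ?_ ?_ ?_ ?_ ?_
  · exact hpz
  · intro t
    refine HasDerivAt.prodMk (hasDerivAt_id t) ?_
    have h2 : HasDerivAt (fun t : ℝ => ε * D.sg κ t)
        (ε * (√(D.α t) / (√(D.β t) * √(D.β t - κ)))) t := (hC.sgd κ t hκa).const_mul ε
    have h3 := hφ.deriv (ε * D.sg κ t) z (by linarith)
    have h4 := HasDerivAt.scomp t h3 h2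
    have h5 : HasDerivAt (fun t : ℝ => (φ (ε * D.sg κ t) z).1)
        (((ε * (√(D.α t) / (√(D.β t) * √(D.β t - κ)))) • D.Y (φ (ε * D.sg κ t) z)).1) t :=
      (ContinuousLinearMap.fst ℝ (F n) (F n)).hasFDerivAt.comp_hasDerivAt t h4
    exact h5
  · have c1 : Continuous (fun t => √(D.β t) * √(D.β t - κ)) :=
      (D.βc.sqrt).mul ((D.βc.sub continuous_const).sqrt)
    have c2 : ∀ t, √(D.β t) * √(D.β t - κ) ≠ 0 := by
      intro t
      have h2 := D.βa t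
      have h3 : 0 < D.β t := ha0.trans_le h2
      have h4 : 0 < D.β t - κ := by linarith
      exact (mul_pos (Real.sqrt_pos.2 h3) (Real.sqrt_pos.2 h4)).ne'
    have c3 : Continuous (fun t => D.ρ (φ (ε * D.sg κ t) z).1) :=
      D.ρs.continuous.comp hφc.fst
    exact continuous_const.prodMk ((continuous_const.mul (D.αc.sqrt.div c1 c2)).smul
      ((c3.inv₀ fun t => hρ'0 _).smul hφc.snd))
  · exact hw
  · exact hCi
  · exact hw0
  · refine ⟨R, ?_⟩
    intro t ht hmem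
    exact absurd (hRK _ hmem).1 (not_lt.2 ht)
  · have h2 : IsOpen {t : ℝ | ∀ᶠ s in 𝓝 t, D.α s = α s ∧ D.β s = β s} :=
      isOpen_setOfPred_eventually_nhds
    have h3 : IsOpen {x : F n | ∀ᶠ x' in 𝓝 x, D.ρ x' = ρ x'} := isOpen_setOfPred_eventually_nhds
    exact h2.inter (h3.preimage hφc.fst)
  · intro t ht
    refine ⟨?_, ?_⟩
    · filter_upwards [ABSAux.cl_ev (hRK _ ht).1] with s hs
      exact ⟨congrArg α hs, congrArg β hs⟩
    · have h3 : ∀ᶠ x in 𝓝 (φ (ε * D.sg κ t) z).1, ‖x‖ < R :=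
        continuous_norm.continuousAt.eventually (gt_mem_nhds (hRK _ ht).2)
      filter_upwards [h3] with x hx
      exact hρe x hx
  · intro T' S hTd hST hTS a b hab hO
    obtain ⟨hgeo, hder⟩ := All.GEO n 0 (warpT α β ρ) α β ρ met D φ hφ ε hε0 (hsq.trans hεa) z 0 T'
      S hk (by rw [← hκdef]; exact hTd) hST hTS a b hab (by
        intro t ht
        have h2 := hO t ht
        unfold cv
        rw [← hκdef]
        exact h2)
    have hg := transfer_geodesic hmetT hmet (e1 n) (fun z u v => by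
      rw [warpT_apply, warpForm_apply]
      rfl) hgeo
    have hcv : (fun t => e1 n (cv D φ ε z 0 0 (S t))) =
        fun t => (S t, (φ (ε * D.sg κ (S t)) z).1) := by
      funext t
      unfold cv
      rw [← hκdef]
      rfl
    rw [hcv] at hg
    refine ⟨hg, ?_⟩
    intro t ht
    have hTm : StrictMono T' := (exists_inv hTd hCi hw0).1
    have hSt : S t ∈ Ioo a b := by
      rw [← hTS t] at ht
      exact ⟨hTm.lt_iff_lt.1 ht.1, hTm.lt_iff_lt.1 ht.2⟩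
    have hOt := hO _ hSt
    have hd0 := hder t ht
    have hd1 : HasDerivAt (fun t => e1 n (cv D φ ε z 0 0 (S t)))
        (e1 n ((D.w (ε ^ 2 * D.k z) (S t))⁻¹,
          (ε / (D.β (S t) * D.ρ (φ (ε * D.sg (ε ^ 2 * D.k z) (S t)) z).1)) •
          (φ (ε * D.sg (ε ^ 2 * D.k z) (S t)) z).2, 0)) t :=
      (e1 n).hasFDerivAt.comp_hasDerivAt t hd0
    rw [hcv] at hd1
    rw [hd1.deriv, ← hκdef]
    have e1' : D.β (S t) = β (S t) := hOt.1.self_of_nhds.2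
    have e2' : D.ρ (φ (ε * D.sg κ (S t)) z).1 = ρ (φ (ε * D.sg κ (S t)) z).1 :=
      hOt.2.self_of_nhds
    show β (S t) ^ 2 * ρ (φ (ε * D.sg κ (S t)) z).1 *
      ‖(ε / (D.β (S t) * D.ρ (φ (ε * D.sg κ (S t)) z).1)) • (φ (ε * D.sg κ (S t)) z).2‖ ^ 2 < δ
    have hen := hφ.energy (ε * D.sg κ (S t)) z
    have hβ' := D.βa (S t)
    have hρ'' := D.ρa (φ (ε * D.sg κ (S t)) z).1
    unfold WD.k at hen
    rw [← e1', ← e2', norm_smul, mul_pow, Real.norm_eq_abs, sq_abs]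
    obtain ⟨q, hq⟩ : ∃ q, q = (φ (ε * D.sg κ (S t)) z).2 := ⟨_, rfl⟩
    obtain ⟨r, hr'⟩ : ∃ r, r = D.ρ (φ (ε * D.sg κ (S t)) z).1 := ⟨_, rfl⟩
    obtain ⟨b', hb'⟩ : ∃ b', b' = D.β (S t) := ⟨_, rfl⟩
    rw [← hq, ← hr'] at hen
    rw [← hr'] at hρ''
    rw [← hb'] at hβ'
    rw [← hq, ← hr', ← hb']
    have hb0 : b' ≠ 0 := by linarith
    have hr0 : r ≠ 0 := by linarith
    have key : b' ^ 2 * r * ((ε / (b' * r)) ^ 2 * ‖q‖ ^ 2) = ε ^ 2 * (‖q‖ ^ 2 / r) := by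
      field_simp
    rw [key, hen]
    have h9 : ε ^ 2 * (‖z.2‖ ^ 2 / D.ρ z.1) = κ := hκdef.symm
    rw [h9]
    linarith
  · filter_upwards [hzZ] with t ht
    exact ht

end Pool.Agent.XTower
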